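import Pool.Agent.Helper20.TY.Grps
import Pool.Agent.Helper63.TY.FrameR
import Pool.Agent.Helper79.CV.FCheck
import Pool.Agent.Helper79.CV.FastCub
import Pool.Agent.Helper79.CV.FReps

/-!
MP_8ee768_co, project TH-Y', stage F: the kernel functions of one frame and their theorems.

`Typ` = everything about one of the two types of the linked families, `SufG` = the starts of the
groups for a class, `FrX` = the data of one frame (words of the two sides). `frmChk` checks the
words, `runX` runs blocks `b` of a mask on the row chunks `a, a + 1, ..` (`k` of them, `k = 0`: all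
the others). `frameX` : all blocks on all rows give `FrameF`.
-/

set_option autoImplicit false

namespace Pool.Agent.Helper20.TY

open Finset
open Pool.Agent.Helper97.CV
open Pool.Agent.Helper63.SIMD
open Pool.Agent.Helper79.CV
open Pool.Agent.Helper33.CV
open Pool.Agent.Helper91.TY (runC okW prs wpc fld_runC cstep)
open Pool.Agent.Helper63.TY (Cb Acc acc_frc runBlk Blk acc_runBlk frameF_of_blk MxOK Join
  lanes_append join_append_left appL appL_eq loopL acc_loopL)
open Pool.Agent.Helper74.TY (frc frc_eq)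

/-! ### types, classes, frames -/

/-- one type of linked families, `A` = automorphisms, `as` their numbers -/
structure Typ (lo hi : ℕ → ℕ) where
  T : ℕ
  C : ℕ
  hC : C = cub 11 (fam 11 3 T)
  G : Grps T lo hi
  A : Set (Equiv.Perm (Fin 13))
  as : List ℕ
  L : List (List ℕ)
  hL : L.map (fun g => numL g 0) = as
  hA : ∀ α ∈ A, valL α ∈ L

/-- completeness of the tables of a type -/
structure Typ.Tab {lo hi : ℕ → ℕ} (t : Typ lo hi) (reps : List ℕ) : Prop where
  tab : TabA reps t.T 4 (fun _ _ => True) t.A t.G.l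
  tabX : TabA reps t.T 4 RelX t.A t.G.lx

/-- the starts of the groups for the class `j` -/
structure SufG {T : ℕ} {lo hi : ℕ → ℕ} (G : Grps T lo hi) (j : ℕ) where
  sX : ℕ → ℕ
  sN : ℕ → ℕ
  hX : ∀ m, m = 0 ∨ m = 2 ∨ m = 4 → sufOK j (sX m) (G.gX m) = true
  hN : ∀ m, m = 2 ∨ m = 4 → sufOK j (sN m) (G.gN m) = true

/-- the check of all starts of a class -/
def sufAll {T : ℕ} {lo hi : ℕ → ℕ} (G : Grps T lo hi) (j a b c d e : ℕ) : Bool :=
  sufOK j a (G.gX 0) && (sufOK j b (G.gX 2) && (sufOK j c (G.gX 4) && (sufOK j d (G.gN 2) &&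
    sufOK j e (G.gN 4))))

/-- the starts from five numbers -/
def mkS {T : ℕ} {lo hi : ℕ → ℕ} (G : Grps T lo hi) (j a b c d e : ℕ)
    (h : sufAll G j a b c d e = true) : SufG G j where
  sX := fun m => bif Nat.beq m 0 then a else bif Nat.beq m 2 then b else c
  sN := fun m => bif Nat.beq m 2 then d else e
  hX := by
    unfold sufAll at h
    simp only [Bool.and_eq_true] at h
    intro m hm
    rcases hm with rfl | rfl | rfl
    · exact h.1
    · exact h.2.1
    · exact h.2.2.1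
  hN := by
    unfold sufAll at h
    simp only [Bool.and_eq_true] at h
    intro m hm
    rcases hm with rfl | rfl
    · exact h.2.2.2.1
    · exact h.2.2.2.2

/-- the data of one frame: code, words of the two sides, chains of words -/
structure FrX where
  f : ℕ
  wy : ℕ
  ny : ℕ
  wz : ℕ
  nz : ℕ
  wsy : List (ℕ × ℕ)
  wsz : List (ℕ × ℕ)

/-! ### the check of the frame data -/

/-- helper79's `frameChk` with literals for the cubes of the types -/
noncomputable def frameChkL (C Cy wy ny Cz wz nz : ℕ) : Bool :=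
  okW 11 wy ny && (okW 11 wz nz &&
    (Nat.beq (Nat.mod (runC 2048 ny wy Cy) (2 ^ 2048)) (Nat.shiftRight C 2048) &&
    Nat.beq (Nat.mod (runC 2048 nz wz Cz) (2 ^ 2048))
      (Nat.shiftRight (Nat.mod (cstep 4096 d1011 C) (2 ^ 4096)) 2048)))

theorem frameChkL_sound {f Ty Tz Cy Cz wy ny wz nz : ℕ} (hy : Cy = cub 11 (fam 11 3 Ty))
    (hz : Cz = cub 11 (fam 11 3 Tz))
    (h : frameChkL (cub 12 (fam 12 4 f)) Cy wy ny Cz wz nz = true) :
    FrameD f Ty Tz (wpc (prs wy ny)) (wpc (prs wz nz)) := by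
  refine frameChk_sound ?_
  rw [cub_fam (by norm_num)] at hy hz h
  rw [hy, hz] at h
  exact h

section
variable {lo hi : ℕ → ℕ}

/-- the check of the data of a frame -/
noncomputable def frmChk (tY tZ : Typ lo hi) (F : FrX) : Bool :=
  Nat.blt F.f (2 ^ 495) && (frc (cub4 F.f) (fun C => frameChkL C tY.C F.wy F.ny tZ.C F.wz F.nz) &&
    (chkW F.wy F.ny tY.as F.wsy && chkW F.wz F.nz tZ.as F.wsz))

/-! ### the lists -/

variable {j : ℕ}

noncomputable def rX (tY : Typ lo hi) (sY : SufG tY.G j) (F : FrX) (m : ℕ) : List ℕ :=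
  cg jnk F.wsy (tY.G.rowX jnk m (sY.sX m))

noncomputable def rF (tY : Typ lo hi) (sY : SufG tY.G j) (F : FrX) (m : ℕ) : List ℕ :=
  cg jnk F.wsy (appL (tY.G.rowX jnk m (sY.sX m)) (tY.G.rowN jnk m (sY.sN m)))

noncomputable def cX (tZ : Typ lo hi) (sZ : SufG tZ.G j) (F : FrX) (m : ℕ) : List ℕ :=
  cg 0 F.wsz (tZ.G.colX m (sZ.sX m))

noncomputable def cF (tZ : Typ lo hi) (sZ : SufG tZ.G j) (F : FrX) (m : ℕ) : List ℕ :=
  cg 0 F.wsz (appL (tZ.G.colX m (sZ.sX m)) (tZ.G.colN m (sZ.sN m)))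

/-- **the frame from its nine blocks** -/
theorem frameX_of_blk {reps : List ℕ} {mx : ℕ} {tY tZ : Typ lo hi} {sY : SufG tY.G j}
    {sZ : SufG tZ.G j} {F : FrX} (hY : tY.Tab reps) (hZ : tZ.Tab reps) (hs : SizeOK reps lo hi) (hmx : MxOK lo hi j mx) (hc : frmChk tY tZ F = true)
    (h : ∀ b < 9, Blk mx (rX tY sY F) (rF tY sY F) (cX tZ sZ F) (cF tZ sZ F) 128 F.f b) :
    FrameF reps j F.f := by
  unfold frmChk at hc
  rw [Bool.and_eq_true, Bool.and_eq_true, Bool.and_eq_true, Nat.blt_eq, frc_eq] at hc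
  obtain ⟨h1, h2, h3, h4⟩ := hc
  rw [cub4_eq h1] at h2
  have hd := frameChkL_sound tY.hC tZ.hC h2
  have hwy := wsOK_of_chkW h3 tY.hL tY.hA
  have hwz := wsOK_of_chkW h4 tZ.hL tZ.hA
  exact frameF_of_blk hd hY.tab hY.tabX hZ.tab hZ.tabX hs hmx
    (fun m hm => tY.G.inX_row hm jnk_lt (sY.hX m hm) hwy jnk)
    (fun m hm => tY.G.inF_rowC hm jnk_lt (sY.hX m (by omega)) (sY.hN m hm) hwy jnk)
    (fun m hm => tZ.G.inX_col hm (sZ.hX m hm) hwz 0)
    (fun m hm => tZ.G.inF_colC hm (sZ.hX m (by omega)) (sZ.hN m hm) hwz 0) h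

/-! ### slices of rows -/

/-- the chunks from `a` on -/
def drp : ℕ → List ℕ → List ℕ :=
  @Nat.rec (fun _ => List ℕ → List ℕ) (fun l => l)
    (fun _ ih l => @List.rec ℕ (fun _ => List ℕ) [] (fun _ t _ => ih t) l)

/-- the first `k` chunks -/
def tke : ℕ → List ℕ → List ℕ :=
  @Nat.rec (fun _ => List ℕ → List ℕ) (fun _ => [])
    (fun _ ih l => @List.rec ℕ (fun _ => List ℕ) [] (fun x t _ => x :: ih t) l)

theorem tke_drp : ∀ (k : ℕ) (l : List ℕ), tke k l ++ drp k l = l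
  | 0, _ => rfl
  | _ + 1, [] => rfl
  | k + 1, x :: l => by
    show x :: (tke k l ++ drp k l) = _
    rw [tke_drp k l]

theorem drp_add : ∀ (a k : ℕ) (l : List ℕ), drp (a + k) l = drp k (drp a l)
  | 0, k, l => by rw [Nat.zero_add]; rfl
  | a + 1, k, [] => by
    rw [show a + 1 + k = (a + k) + 1 by omega]
    show [] = drp k []
    cases k <;> rfl
  | a + 1, k, x :: l => by
    rw [show a + 1 + k = (a + k) + 1 by omega]
    show drp (a + k) l = drp k (drp a l)
    exact drp_add a k l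

/-- `k` chunks from `a` on, all of them for `k = 0` -/
def slc (a k : ℕ) (l : List ℕ) : List ℕ :=
  @Nat.rec (fun _ => List ℕ → List ℕ) (fun l => l) (fun k' _ l => tke (Nat.succ k') l) k (drp a l)

theorem slc_zero (a : ℕ) (l : List ℕ) : slc a 0 l = drp a l := rfl

theorem slc_pos {k : ℕ} (hk : 0 < k) (a : ℕ) (l : List ℕ) : slc a k l = tke k (drp a l) := by
  obtain ⟨k', rfl⟩ := Nat.exists_eq_succ_of_ne_zero (by omega : k ≠ 0)
  rfl

theorem slc_append {k : ℕ} (hk : 0 < k) (a : ℕ) (l : List ℕ) :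
    slc a k l ++ slc (a + k) 0 l = slc a 0 l := by
  rw [slc_pos hk, slc_zero, slc_zero, drp_add, tke_drp]

/-- the statement of the block `b` on a slice of the rows -/
def BlkS (mx : ℕ) (X F X' F' : ℕ → List ℕ) (f a k b : ℕ) : Prop :=
  Blk mx (fun m => slc a k (X m)) (fun m => slc a k (F m)) X' F' 128 f b

theorem blkS_join {mx : ℕ} {X F X' F' : ℕ → List ℕ} {f a k b : ℕ} (hk : 0 < k)
    (h1 : BlkS mx X F X' F' f a k b) (h2 : BlkS mx X F X' F' f (a + k) 0 b) :
    BlkS mx X F X' F' f a 0 b := by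
  unfold BlkS at h1 h2 ⊢
  rcases b with _ | _ | _ | _ | _ | _ | _ | _ | _ | b
  all_goals first
    | trivial
    | (simp only [Blk] at h1 h2 ⊢
       rw [← slc_append hk]
       exact join_append_left h1 h2)

theorem blk_of_blkS {mx : ℕ} {X F X' F' : ℕ → List ℕ} {f b : ℕ}
    (h : BlkS mx X F X' F' f 0 0 b) : Blk mx X F X' F' 128 f b := h

/-! ### the run -/

/-- `f` if the list is not empty, else nothing to do -/
def ifNE (l : List ℕ) (f : Cb) : Cb := fun s k =>
  @List.rec ℕ (fun _ => Bool) (k s) (fun _ _ _ => f s k) l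

/-- the engine on lists of literals; nothing is evaluated if one list is empty -/
def engF (eng : ℕ → ℕ → List ℕ → List ℕ → Cb) (c t : ℕ) (ys zs : List ℕ) : Cb :=
  ifNE ys <| ifNE zs fun s k => frcL ys fun ys' => frcL zs fun zs' => eng c t ys' zs' s k

theorem acc_ifNE {P : Prop} {l : List ℕ} {f : Cb} (h : Acc P f) (h0 : l = [] → P) :
    Acc P (ifNE l f) := by
  intro s k hs
  cases l with
  | nil => exact ⟨h0 rfl, s, hs⟩
  | cons a l => exact h s k hs

theorem join_nil_left {n : ℕ} {D : ℕ → ℕ → Prop} (zs : List ℕ) : Join n D [] zs := by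
  rintro u ⟨X, hX, _⟩
  exact absurd hX List.not_mem_nil

theorem join_nil_right {n : ℕ} {D : ℕ → ℕ → Prop} (ys : List ℕ) : Join n D ys [] := by
  rintro u _ v ⟨X, hX, _⟩
  exact absurd hX List.not_mem_nil

theorem acc_engF {eng : ℕ → ℕ → List ℕ → List ℕ → Cb} {c t : ℕ} {ys zs : List ℕ}
    {n : ℕ} {D : ℕ → ℕ → Prop} (h : Acc (Join n D ys zs) (eng c t ys zs)) :
    Acc (Join n D ys zs) (engF eng c t ys zs) := by
  refine acc_ifNE (acc_ifNE ?_ ?_) ?_
  · intro s k hs
    have hs' : (frcL ys fun ys' => frcL zs fun zs' => eng c t ys' zs' s k) = true := hs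
    rw [frcL_eq, frcL_eq] at hs'
    exact h s k hs'
  · rintro rfl
    exact join_nil_right ys
  · rintro rfl
    exact join_nil_left zs

/-- blocks `b` of `mask` on the row chunks `a, .., a + k - 1`; `rc f` is the number of the root
(layered cube), `eng (rc f) c t` the engine -/
noncomputable def runX (rc : ℕ → ℕ) (eng : ℕ → ℕ → ℕ → List ℕ → List ℕ → Cb)
    (tY tZ : Typ lo hi) (sY : SufG tY.G j) (sZ : SufG tZ.G j) (mx : ℕ) (F : FrX)
    (mask a k : ℕ) : Cb := fun s c =>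
  frc (rc F.f) fun C => runBlk (engF (eng C)) mx (fun m => slc a k (rX tY sY F m))
    (fun m => slc a k (rF tY sY F m)) (cX tZ sZ F) (cF tZ sZ F) mask s c

/-- the law of the engine -/
def EngOK (rc : ℕ → ℕ) (eng : ℕ → ℕ → ℕ → List ℕ → List ℕ → Cb) : Prop :=
  ∀ f, f < 2 ^ 495 → ∀ c t ys zs, Acc (Join 128 (LaneDead (StarCtx f c t 0)) ys zs)
    (eng (rc f) c t ys zs)

/-- the statement of a run -/
def RunS (tY tZ : Typ lo hi) (sY : SufG tY.G j) (sZ : SufG tZ.G j) (mx : ℕ) (F : FrX)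
    (mask a k : ℕ) : Prop :=
  F.f < 2 ^ 495 → ∀ b < 9, mask.testBit b = true →
    BlkS mx (rX tY sY F) (rF tY sY F) (cX tZ sZ F) (cF tZ sZ F) F.f a k b

theorem acc_runX {rc : ℕ → ℕ} {eng : ℕ → ℕ → ℕ → List ℕ → List ℕ → Cb} (he : EngOK rc eng)
    (tY tZ : Typ lo hi) (sY : SufG tY.G j) (sZ : SufG tZ.G j) (mx : ℕ) (F : FrX)
    (mask a k : ℕ) (hf : F.f < 2 ^ 495) :
    Acc (∀ b < 9, mask.testBit b = true →
      BlkS mx (rX tY sY F) (rF tY sY F) (cX tZ sZ F) (cF tZ sZ F) F.f a k b)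
      (runX rc eng tY tZ sY sZ mx F mask a k) := by
  unfold runX
  refine acc_frc (f := fun C => runBlk (engF (eng C)) mx (fun m => slc a k (rX tY sY F m))
    (fun m => slc a k (rF tY sY F m)) (cX tZ sZ F) (cF tZ sZ F) mask) (rc F.f) ?_
  refine acc_runBlk (n := 128) (f := F.f) (engF (eng (rc F.f))) mx
    (fun m => slc a k (rX tY sY F m)) (fun m => slc a k (rF tY sY F m)) (cX tZ sZ F)
    (cF tZ sZ F) ?_ mask
  intro c t ys zs
  exact acc_engF (he F.f hf c t ys zs)

theorem runS_of {rc : ℕ → ℕ} {eng : ℕ → ℕ → ℕ → List ℕ → List ℕ → Cb} (he : EngOK rc eng)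
    {tY tZ : Typ lo hi} {sY : SufG tY.G j} {sZ : SufG tZ.G j} {mx : ℕ} {F : FrX}
    {mask a k s : ℕ}
    (h : runX rc eng tY tZ sY sZ mx F mask a k s (fun _ => true) = true) :
    RunS tY tZ sY sZ mx F mask a k := fun hf =>
  (acc_runX he tY tZ sY sZ mx F mask a k hf s _ h).1

/-- all runs `(mask, a, k)` of a list -/
def Runs (tY tZ : Typ lo hi) (sY : SufG tY.G j) (sZ : SufG tZ.G j) (mx : ℕ) (F : FrX) :
    List (ℕ × ℕ × ℕ) → Prop
  | [] => True
  | r :: rs => RunS tY tZ sY sZ mx F r.1 r.2.1 r.2.2 ∧ Runs tY tZ sY sZ mx F rs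

theorem Runs.append {tY tZ : Typ lo hi} {sY : SufG tY.G j} {sZ : SufG tZ.G j} {mx : ℕ}
    {F : FrX} : ∀ {rs rs' : List (ℕ × ℕ × ℕ)}, Runs tY tZ sY sZ mx F rs →
      Runs tY tZ sY sZ mx F rs' → Runs tY tZ sY sZ mx F (rs ++ rs')
  | [], _, _, h' => h'
  | _ :: _, _, h, h' => ⟨h.1, Runs.append h.2 h'⟩

/-- several runs with one stream; the state is evaluated after each run -/
noncomputable def runL (rc : ℕ → ℕ) (eng : ℕ → ℕ → ℕ → List ℕ → List ℕ → Cb)
    (tY tZ : Typ lo hi) (sY : SufG tY.G j) (sZ : SufG tZ.G j) (mx : ℕ) (F : FrX)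
    (rs : List (ℕ × ℕ × ℕ)) : Cb :=
  loopL (fun r => runX rc eng tY tZ sY sZ mx F r.1 r.2.1 r.2.2) rs

theorem runs_iff {tY tZ : Typ lo hi} {sY : SufG tY.G j} {sZ : SufG tZ.G j} {mx : ℕ}
    {F : FrX} {rs : List (ℕ × ℕ × ℕ)} (h : ∀ r ∈ rs, RunS tY tZ sY sZ mx F r.1 r.2.1 r.2.2) :
    Runs tY tZ sY sZ mx F rs := by
  induction rs with
  | nil => trivial
  | cons r rs ih =>
    exact ⟨h r List.mem_cons_self, ih fun r' hr' => h r' (List.mem_cons_of_mem _ hr')⟩

/-- the check of several runs, stream `s` -/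
noncomputable def chkL (rc : ℕ → ℕ) (eng : ℕ → ℕ → ℕ → List ℕ → List ℕ → Cb)
    (tY tZ : Typ lo hi) (sY : SufG tY.G j) (sZ : SufG tZ.G j) (mx : ℕ) (F : FrX)
    (rs : List (ℕ × ℕ × ℕ)) (s : ℕ) : Bool :=
  runL rc eng tY tZ sY sZ mx F rs s fun _ => true

theorem runs_of {rc : ℕ → ℕ} {eng : ℕ → ℕ → ℕ → List ℕ → List ℕ → Cb} (he : EngOK rc eng)
    {tY tZ : Typ lo hi} {sY : SufG tY.G j} {sZ : SufG tZ.G j} {mx : ℕ} {F : FrX}
    {rs : List (ℕ × ℕ × ℕ)} {s : ℕ} (h : chkL rc eng tY tZ sY sZ mx F rs s = true) :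
    Runs tY tZ sY sZ mx F rs := by
  refine runs_iff fun r hr hf => ?_
  have h1 := acc_loopL (l := rs)
    (P := fun r : ℕ × ℕ × ℕ => ∀ b < 9, r.1.testBit b = true →
      BlkS mx (rX tY sY F) (rF tY sY F) (cX tZ sZ F) (cF tZ sZ F) F.f r.2.1 r.2.2 b)
    (f := fun r : ℕ × ℕ × ℕ => runX rc eng tY tZ sY sZ mx F r.1 r.2.1 r.2.2) (fun r _ =>
      acc_runX he tY tZ sY sZ mx F r.1 r.2.1 r.2.2 hf) s (fun _ => true) h
  exact h1.1 r hr

/-- the runs of the block `b` cover all rows from `p` on -/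
def cov (b : ℕ) : List (ℕ × ℕ × ℕ) → ℕ → Bool
  | [], _ => false
  | r :: rs, p => bif Nat.testBit r.1 b && Nat.beq r.2.1 p then
      (bif Nat.beq r.2.2 0 then true else cov b rs (p + r.2.2)) else cov b rs p

theorem cov_spec {tY tZ : Typ lo hi} {sY : SufG tY.G j} {sZ : SufG tZ.G j} {mx : ℕ}
    {F : FrX} (hf : F.f < 2 ^ 495) {b : ℕ} (hb : b < 9) : ∀ {rs : List (ℕ × ℕ × ℕ)} {p : ℕ},
      Runs tY tZ sY sZ mx F rs → cov b rs p = true →
      BlkS mx (rX tY sY F) (rF tY sY F) (cX tZ sZ F) (cF tZ sZ F) F.f p 0 b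
  | [], _, _, h => absurd h Bool.false_ne_true
  | r :: rs, p, hr, h => by
    have h' : (bif Nat.testBit r.1 b && Nat.beq r.2.1 p then
      (bif Nat.beq r.2.2 0 then true else cov b rs (p + r.2.2)) else cov b rs p) = true := h
    by_cases h1 : (Nat.testBit r.1 b && Nat.beq r.2.1 p) = true
    · rw [h1, cond_true] at h'
      rw [Bool.and_eq_true, Nat.beq_eq] at h1
      have h2 := hr.1 hf b hb h1.1
      rw [h1.2] at h2
      by_cases h3 : r.2.2 = 0
      · rw [h3] at h2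
        exact h2
      · have h4 : Nat.beq r.2.2 0 = false := by
          rw [Bool.eq_false_iff, Ne, Nat.beq_eq]
          exact h3
        rw [h4, cond_false] at h'
        exact blkS_join (Nat.pos_of_ne_zero h3) h2 (cov_spec hf hb hr.2 h')
    · rw [Bool.not_eq_true] at h1
      rw [h1, cond_false] at h'
      exact cov_spec hf hb hr.2 h'

/-- every block is covered -/
def covAll (rs : List (ℕ × ℕ × ℕ)) : Bool :=
  cov 0 rs 0 && (cov 1 rs 0 && (cov 2 rs 0 && (cov 3 rs 0 && (cov 4 rs 0 && (cov 5 rs 0 &&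
    (cov 6 rs 0 && (cov 7 rs 0 && cov 8 rs 0)))))))

/-- **the frame from its runs** -/
theorem frameX_of_runs {reps : List ℕ} {mx : ℕ} {tY tZ : Typ lo hi} {sY : SufG tY.G j}
    {sZ : SufG tZ.G j} {F : FrX} (hY : tY.Tab reps) (hZ : tZ.Tab reps) (hs : SizeOK reps lo hi) (hmx : MxOK lo hi j mx) (hc : frmChk tY tZ F = true)
    {rs : List (ℕ × ℕ × ℕ)} (hr : Runs tY tZ sY sZ mx F rs) (hv : covAll rs = true) :
    FrameF reps j F.f := by
  have hf : F.f < 2 ^ 495 := by
    unfold frmChk at hc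
    rw [Bool.and_eq_true, Nat.blt_eq] at hc
    exact hc.1
  unfold covAll at hv
  simp only [Bool.and_eq_true] at hv
  obtain ⟨h0, h1, h2, h3, h4, h5, h6, h7, h8⟩ := hv
  refine frameX_of_blk (sY := sY) (sZ := sZ) hY hZ hs hmx hc fun b hb => blk_of_blkS ?_
  match b, hb with
  | 0, _ => exact cov_spec hf (by norm_num) hr h0
  | 1, _ => exact cov_spec hf (by norm_num) hr h1
  | 2, _ => exact cov_spec hf (by norm_num) hr h2
  | 3, _ => exact cov_spec hf (by norm_num) hr h3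
  | 4, _ => exact cov_spec hf (by norm_num) hr h4
  | 5, _ => exact cov_spec hf (by norm_num) hr h5
  | 6, _ => exact cov_spec hf (by norm_num) hr h6
  | 7, _ => exact cov_spec hf (by norm_num) hr h7
  | 8, _ => exact cov_spec hf (by norm_num) hr h8
  | n + 9, h => omega

end

/-! ### the excess of a class -/

/-- the excess of the class `j` of helper79's list -/
def mxF (j : ℕ) : ℕ := bif Nat.blt j 13 then 0 else bif Nat.blt j 39 then 2 else 4

theorem mxOK_F (j : ℕ) : MxOK loF hiF j (mxF j) := by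
  have e0 : loF 0 = 0 := rfl
  have e1 : hiF 0 = 13 := rfl
  have e2 : loF 2 = 13 := rfl
  have e3 : hiF 2 = 39 := rfl
  have e4 : loF 4 = 39 := rfl
  intro m hm h1 h2
  unfold mxF
  rcases hm with rfl | rfl | rfl
  · rw [e1] at h2
    have h3 : Nat.blt j 13 = true := by
      rw [Nat.blt_eq]
      exact h2
    rw [h3, cond_true]
  · rw [e2] at h1
    rw [e3] at h2
    have h3 : Nat.blt j 13 = false := by
      rw [Bool.eq_false_iff, Ne, Nat.blt_eq]
      omega
    have h4 : Nat.blt j 39 = true := by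
      rw [Nat.blt_eq]
      exact h2
    rw [h3, cond_false, h4, cond_true]
  · rw [e4] at h1
    have h3 : Nat.blt j 13 = false := by
      rw [Bool.eq_false_iff, Ne, Nat.blt_eq]
      omega
    have h4 : Nat.blt j 39 = false := by
      rw [Bool.eq_false_iff, Ne, Nat.blt_eq]
      omega
    rw [h3, cond_false, h4, cond_false]

end Pool.Agent.Helper20.TY
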