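import Pool.Agent.Helper20.TY.FTop
import Pool.Agent.Gen.TY.FT.Fin

/-!
MP_8ee768_co, project TH-Y', stage F: helper44's tables are the groups of `GrpA`, `GrpB`.
-/

set_option autoImplicit false
set_option maxRecDepth 100000

namespace Pool.Agent.Helper20.TY

open Finset
open Pool.Agent.Helper79.CV
open Pool.Agent.Helper67.TY (repA repB autA autB)
open Pool.Agent.Gen.TY.FC
open Pool.Agent.Gen.TY.FT

/-- the list only matters as a set -/
theorem TabA.mono_list {reps : List ℕ} {T cap : ℕ} {P : Fam → Fin 13 → Prop}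
    {A : Set (Equiv.Perm (Fin 13))} {l l' : List (ℕ × ℕ)} (h : TabA reps T cap P A l)
    (hl : ∀ k e, (k, e) ∈ l → (k, e) ∈ l') : TabA reps T cap P A l' := by
  intro D h1 h2 h3 h4
  obtain ⟨k, e, h5, h6⟩ := h D h1 h2 h3 h4
  exact ⟨k, e, hl k e h5, h6⟩

/-- the same list, as a kernel check -/
def eqL : List (ℕ × ℕ) → List (ℕ × ℕ) → Bool
  | [], [] => true
  | [], _ :: _ => false
  | _ :: _, [] => false
  | a :: l, b :: l' => Nat.beq a.1 b.1 && (Nat.beq a.2 b.2 && eqL l l')

theorem eqL_spec : ∀ {l l' : List (ℕ × ℕ)}, eqL l l' = true → l = l'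
  | [], [], _ => rfl
  | [], _ :: _, h => absurd h Bool.false_ne_true
  | _ :: _, [], h => absurd h Bool.false_ne_true
  | a :: l, b :: l', h => by
    have h' : (Nat.beq a.1 b.1 && (Nat.beq a.2 b.2 && eqL l l')) = true := h
    rw [Bool.and_eq_true, Bool.and_eq_true, Nat.beq_eq, Nat.beq_eq] at h'
    rw [eqL_spec h'.2.2, Prod.ext h'.1 h'.2.1]

theorem lxA_eq : lxA = GrpA.lx := eqL_spec (by decide +kernel)

theorem lyA_eq : lyA = gAN2 ++ gAN4 := eqL_spec (by decide +kernel)

theorem lxB_eq : lxB = GrpB.lx := eqL_spec (by decide +kernel)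

theorem lyB_eq : lyB = gBN2 ++ gBN4 := eqL_spec (by decide +kernel)

/-- **the tables of stage F are complete** -/
theorem tabsF_of (hC : ClsOK 4 repsF) : TabsF := by
  refine ⟨tab_A ?_ ?_, tab_B ?_ ?_⟩
  · refine TabA.mono_list (tabA_F hC) fun k e h => ?_
    rw [mem_lA, lxA_eq, lyA_eq, lx_A] at h
    rw [l_A]
    simp only [List.mem_append] at h ⊢
    tauto
  · rw [← lxA_eq]
    exact tabAx_F hC
  · refine TabA.mono_list (tabB_F hC) fun k e h => ?_
    rw [mem_lB, lxB_eq, lyB_eq, lx_B] at h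
    rw [l_B]
    simp only [List.mem_append] at h ⊢
    tauto
  · rw [← lxB_eq]
    exact tabBx_F hC

end Pool.Agent.Helper20.TY
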