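import Pool.Agent.Helper20.TY.ChunkF

/-!
MP_8ee768_co, project TH-Y', stage F: two consecutive chunks of `n` lanes become one of `2 n` lanes.

`glue n l`, `lanes_glue`; the bound `X < 2 ^ (2048 n)` is preserved by words of exchanges
(`runC_lt`), so it holds for the relabelled lists if it holds for the literals (`relab_lt`).
`glueW` is the forced form.
-/

set_option autoImplicit false

namespace Pool.Agent.Helper20.TY

open Finset
open Pool.Agent.Helper63.SIMD
open Pool.Agent.Helper91.TY (runC okW prs wpc fld_runC cstep cswap ib ib_lt testBit_ib dig8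
  testBit_dswap sidx_add sidx_testBit sidx)
open Pool.Agent.Helper74.TY (frc frc_eq)

/-! ### words keep the bound -/

theorem testBit_cswap_ge {K i j : ℕ} (hij : i < j) (hK : 2 ^ (j + 1) ∣ K) (X g : ℕ)
    (hg : K ≤ g) : (cswap i j (ib K i) (ib K j) X).testBit g = X.testBit g := by
  have hKi : 2 ^ (i + 1) ∣ K := dvd_trans (pow_dvd_pow 2 (by omega)) hK
  have hM : ∀ t, (Nat.land (ib K i) (Nat.xor (ib K i) (ib K j))).testBit t =
      (decide (t < K) && (t.testBit i && !t.testBit j)) := by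
    intro t
    have e : Nat.land (ib K i) (Nat.xor (ib K i) (ib K j)) =
      (ib K i) &&& ((ib K i) ^^^ (ib K j)) := rfl
    rw [e, Nat.testBit_and, Nat.testBit_xor, testBit_ib hKi, testBit_ib hK]
    cases decide (t < K) <;> cases t.testBit i <;> cases t.testBit j <;> rfl
  have hs : ∀ t, t.testBit i = true → t.testBit j = false →
      (t + (2 ^ j - 2 ^ i)).testBit i = false ∧ (t + (2 ^ j - 2 ^ i)).testBit j = true ∧
        t + (2 ^ j - 2 ^ i) = sidx i j t := by
    intro t h1 h2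
    refine ⟨?_, ?_, sidx_add hij h1 h2⟩
    · rw [sidx_add hij h1 h2, sidx_testBit, if_pos rfl, h2]
    · rw [sidx_add hij h1 h2, sidx_testBit, if_neg (by omega : j ≠ i), if_pos rfl, h1]
  unfold cswap
  have hsub : Nat.sub (Nat.pow 2 j) (Nat.pow 2 i) = 2 ^ j - 2 ^ i := rfl
  rw [hsub, testBit_dswap]
  · rw [hM, decide_eq_false (by omega : ¬ g < K)]
    simp only [Bool.false_and, Bool.false_eq_true, if_false]
    rw [if_neg]
    rintro ⟨h3, h4⟩
    rw [hM, Bool.and_eq_true, Bool.and_eq_true, Bool.not_eq_true', decide_eq_true_eq] at h4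
    -- the target of a bit below `K` is below `K`
    have h5 := (hs _ h4.2.1 h4.2.2).2.1
    rw [Nat.sub_add_cancel h3] at h5
    obtain ⟨q, hq⟩ := hK
    have h6 : g - (2 ^ j - 2 ^ i) < 2 ^ (j + 1) * q := by
      rw [← hq]
      exact h4.1
    have h7 : g < 2 ^ (j + 1) * q := by
      have h8 := Nat.div_add_mod (g - (2 ^ j - 2 ^ i)) (2 ^ (j + 1))
      have h9 : (g - (2 ^ j - 2 ^ i)) / 2 ^ (j + 1) < q := Nat.div_lt_of_lt_mul h6
      have h10 : (g - (2 ^ j - 2 ^ i)) % 2 ^ (j + 1) < 2 ^ j := by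
        have h11 := h4.2.2
        rw [Pool.Agent.Helper91.TY.testBit_eq_mod, decide_eq_false_iff_not] at h11
        omega
      have h12 : 2 ^ (j + 1) * ((g - (2 ^ j - 2 ^ i)) / 2 ^ (j + 1) + 1) ≤ 2 ^ (j + 1) * q :=
        Nat.mul_le_mul_left _ h9
      have h13 : 2 ^ (j + 1) = 2 ^ j + 2 ^ j := by rw [pow_succ]; ring
      rw [Nat.mul_add, Nat.mul_one] at h12
      omega
    omega
  · intro t ht
    rw [hM, Bool.and_eq_true, Bool.and_eq_true, Bool.not_eq_true'] at ht
    rw [hM, (hs t ht.2.1 ht.2.2).1]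
    simp

theorem cswap_lt {K i j X : ℕ} (hij : i < j) (hK : 2 ^ (j + 1) ∣ K) (hX : X < 2 ^ K) :
    cswap i j (ib K i) (ib K j) X < 2 ^ K := by
  refine Nat.lt_pow_two_of_testBit _ fun g hg => ?_
  rw [testBit_cswap_ge hij hK X g hg]
  exact Nat.testBit_lt_two_pow (lt_of_lt_of_le hX (Nat.pow_le_pow_right (by norm_num) hg))

theorem runC_lt {n N w : ℕ} {X : ℕ} (hX : X < 2 ^ (2 ^ n * N)) : ∀ {len : ℕ},
    okW n w len = true → runC (2 ^ n * N) len w X < 2 ^ (2 ^ n * N)
  | 0, _ => hX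
  | len + 1, hw => by
    have h' : (okW n w len && (Nat.blt (dig8 w len % 16) (dig8 w len / 16) &&
      (Nat.blt (dig8 w len / 16) n && Nat.blt (dig8 w len / 16) 13))) = true := hw
    rw [Bool.and_eq_true, Bool.and_eq_true, Bool.and_eq_true, Nat.blt_eq, Nat.blt_eq,
      Nat.blt_eq] at h'
    obtain ⟨h1, h2, h3, h4⟩ := h'
    have e0 : runC (2 ^ n * N) (len + 1) w X =
        Pool.Agent.Helper91.TY.frc (fun d => cstep (2 ^ n * N) d (runC (2 ^ n * N) len w X))
          (dig8 w len) := rfl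
    have h3' : Nat.div (dig8 w len) 16 < n := h3
    rw [e0, Pool.Agent.Helper91.TY.frc_eq]
    exact cswap_lt h2 (dvd_mul_of_dvd_left (pow_dvd_pow 2 (Nat.succ_le_of_lt h3')) _)
      (runC_lt hX h1)

/-! ### bounds of the lists -/

/-- all chunks have at most `n` lanes -/
def Bnd (n : ℕ) (cs : List ℕ) : Prop := ∀ X ∈ cs, X < 2 ^ (2048 * n)

def bndOK (n : ℕ) (cs : List ℕ) : Bool := cs.all fun X => Nat.blt X (Nat.pow 2 (Nat.mul 2048 n))

theorem bndOK_spec {n : ℕ} {cs : List ℕ} (h : bndOK n cs = true) : Bnd n cs := by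
  intro X hX
  unfold bndOK at h
  rw [List.all_eq_true] at h
  have h1 := h X hX
  rw [Nat.blt_eq] at h1
  exact h1

theorem Bnd.append {n : ℕ} {cs cs' : List ℕ} (h : Bnd n cs) (h' : Bnd n cs') :
    Bnd n (cs ++ cs') := by
  intro X hX
  rcases List.mem_append.1 hX with h1 | h1
  · exact h X h1
  · exact h' X h1

theorem Bnd.drop {n : ℕ} {cs : List ℕ} (h : Bnd n cs) (k : ℕ) : Bnd n (cs.drop k) :=
  fun X hX => h X (List.mem_of_mem_drop hX)

theorem Bnd.onHead {n : ℕ} {f : ℕ → ℕ} (hf : ∀ X, X < 2 ^ (2048 * n) → f X < 2 ^ (2048 * n))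
    {cs : List ℕ} (h : Bnd n cs) : Bnd n (onHead f cs) := by
  cases cs with
  | nil => exact h
  | cons a cs =>
    intro X hX
    have hX' : X ∈ f a :: cs := hX
    rcases List.mem_cons.1 hX' with rfl | h1
    · exact hf a (h a List.mem_cons_self)
    · exact h X (List.mem_cons_of_mem _ h1)

theorem clrLo_lt {r n X : ℕ} (hX : X < 2 ^ (2048 * n)) : clrLo r X < 2 ^ (2048 * n) := by
  refine lt_of_le_of_lt ?_ hX
  show (X >>> (2048 * r)) <<< (2048 * r) ≤ X
  rw [Nat.shiftRight_eq_div_pow, Nat.shiftLeft_eq]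
  exact Nat.div_mul_le_self _ _

theorem jnkLo_lt {J r n X : ℕ} (hJ : J < 2 ^ (2048 * n)) (hX : X < 2 ^ (2048 * n)) :
    jnkLo J r X < 2 ^ (2048 * n) := by
  refine Nat.or_lt_two_pow (clrLo_lt hX) (lt_of_le_of_lt ?_ hJ)
  exact Nat.and_le_left

theorem selRowF_lt {J n s : ℕ} (hJ : J < 2 ^ (2048 * n)) {ch : List ℕ} (h : Bnd n ch) :
    Bnd n (selRowF J n s ch) := (h.drop _).onHead fun _ hX => jnkLo_lt hJ hX

theorem selCol_lt {n s : ℕ} {ch : List ℕ} (h : Bnd n ch) : Bnd n (selCol n s ch) :=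
  (h.drop _).onHead fun _ hX => clrLo_lt hX

theorem relab_lt {n K : ℕ} (hK : K = 2 ^ 11 * n) {ws : List (ℕ × ℕ)}
    (hw : ∀ w ∈ ws, okW 11 w.1 w.2 = true) {cs : List ℕ} (h : Bnd n cs) :
    Bnd n (relab K ws cs) := by
  intro X hX
  unfold relab at hX
  rw [List.mem_flatMap] at hX
  obtain ⟨w, hw1, h1⟩ := hX
  rw [List.mem_map] at h1
  obtain ⟨Y, hY, rfl⟩ := h1
  subst hK
  have e : 2048 * n = 2 ^ 11 * n := by norm_num
  rw [e]
  refine runC_lt ?_ (hw w hw1)
  rw [← e]
  exact h Y hY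

/-! ### glue -/

/-- two consecutive chunks of `n` lanes become one -/
def glue (n : ℕ) : List ℕ → List ℕ
  | X :: Y :: l => Nat.lor X (Nat.shiftLeft Y (Nat.mul 2048 n)) :: glue n l
  | [X] => [X]
  | [] => []

theorem fld_glue_lo {n X Y i : ℕ} (hi : i < n) :
    fld 2048 (X ||| (Y <<< (2048 * n))) i = fld 2048 X i := by
  refine Nat.eq_of_testBit_eq fun t => ?_
  rw [testBit_fld', testBit_fld', Nat.testBit_or, Nat.testBit_shiftLeft]
  by_cases ht : t < 2048
  · have h1 : 2048 * (i + 1) ≤ 2048 * n := Nat.mul_le_mul_left _ hi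
    rw [decide_eq_false (by omega : ¬ 2048 * i + t ≥ 2048 * n), Bool.false_and, Bool.or_false]
  · rw [decide_eq_false ht, Bool.and_false, Bool.and_false]

theorem fld_glue_hi {n X Y i : ℕ} (hX : X < 2 ^ (2048 * n)) :
    fld 2048 (X ||| (Y <<< (2048 * n))) (n + i) = fld 2048 Y i := by
  refine Nat.eq_of_testBit_eq fun t => ?_
  rw [testBit_fld', testBit_fld', Nat.testBit_or, Nat.testBit_shiftLeft]
  have h1 : 2048 * n ≤ 2048 * (n + i) + t := by
    have : 2048 * n ≤ 2048 * (n + i) := Nat.mul_le_mul_left _ (Nat.le_add_right _ _)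
    omega
  have h2 : 2048 * (n + i) + t - 2048 * n = 2048 * i + t := by
    rw [Nat.mul_add]
    omega
  rw [Nat.testBit_lt_two_pow (lt_of_lt_of_le hX (Nat.pow_le_pow_right (by norm_num) h1)),
    decide_eq_true h1, h2, Bool.false_or, Bool.true_and]

theorem lanes_cons {n : ℕ} {X : ℕ} {l : List ℕ} {u : ℕ} :
    u ∈ Lanes n (X :: l) ↔ (∃ i < n, u = fld 2048 X i) ∨ u ∈ Lanes n l := by
  constructor
  · rintro ⟨Y, hY, i, hi, h⟩
    rcases List.mem_cons.1 hY with rfl | h1
    · exact Or.inl ⟨i, hi, h⟩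
    · exact Or.inr ⟨Y, h1, i, hi, h⟩
  · rintro (⟨i, hi, h⟩ | ⟨Y, hY, i, hi, h⟩)
    · exact ⟨X, List.mem_cons_self, i, hi, h⟩
    · exact ⟨Y, List.mem_cons_of_mem _ hY, i, hi, h⟩

/-- **the lanes are the lanes of the glued list** -/
theorem lanes_glue {n : ℕ} : ∀ {l : List ℕ}, Bnd n l → Lanes n l ⊆ Lanes (2 * n) (glue n l)
  | [], _ => fun u hu => by
    obtain ⟨X, hX, -⟩ := hu
    exact absurd hX List.not_mem_nil
  | [X], _ => fun u hu => by
    obtain ⟨Y, hY, i, hi, h⟩ := hu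
    exact ⟨Y, hY, i, by omega, h⟩
  | X :: Y :: l, hb => fun u hu => by
    have hX := hb X List.mem_cons_self
    have ih := lanes_glue (l := l) fun Z hZ =>
      hb Z (List.mem_cons_of_mem _ (List.mem_cons_of_mem _ hZ))
    show u ∈ Lanes (2 * n) ((X ||| (Y <<< (2048 * n))) :: glue n l)
    rw [lanes_cons] at hu ⊢
    rcases hu with ⟨i, hi, h⟩ | hu
    · exact Or.inl ⟨i, by omega, by rw [fld_glue_lo hi]; exact h⟩
    · rw [lanes_cons] at hu
      rcases hu with ⟨i, hi, h⟩ | hu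
      · exact Or.inl ⟨n + i, by omega, by rw [fld_glue_hi hX]; exact h⟩
      · exact Or.inr (ih hu)

/-- the forced form: `L = 2048 n`, with a pending chunk -/
def glueR (L : ℕ) (l : List ℕ) : Bool → ℕ → (List ℕ → Bool) → Bool :=
  @List.rec ℕ (fun _ => Bool → ℕ → (List ℕ → Bool) → Bool)
    (fun b X k => @Bool.rec (fun _ => Bool) (k []) (k [X]) b)
    (fun Y _ ih b X k => @Bool.rec (fun _ => Bool) (ih true Y k)
      (frc (Nat.lor X (Nat.shiftLeft Y L)) fun v => ih false 0 fun r => k (v :: r)) b) l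

theorem glueR_eq (n : ℕ) : ∀ (l : List ℕ) (X : ℕ) (k : List ℕ → Bool),
    glueR (2048 * n) l false X k = k (glue n l) ∧
      glueR (2048 * n) l true X k = k (glue n (X :: l))
  | [], X, k => ⟨rfl, rfl⟩
  | Y :: l, X, k => by
    have ih := glueR_eq n l
    constructor
    · show glueR (2048 * n) l true Y k = _
      exact (ih Y k).2
    · show (frc (Nat.lor X (Nat.shiftLeft Y (2048 * n))) fun v =>
        glueR (2048 * n) l false 0 fun r => k (v :: r)) = _
      rw [frc_eq, (ih 0 _).1]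
      rfl

/-- the forced form of `glue` -/
def glueW (L : ℕ) (l : List ℕ) (k : List ℕ → Bool) : Bool := glueR L l false 0 k

theorem glueW_eq {n L : ℕ} (hL : L = 2048 * n) (l : List ℕ) (k : List ℕ → Bool) :
    glueW L l k = k (glue n l) := by
  subst hL
  exact (glueR_eq n l 0 k).1

end Pool.Agent.Helper20.TY
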