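import Pool.Agent.Helper20.TY.Glue
import Pool.Agent.Helper63.TY.Chain

/-!
MP_8ee768_co, project TH-Y', stage F: the groups of a type as one record, and the inclusions needed
by the assembly of a frame: every cube of helper79's `cubesA` in a block `m` is a lane of the chain
of words over the chunks of the groups `X m` (relative list) or `X m`, `N m` (full list), two chunks
of 64 lanes glued to one of 128 (`cg`).
-/

set_option autoImplicit false

namespace Pool.Agent.Helper20.TY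

open Finset
open Pool.Agent.Helper63.SIMD
open Pool.Agent.Helper79.CV
open Pool.Agent.Helper33.CV (cub valL)
open Pool.Agent.Helper91.TY (runC okW prs wpc)
open Pool.Agent.Helper63.TY (chain glu ChainOK chWords chainOK_of_chWords lanes_chain chain_lt
  lanes_glu appL appL_eq)

/-! ### words -/

/-- the words are a chain for `ρ * α`, and every word is well formed -/
structure WsOK (ws : List (ℕ × ℕ)) (ρ : Equiv.Perm (Fin 13)) (A : Set (Equiv.Perm (Fin 13))) :
    Prop where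
  ch : ChainOK ws ρ A
  ok : ∀ x ∈ ws, okW 11 x.1 x.2 = true

/-- all words are well formed -/
noncomputable def okAll (ws : List (ℕ × ℕ)) : Bool :=
  @List.rec (ℕ × ℕ) (fun _ => Bool) true (fun x _ ih => Bool.and (okW 11 x.1 x.2) ih) ws

theorem okAll_spec : ∀ {ws : List (ℕ × ℕ)}, okAll ws = true → ∀ x ∈ ws, okW 11 x.1 x.2 = true
  | [], _, _, hx => absurd hx List.not_mem_nil
  | y :: ws, h, x, hx => by
    have h' : (okW 11 y.1 y.2 && okAll ws) = true := h
    rw [Bool.and_eq_true] at h'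
    rcases List.mem_cons.1 hx with rfl | hx
    · exact h'.1
    · exact okAll_spec h'.2 x hx

/-- the check of the words: `(w, len)` = word of `ρ`, `as` = numbers of the automorphisms -/
noncomputable def chkW (w len : ℕ) (as : List ℕ) (ws : List (ℕ × ℕ)) : Bool :=
  Bool.and (okW 11 w len) (Bool.and (chWords w len idP ws as) (okAll ws))

theorem wsOK_of_chkW {w len : ℕ} {as : List ℕ} {ws : List (ℕ × ℕ)} (h : chkW w len as ws = true)
    {L : List (List ℕ)} (hL : L.map (fun g => numL g 0) = as) {A : Set (Equiv.Perm (Fin 13))}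
    (hA : ∀ α ∈ A, valL α ∈ L) : WsOK ws (wpc (prs w len)) A := by
  have h' : (okW 11 w len && (chWords w len idP ws as && okAll ws)) = true := h
  rw [Bool.and_eq_true, Bool.and_eq_true] at h'
  exact ⟨chainOK_of_chWords h'.1 hL h'.2.1 hA, okAll_spec h'.2.2⟩

/-! ### chain and glue -/

/-- the chunks of 128 lanes: all relabelled copies of the chunks `cs` of 64 lanes -/
noncomputable def cg (J : ℕ) (ws : List (ℕ × ℕ)) (cs : List ℕ) : List ℕ :=
  glu 131072 J (chain 131072 ws cs)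

variable {ρ : Equiv.Perm (Fin 13)} {A : Set (Equiv.Perm (Fin 13))} {ws : List (ℕ × ℕ)}

theorem lanes_cg (hw : WsOK ws ρ A) {cs : List ℕ} (hb : Bnd 64 cs) {α : Equiv.Perm (Fin 13)}
    (hα : α ∈ A) {D : Fam} (h : cub 11 D ∈ Lanes 64 cs) (J : ℕ) :
    cub 11 (mapF (ρ * α) D) ∈ Lanes 128 (cg J ws cs) := by
  have e : (131072 : ℕ) = 2 ^ 11 * 64 := by norm_num
  have h1 : cub 11 (mapF (ρ * α) D) ∈ Lanes 64 (chain 131072 ws cs) :=
    lanes_chain e (hw.ch α hα) h
  have h2 : ∀ X ∈ chain 131072 ws cs, X < 2 ^ (2048 * 64) := by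
    rw [e]
    exact chain_lt hw.ok hb
  exact lanes_glu (n := 64) (by norm_num) h2 h1

section
variable {T J j l₀ h₀ s s' p p' : ℕ} {l g g' : List (ℕ × ℕ)} {ch ch' : List ℕ}

theorem cubesA_rowC (hg : ∀ q ∈ l, l₀ ≤ q.1 → q.1 < h₀ → q ∈ g) (hch : TabF T 64 p g ch)
    (hs : sufOK j s g = true) (hw : WsOK ws ρ A) (hb : Bnd 64 (selRowF J 64 (s + p) ch))
    (J' : ℕ) :
    cubesA T j l₀ h₀ ρ A l ⊆ Lanes 128 (cg J' ws (selRowF J 64 (s + p) ch)) := by
  intro u hu
  obtain ⟨i, hi, h1, α, hα, h2⟩ := cubesA_group hg hu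
  rw [h2]
  refine lanes_cg hw hb hα ?_ J'
  obtain ⟨h4, h5⟩ := hch i hi
  rw [← h5]
  have h6 := sufOK_spec hs hi h1
  exact sel_rowF (by norm_num) (by omega) h4

theorem cubesA_colC (hg : ∀ q ∈ l, l₀ ≤ q.1 → q.1 < h₀ → q ∈ g) (hch : TabF T 64 p g ch)
    (hs : sufOK j s g = true) (hw : WsOK ws ρ A) (hb : Bnd 64 (selCol 64 (s + p) ch))
    (J' : ℕ) :
    cubesA T j l₀ h₀ ρ A l ⊆ Lanes 128 (cg J' ws (selCol 64 (s + p) ch)) := by
  intro u hu
  obtain ⟨i, hi, h1, α, hα, h2⟩ := cubesA_group hg hu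
  rw [h2]
  refine lanes_cg hw hb hα ?_ J'
  obtain ⟨h4, h5⟩ := hch i hi
  rw [← h5]
  have h6 := sufOK_spec hs hi h1
  exact sel_colF (by norm_num) (by omega) h4

end

/-! ### the groups of a type -/

/-- the groups of the type `T`: `X m` = relative entries of excess `m`, `N m` = the others; lists of
(class, code), chunks, padding in front -/
structure Grps (T : ℕ) (lo hi : ℕ → ℕ) where
  gX : ℕ → List (ℕ × ℕ)
  gN : ℕ → List (ℕ × ℕ)
  cX : ℕ → List ℕ
  cN : ℕ → List ℕ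
  pX : ℕ → ℕ
  pN : ℕ → ℕ
  tX : ∀ m, m = 0 ∨ m = 2 ∨ m = 4 → TabF T 64 (pX m) (gX m) (cX m)
  tN : ∀ m, m = 2 ∨ m = 4 → TabF T 64 (pN m) (gN m) (cN m)
  rX : ∀ m, m = 0 ∨ m = 2 ∨ m = 4 → rangeOK (lo m) (hi m) (gX m) = true
  rN : ∀ m, m = 2 ∨ m = 4 → rangeOK (lo m) (hi m) (gN m) = true
  bX : ∀ m, m = 0 ∨ m = 2 ∨ m = 4 → Bnd 64 (cX m)
  bN : ∀ m, m = 2 ∨ m = 4 → Bnd 64 (cN m)
  h02 : hi 0 ≤ lo 2
  h24 : hi 2 ≤ lo 4
  h04 : hi 0 ≤ lo 4

variable {T : ℕ} {lo hi : ℕ → ℕ}

/-- the relative list -/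
def Grps.lx (G : Grps T lo hi) : List (ℕ × ℕ) := G.gX 0 ++ G.gX 2 ++ G.gX 4

/-- the full list -/
def Grps.l (G : Grps T lo hi) : List (ℕ × ℕ) :=
  G.gX 0 ++ G.gX 2 ++ G.gX 4 ++ G.gN 2 ++ G.gN 4

theorem Grps.mem_lx (G : Grps T lo hi) {m : ℕ} (hm : m = 0 ∨ m = 2 ∨ m = 4) {q : ℕ × ℕ}
    (hq : q ∈ G.lx) (h1 : lo m ≤ q.1) (h2 : q.1 < hi m) : q ∈ G.gX m := by
  have h := mem_three (lo := lo) (hi := hi) (G.rX 0 (by omega)) (G.rX 2 (by omega))
    (G.rX 4 (by omega)) G.h02 G.h24 G.h04 hq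
  rcases hm with rfl | rfl | rfl
  · exact h.1 h1 h2
  · exact h.2.1 h1 h2
  · exact h.2.2 h1 h2

theorem Grps.mem_l (G : Grps T lo hi) {m : ℕ} (hm : m = 2 ∨ m = 4) {q : ℕ × ℕ}
    (hq : q ∈ G.l) (h1 : lo m ≤ q.1) (h2 : q.1 < hi m) : q ∈ G.gX m ∨ q ∈ G.gN m := by
  have h02 := G.h02
  have h24 := G.h24
  have h04 := G.h04
  unfold Grps.l at hq
  rw [List.mem_append, List.mem_append] at hq
  rcases hq with (hq | hq) | hq
  · exact Or.inl (G.mem_lx (by omega) hq h1 h2)
  · have h3 := rangeOK_spec (G.rN 2 (by omega)) q hq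
    rcases hm with rfl | rfl
    · exact Or.inr hq
    · exact absurd h3.2 (by omega)
  · have h3 := rangeOK_spec (G.rN 4 (by omega)) q hq
    rcases hm with rfl | rfl
    · exact absurd h3.1 (by omega)
    · exact Or.inr hq

/-- in block 0 the full list has only relative entries -/
theorem Grps.mem_l0 (G : Grps T lo hi) {q : ℕ × ℕ} (hq : q ∈ G.l) (h2 : q.1 < hi 0) :
    q ∈ G.lx := by
  have h02 := G.h02
  have h24 := G.h24
  have h04 := G.h04
  unfold Grps.l at hq
  rw [List.mem_append, List.mem_append] at hq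
  rcases hq with (hq | hq) | hq
  · exact hq
  · have h3 := rangeOK_spec (G.rN 2 (by omega)) q hq
    exact absurd h3.1 (by omega)
  · have h3 := rangeOK_spec (G.rN 4 (by omega)) q hq
    exact absurd h3.1 (by omega)

variable {j s s' J J' : ℕ}

/-- the row chunks of the relative list, `s` = number of entries with class below `j` -/
def Grps.rowX (G : Grps T lo hi) (J m s : ℕ) : List ℕ :=
  selRowF J 64 (Nat.add s (G.pX m)) (G.cX m)

/-- the column chunks of the relative list -/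
def Grps.colX (G : Grps T lo hi) (m s : ℕ) : List ℕ := selCol 64 (Nat.add s (G.pX m)) (G.cX m)

/-- the row chunks of the other entries -/
def Grps.rowN (G : Grps T lo hi) (J m s : ℕ) : List ℕ :=
  selRowF J 64 (Nat.add s (G.pN m)) (G.cN m)

/-- the column chunks of the other entries -/
def Grps.colN (G : Grps T lo hi) (m s : ℕ) : List ℕ := selCol 64 (Nat.add s (G.pN m)) (G.cN m)

/-! bounds -/

theorem Grps.bnd_rowX (G : Grps T lo hi) {m : ℕ} (hm : m = 0 ∨ m = 2 ∨ m = 4)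
    (hJ : J < 2 ^ (2048 * 64)) : Bnd 64 (G.rowX J m s) := selRowF_lt hJ (G.bX m hm)

theorem Grps.bnd_colX (G : Grps T lo hi) {m : ℕ} (hm : m = 0 ∨ m = 2 ∨ m = 4) :
    Bnd 64 (G.colX m s) := selCol_lt (G.bX m hm)

theorem Grps.bnd_rowN (G : Grps T lo hi) {m : ℕ} (hm : m = 2 ∨ m = 4)
    (hJ : J < 2 ^ (2048 * 64)) : Bnd 64 (G.rowN J m s) := selRowF_lt hJ (G.bN m hm)

theorem Grps.bnd_colN (G : Grps T lo hi) {m : ℕ} (hm : m = 2 ∨ m = 4) :
    Bnd 64 (G.colN m s) := selCol_lt (G.bN m hm)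

/-! relative lists -/

theorem Grps.inX_row (G : Grps T lo hi) {m : ℕ} (hm : m = 0 ∨ m = 2 ∨ m = 4)
    (hJ : J < 2 ^ (2048 * 64)) (hs : sufOK j s (G.gX m) = true) (hw : WsOK ws ρ A) (J' : ℕ) :
    cubesA T j (lo m) (hi m) ρ A G.lx ⊆ Lanes 128 (cg J' ws (G.rowX J m s)) :=
  cubesA_rowC (fun _ hq h1 h2 => G.mem_lx hm hq h1 h2) (G.tX m hm) hs hw (G.bnd_rowX hm hJ) J'

theorem Grps.inX_col (G : Grps T lo hi) {m : ℕ} (hm : m = 0 ∨ m = 2 ∨ m = 4)
    (hs : sufOK j s (G.gX m) = true) (hw : WsOK ws ρ A) (J' : ℕ) :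
    cubesA T j (lo m) (hi m) ρ A G.lx ⊆ Lanes 128 (cg J' ws (G.colX m s)) :=
  cubesA_colC (fun _ hq h1 h2 => G.mem_lx hm hq h1 h2) (G.tX m hm) hs hw (G.bnd_colX hm) J'

/-! full lists -/

theorem Grps.inF_row (G : Grps T lo hi) {m : ℕ} (hm : m = 2 ∨ m = 4)
    (hJ : J < 2 ^ (2048 * 64)) (hs : sufOK j s (G.gX m) = true)
    (hs' : sufOK j s' (G.gN m) = true) (hw : WsOK ws ρ A) (J' : ℕ) :
    cubesA T j (lo m) (hi m) ρ A G.l ⊆
      Lanes 128 (cg J' ws (G.rowX J m s)) ∪ Lanes 128 (cg J' ws (G.rowN J m s')) := by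
  refine (cubesA_split fun q hq h1 h2 => G.mem_l hm hq h1 h2).trans ?_
  refine Set.union_subset_union ?_ ?_
  · exact cubesA_rowC (fun _ h _ _ => h) (G.tX m (by omega)) hs hw (G.bnd_rowX (by omega) hJ) J'
  · exact cubesA_rowC (fun _ h _ _ => h) (G.tN m hm) hs' hw (G.bnd_rowN hm hJ) J'

theorem Grps.inF_col (G : Grps T lo hi) {m : ℕ} (hm : m = 2 ∨ m = 4)
    (hs : sufOK j s (G.gX m) = true) (hs' : sufOK j s' (G.gN m) = true) (hw : WsOK ws ρ A)
    (J' : ℕ) :
    cubesA T j (lo m) (hi m) ρ A G.l ⊆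
      Lanes 128 (cg J' ws (G.colX m s)) ∪ Lanes 128 (cg J' ws (G.colN m s')) := by
  refine (cubesA_split fun q hq h1 h2 => G.mem_l hm hq h1 h2).trans ?_
  refine Set.union_subset_union ?_ ?_
  · exact cubesA_colC (fun _ h _ _ => h) (G.tX m (by omega)) hs hw (G.bnd_colX (by omega)) J'
  · exact cubesA_colC (fun _ h _ _ => h) (G.tN m hm) hs' hw (G.bnd_colN hm) J'

/-- the full list as one list: the parts `X` and `N` one after the other, then chain and glue -/
theorem Grps.inF_rowC (G : Grps T lo hi) {m : ℕ} (hm : m = 2 ∨ m = 4)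
    (hJ : J < 2 ^ (2048 * 64)) (hs : sufOK j s (G.gX m) = true)
    (hs' : sufOK j s' (G.gN m) = true) (hw : WsOK ws ρ A) (J' : ℕ) :
    cubesA T j (lo m) (hi m) ρ A G.l ⊆
      Lanes 128 (cg J' ws (appL (G.rowX J m s) (G.rowN J m s'))) := by
  intro u hu
  have hb : Bnd 64 (appL (G.rowX J m s) (G.rowN J m s')) := by
    rw [appL_eq]
    exact (G.bnd_rowX (by omega) hJ).append (G.bnd_rowN hm hJ)
  rcases cubesA_split (fun q hq h1 h2 => G.mem_l hm hq h1 h2) hu with hu | hu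
  · obtain ⟨i, hi, h1, α, hα, h2⟩ := cubesA_group (fun _ h _ _ => h) hu
    rw [h2]
    refine lanes_cg hw hb hα ?_ J'
    obtain ⟨h4, h5⟩ := G.tX m (by omega) i hi
    rw [← h5, appL_eq, lanes_append]
    have h6 := sufOK_spec hs hi h1
    exact Or.inl (sel_rowF (by norm_num) (show Nat.add s (G.pX m) ≤ _ from Nat.add_le_add_right h6 _) h4)
  · obtain ⟨i, hi, h1, α, hα, h2⟩ := cubesA_group (fun _ h _ _ => h) hu
    rw [h2]
    refine lanes_cg hw hb hα ?_ J'
    obtain ⟨h4, h5⟩ := G.tN m hm i hi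
    rw [← h5, appL_eq, lanes_append]
    have h6 := sufOK_spec hs' hi h1
    exact Or.inr (sel_rowF (by norm_num) (show Nat.add s' (G.pN m) ≤ _ from Nat.add_le_add_right h6 _) h4)

theorem Grps.inF_colC (G : Grps T lo hi) {m : ℕ} (hm : m = 2 ∨ m = 4)
    (hs : sufOK j s (G.gX m) = true) (hs' : sufOK j s' (G.gN m) = true) (hw : WsOK ws ρ A)
    (J' : ℕ) :
    cubesA T j (lo m) (hi m) ρ A G.l ⊆
      Lanes 128 (cg J' ws (appL (G.colX m s) (G.colN m s'))) := by
  intro u hu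
  have hb : Bnd 64 (appL (G.colX m s) (G.colN m s')) := by
    rw [appL_eq]
    exact (G.bnd_colX (by omega)).append (G.bnd_colN hm)
  rcases cubesA_split (fun q hq h1 h2 => G.mem_l hm hq h1 h2) hu with hu | hu
  · obtain ⟨i, hi, h1, α, hα, h2⟩ := cubesA_group (fun _ h _ _ => h) hu
    rw [h2]
    refine lanes_cg hw hb hα ?_ J'
    obtain ⟨h4, h5⟩ := G.tX m (by omega) i hi
    rw [← h5, appL_eq, lanes_append]
    have h6 := sufOK_spec hs hi h1
    exact Or.inl (sel_colF (by norm_num) (show Nat.add s (G.pX m) ≤ _ from Nat.add_le_add_right h6 _) h4)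
  · obtain ⟨i, hi, h1, α, hα, h2⟩ := cubesA_group (fun _ h _ _ => h) hu
    rw [h2]
    refine lanes_cg hw hb hα ?_ J'
    obtain ⟨h4, h5⟩ := G.tN m hm i hi
    rw [← h5, appL_eq, lanes_append]
    have h6 := sufOK_spec hs' hi h1
    exact Or.inr (sel_colF (by norm_num) (show Nat.add s' (G.pN m) ≤ _ from Nat.add_le_add_right h6 _) h4)

theorem sufOK_zero (j : ℕ) (g : List (ℕ × ℕ)) : sufOK j 0 g = true := rfl

/-- an empty block: all classes of excess `m` are below `j` -/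
theorem cubesA_empty {m : ℕ} {l : List (ℕ × ℕ)} (h : hi m ≤ j) (S : Set ℕ) :
    cubesA T j (lo m) (hi m) ρ A l ⊆ S := by
  rintro u ⟨k, e, -, h1, ⟨-, h2⟩, -⟩
  omega

/-! ### the junk chunk -/

/-- the junk lane: the eleven masks of weight 10 -/
def jLane : ℕ := 0x68808000800000008000000000000000800000000000000000000000000000008000000000000000000000000000000000000000000000000000000000000000800000000000000000000000000000000000000000000000000000000000000000000000000000000000000000000000000000000000000000000000000000008000000000000000000000000000000000000000000000000000000000000000000000000000000000000000000000000000000000000000000000000000000000000000000000000000000000000000000000000000000000000000000000000000000000000000000000000000000000000000000000000000000000000000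

theorem jLane_lt : Nat.blt jLane (2 ^ 2048) = true := by decide +kernel

/-- the junk chunk -/
def jnk : ℕ := Nat.mul jLane (rep 2048 64)

theorem jnk_lt : jnk < 2 ^ (2048 * 64) := by
  have h := jLane_lt
  rw [Nat.blt_eq] at h
  unfold jnk
  generalize jLane = L at h
  exact mul_rep_lt h

end Pool.Agent.Helper20.TY
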