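import Pool.Agent.Helper91.TY.CRun
import Pool.Agent.Helper33.CV.Perm

/-!
MP_8ee768_co, project TH-Y': permutations as 13 digits in base 16.

`IsP P σ`: digit `v` of `P` is `σ⁻¹ v`. One exchange of the points `i`, `j` after `σ` exchanges the
digits `i` and `j` (`xch`). `runP` is the number of a word of exchanges (helper91's words) after a
given permutation, so words can be compared by one comparison of numbers.
-/

set_option autoImplicit false

namespace Pool.Agent.Helper20.TY

open Finset
open Pool.Agent.Helper91.TY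
open Pool.Agent.Helper33.CV (valL)

/-- digit `v` in base 16 -/
def dg (P v : ℕ) : ℕ := Nat.land (Nat.shiftRight P (Nat.mul 4 v)) 15

theorem dg_eq (P v : ℕ) : dg P v = (P >>> (4 * v)) &&& 15 := rfl

theorem testBit_dg (P v t : ℕ) : (dg P v).testBit t = (P.testBit (4 * v + t) && decide (t < 4)) := by
  rw [dg_eq, Nat.testBit_and, Nat.testBit_shiftRight, show (15 : ℕ) = 2 ^ 4 - 1 by norm_num,
    Nat.testBit_two_pow_sub_one]

theorem dg_lt (P v : ℕ) : dg P v < 16 := by
  rw [dg_eq]
  exact lt_of_le_of_lt Nat.and_le_right (by norm_num)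

/-- exchange of the digits `i` and `j` -/
def xch (i j P : ℕ) : ℕ :=
  (fun t => Nat.xor (Nat.xor P (Nat.shiftLeft t (Nat.mul 4 i))) (Nat.shiftLeft t (Nat.mul 4 j)))
    (Nat.xor (dg P i) (dg P j))

theorem dg_xch {i j : ℕ} (hij : i ≠ j) (P v : ℕ) :
    dg (xch i j P) v = if v = i then dg P j else if v = j then dg P i else dg P v := by
  have e : xch i j P = (P ^^^ ((dg P i ^^^ dg P j) <<< (4 * i))) ^^^
    ((dg P i ^^^ dg P j) <<< (4 * j)) := rfl
  refine Nat.eq_of_testBit_eq fun t => ?_
  rw [testBit_dg, e, Nat.testBit_xor, Nat.testBit_xor, Nat.testBit_shiftLeft,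
    Nat.testBit_shiftLeft, Nat.testBit_xor, Nat.testBit_xor]
  by_cases ht : t < 4
  · have key : ∀ w, (decide (4 * v + t ≥ 4 * w) && ((dg P i).testBit (4 * v + t - 4 * w) ^^
        (dg P j).testBit (4 * v + t - 4 * w))) =
        (decide (v = w) && ((dg P i).testBit t ^^ (dg P j).testBit t)) := by
      intro w
      by_cases hvw : v = w
      · subst hvw
        have h1 : 4 * v + t - 4 * v = t := by omega
        rw [h1]
        simp
      · rw [decide_eq_false hvw, Bool.false_and]
        by_cases h2 : 4 * w ≤ 4 * v + t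
        · have h3 : ¬ 4 * v + t - 4 * w < 4 := by omega
          have h4 : ∀ z, (dg P z).testBit (4 * v + t - 4 * w) = false := fun z => by
            rw [testBit_dg, decide_eq_false h3, Bool.and_false]
          rw [h4, h4]
          simp
        · rw [decide_eq_false (by omega : ¬ (4 * v + t ≥ 4 * w)), Bool.false_and]
    rw [key i, key j, decide_eq_true ht, Bool.and_true]
    have h5 : ∀ z, (dg P z).testBit t = P.testBit (4 * z + t) := fun z => by
      rw [testBit_dg, decide_eq_true ht, Bool.and_true]
    by_cases hi : v = i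
    · subst hi
      rw [if_pos rfl, decide_eq_true rfl, decide_eq_false hij, h5, h5]
      cases P.testBit (4 * v + t) <;> cases P.testBit (4 * j + t) <;> rfl
    · rw [if_neg hi, decide_eq_false hi]
      by_cases hj : v = j
      · subst hj
        rw [if_pos rfl, decide_eq_true rfl, h5, h5]
        cases P.testBit (4 * v + t) <;> cases P.testBit (4 * i + t) <;> rfl
      · rw [if_neg hj, decide_eq_false hj, h5 v]
        cases P.testBit (4 * v + t) <;> cases (dg P i).testBit t <;> cases (dg P j).testBit t <;> rfl
  · rw [decide_eq_false ht, Bool.and_false]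
    split_ifs <;> rw [testBit_dg, decide_eq_false ht, Bool.and_false]

/-- the digits of `P` are the values of `σ⁻¹` -/
def IsP (P : ℕ) (σ : Equiv.Perm (Fin 13)) : Prop := ∀ v : Fin 13, dg P v.val = (σ.symm v).val

theorem IsP.unique {P : ℕ} {σ τ : Equiv.Perm (Fin 13)} (h1 : IsP P σ) (h2 : IsP P τ) : σ = τ := by
  have h : σ.symm = τ.symm := Equiv.ext fun v => Fin.ext (by rw [← h1 v, ← h2 v])
  rw [← σ.symm_symm, h, τ.symm_symm]

theorem IsP.swap {P : ℕ} {σ : Equiv.Perm (Fin 13)} (h : IsP P σ) {i j : Fin 13} (hij : i ≠ j) :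
    IsP (xch i.val j.val P) (Equiv.swap i j * σ) := by
  intro v
  rw [dg_xch fun e => hij (Fin.ext e)]
  have e1 : (Equiv.swap i j * σ).symm v = σ.symm (Equiv.swap i j v) := by
    rw [Equiv.symm_apply_eq, Equiv.Perm.mul_apply, Equiv.apply_symm_apply]
    exact (Equiv.swap_apply_self i j v).symm
  rw [e1]
  by_cases hi : v = i
  · subst hi
    rw [if_pos rfl, Equiv.swap_apply_left]
    exact h j
  · rw [if_neg fun e => hi (Fin.ext e)]
    by_cases hj : v = j
    · subst hj
      rw [if_pos rfl, Equiv.swap_apply_right]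
      exact h i
    · rw [if_neg fun e => hj (Fin.ext e), Equiv.swap_apply_of_ne_of_ne hi hj]
      exact h v

/-- the identity -/
def idP : ℕ := 0xcba9876543210

theorem isP_one : IsP idP 1 := by
  unfold IsP
  decide

/-- a word of exchanges after the permutation with the number `P` -/
noncomputable def runP (w P : ℕ) (len : ℕ) : ℕ :=
  @Nat.rec (fun _ => ℕ) P (fun t ih =>
    frc (fun d => frc (fun p => xch (Nat.land d 15) (Nat.shiftRight d 4) p) ih) (dig8 w t)) len

theorem runP_succ (w P t : ℕ) :
    runP w P (t + 1) = xch (dig8 w t % 16) (dig8 w t / 16) (runP w P t) := by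
  have e : runP w P (t + 1) =
    frc (fun d => frc (fun p => xch (Nat.land d 15) (Nat.shiftRight d 4) p) (runP w P t))
      (dig8 w t) := rfl
  rw [e, frc_eq, frc_eq]
  have e1 : Nat.land (dig8 w t) 15 = dig8 w t % 16 := Nat.and_two_pow_sub_one_eq_mod _ 4
  have e2 : Nat.shiftRight (dig8 w t) 4 = dig8 w t / 16 := Nat.shiftRight_eq_div_pow _ _
  rw [e1, e2]

theorem isP_runP {n w : ℕ} {P : ℕ} {σ : Equiv.Perm (Fin 13)} (h : IsP P σ) :
    ∀ {len : ℕ}, okW n w len = true → IsP (runP w P len) (wpc (prs w len) * σ)
  | 0, _ => by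
    show IsP P (1 * σ)
    rw [one_mul]
    exact h
  | len + 1, hw => by
    have h' : (okW n w len && (Nat.blt (dig8 w len % 16) (dig8 w len / 16) &&
      (Nat.blt (dig8 w len / 16) n && Nat.blt (dig8 w len / 16) 13))) = true := hw
    rw [Bool.and_eq_true, Bool.and_eq_true, Bool.and_eq_true, Nat.blt_eq, Nat.blt_eq,
      Nat.blt_eq] at h'
    obtain ⟨h1, h2, h3, h4⟩ := h'
    have e1 : (Fin.ofNat 13 (dig8 w len % 16)).val = dig8 w len % 16 :=
      Nat.mod_eq_of_lt (by omega)
    have e2 : (Fin.ofNat 13 (dig8 w len / 16)).val = dig8 w len / 16 :=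
      Nat.mod_eq_of_lt (by omega)
    have e3 : wpc (prs w (len + 1)) = Equiv.swap (Fin.ofNat 13 (dig8 w len % 16))
        (Fin.ofNat 13 (dig8 w len / 16)) * wpc (prs w len) := by
      show wpc (prs w len ++ [(Fin.ofNat 13 (dig8 w len % 16), Fin.ofNat 13 (dig8 w len / 16))]) = _
      rw [wpc_append]
      rfl
    rw [runP_succ, e3, mul_assoc]
    have h5 := (isP_runP h h1).swap (i := Fin.ofNat 13 (dig8 w len % 16))
      (j := Fin.ofNat 13 (dig8 w len / 16)) (fun e => by
        have := congrArg Fin.val e
        rw [e1, e2] at this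
        omega)
    rw [e1, e2] at h5
    exact h5

/-- equal numbers, equal permutations -/
theorem wpc_eq_mul {n w len w' len' a : ℕ} {α : Equiv.Perm (Fin 13)} (ha : IsP a α)
    (hw : okW n w len = true) (hw' : okW n w' len' = true)
    (h : runP w' idP len' = runP w a len) : wpc (prs w' len') = wpc (prs w len) * α := by
  have h1 := isP_runP ha hw
  have h2 := isP_runP isP_one hw'
  rw [h, mul_one] at h2
  exact h2.unique h1

/-! ### the number of a list of values -/

/-- digits of the inverse of the permutation with values `l` -/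
def numL : List ℕ → ℕ → ℕ
  | [], _ => 0
  | v :: l, a => Nat.lor (Nat.shiftLeft a (Nat.mul 4 v)) (numL l (a + 1))

theorem dg_numL {l : List ℕ} (hn : l.Nodup) {b : ℕ} (hb : b + l.length ≤ 16) {i : ℕ}
    (hi : i < l.length) : dg (numL l b) l[i] = b + i := by
  have key : ∀ (l : List ℕ) (b : ℕ), b + l.length ≤ 16 → ∀ u t, t < 4 →
      ((numL l b).testBit (4 * u + t) = true ↔ ∃ i, ∃ h : i < l.length, l[i] = u ∧
        (b + i).testBit t = true) := by
    intro l
    induction l with
    | nil =>
      intro b _ u t _
      show (0 : ℕ).testBit _ = true ↔ _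
      rw [Nat.zero_testBit]
      simp
    | cons v l ih =>
      intro b hb u t ht
      rw [List.length_cons] at hb
      have e : numL (v :: l) b = (b <<< (4 * v)) ||| numL l (b + 1) := rfl
      rw [e, Nat.testBit_or, Bool.or_eq_true, ih (b + 1) (by omega) u t ht,
        Nat.testBit_shiftLeft, Bool.and_eq_true, decide_eq_true_eq]
      constructor
      · rintro (⟨h1, h2⟩ | ⟨i, hi, h1, h2⟩)
        · refine ⟨0, Nat.succ_pos _, ?_, ?_⟩
          · show v = u
            by_contra hvu
            have h3 : 4 ≤ 4 * u + t - 4 * v := by omega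
            rw [Nat.testBit_lt_two_pow (lt_of_lt_of_le (show b < 2 ^ 4 by
              norm_num
              omega) (Nat.pow_le_pow_right (by norm_num) h3))] at h2
            exact Bool.false_ne_true h2
          · by_cases hvu : v = u
            · subst hvu
              rw [show 4 * v + t - 4 * v = t by omega] at h2
              exact h2
            · have h3 : 4 ≤ 4 * u + t - 4 * v := by omega
              rw [Nat.testBit_lt_two_pow (lt_of_lt_of_le (show b < 2 ^ 4 by
                norm_num
                omega) (Nat.pow_le_pow_right (by norm_num) h3))] at h2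
              exact absurd h2 Bool.false_ne_true
        · refine ⟨i + 1, Nat.succ_lt_succ hi, h1, ?_⟩
          rw [show b + (i + 1) = b + 1 + i by omega]
          exact h2
      · rintro ⟨i, hi, h1, h2⟩
        cases i with
        | zero =>
          have h1' : v = u := h1
          subst h1'
          exact Or.inl ⟨by omega, by rw [show 4 * v + t - 4 * v = t by omega]; exact h2⟩
        | succ i =>
          refine Or.inr ⟨i, Nat.lt_of_succ_lt_succ hi, h1, ?_⟩
          rw [show b + 1 + i = b + (i + 1) by omega]
          exact h2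
  refine Nat.eq_of_testBit_eq fun t => ?_
  rw [testBit_dg]
  by_cases ht : t < 4
  · rw [decide_eq_true ht, Bool.and_true, Bool.eq_iff_iff, key l b hb _ t ht]
    constructor
    · rintro ⟨i', hi', h1, h2⟩
      have h3 : i' = i := (List.Nodup.getElem_inj_iff hn).1 h1
      rw [← h3]
      exact h2
    · exact fun h => ⟨i, hi, rfl, h⟩
  · rw [decide_eq_false ht, Bool.and_false]
    symm
    refine Nat.testBit_lt_two_pow (lt_of_lt_of_le (show b + i < 2 ^ 4 by
      norm_num
      omega) (Nat.pow_le_pow_right (by norm_num) (not_lt.1 ht)))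

theorem isP_numL {σ : Equiv.Perm (Fin 13)} {l : List ℕ} (h : valL σ = l) : IsP (numL l 0) σ := by
  intro v
  have hlen : (valL σ).length = 13 := by
    unfold valL
    exact List.length_ofFn
  have hnd : (valL σ).Nodup := by
    unfold valL
    rw [List.nodup_ofFn]
    exact fun a b hab => σ.injective (Fin.ext hab)
  subst h
  have h1 : (valL σ)[(σ.symm v).val]'(by rw [hlen]; exact (σ.symm v).isLt) = v.val := by
    unfold valL
    rw [List.getElem_ofFn]
    show (σ (σ.symm v)).val = v.val
    rw [Equiv.apply_symm_apply]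
  have h2 := dg_numL hnd (b := 0) (by rw [hlen]; norm_num) (i := (σ.symm v).val)
    (by rw [hlen]; exact (σ.symm v).isLt)
  rw [h1, Nat.zero_add] at h2
  exact h2

end Pool.Agent.Helper20.TY
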