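import Pool.Agent.Helper79.CV.FBlockA
import Pool.Agent.Helper20.TY.NibP
import Pool.Agent.Helper74.TY.XExt

/-!
MP_8ee768_co, project TH-Y', star engine: from the tables modulo automorphisms (helper79's `TabA`,
`cubesA`) to the lanes of the chunks the engine joins.

* `Lanes n cs`: the lanes of a list of chunks, `n` lanes of 2048 bits each;
* `TabChunks T n g ch`: lane `i % n` of chunk `i / n` is the lane of entry `i` of `g`;
* `selRow`, `selCol`: the chunks of the entries from number `s` on, other lanes replaced by junk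
  (rows) or cleared (columns);
* `relab n ws cs`: every chunk relabelled by every word of `ws`, `bldW` its forced form;
* `auWords`: the words of `ws` are `ρ * α`, `α` in the list of automorphisms;
* `cubesA_row`, `cubesA_col`: every cube of `cubesA` is a lane of the list of chunks.
-/

set_option autoImplicit false

namespace Pool.Agent.Helper20.TY

open Finset
open Pool.Agent.Helper63.SIMD
open Pool.Agent.Helper79.CV
open Pool.Agent.Helper33.CV (cub valL)
open Pool.Agent.Helper91.TY (runC okW prs wpc fld_runC)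
open Pool.Agent.Helper74.TY (frc frc_eq)

/-! ### lanes -/

/-- the lanes of a list of chunks -/
def Lanes (n : ℕ) (cs : List ℕ) : Set ℕ := {u | ∃ X ∈ cs, ∃ i < n, u = fld 2048 X i}

/-- lane `i % n` of chunk `i / n` is the lane of entry `i` -/
def TabChunks (T n : ℕ) (g : List (ℕ × ℕ)) (ch : List ℕ) : Prop :=
  ∀ i (h : i < g.length), fld 2048 (ch.getD (i / n) 0) (i % n) = cub 11 (laneF (ent T (g[i]).2))

theorem testBit_fld' (W X i t : ℕ) :
    (fld W X i).testBit t = (X.testBit (W * i + t) && decide (t < W)) := by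
  unfold fld
  rw [Nat.testBit_mod_two_pow, Nat.testBit_div_two_pow, Nat.add_comm t, Bool.and_comm]

/-! ### selection of a suffix -/

/-- the lanes below `r` are cleared -/
def clrLo (r X : ℕ) : ℕ :=
  Nat.shiftLeft (Nat.shiftRight X (Nat.mul 2048 r)) (Nat.mul 2048 r)

theorem fld_clrLo {r i : ℕ} (hi : r ≤ i) (X : ℕ) : fld 2048 (clrLo r X) i = fld 2048 X i := by
  refine Nat.eq_of_testBit_eq fun t => ?_
  have e : clrLo r X = (X >>> (2048 * r)) <<< (2048 * r) := rfl
  rw [testBit_fld', testBit_fld', e, Nat.testBit_shiftLeft, Nat.testBit_shiftRight]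
  have h1 : 2048 * r ≤ 2048 * i := Nat.mul_le_mul_left _ hi
  rw [decide_eq_true (by omega : 2048 * i + t ≥ 2048 * r), Bool.true_and,
    show 2048 * r + (2048 * i + t - 2048 * r) = 2048 * i + t by omega]

theorem fld_clrLo_lt {r i : ℕ} (hi : i < r) (X : ℕ) : fld 2048 (clrLo r X) i = 0 := by
  refine Nat.eq_of_testBit_eq fun t => ?_
  have e : clrLo r X = (X >>> (2048 * r)) <<< (2048 * r) := rfl
  rw [testBit_fld', Nat.zero_testBit, e, Nat.testBit_shiftLeft]
  by_cases ht : t < 2048
  · have h1 : 2048 * (i + 1) ≤ 2048 * r := Nat.mul_le_mul_left _ hi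
    rw [decide_eq_false (by omega : ¬ 2048 * i + t ≥ 2048 * r), Bool.false_and, Bool.false_and]
  · rw [decide_eq_false ht, Bool.and_false]

theorem fld_lor2 (X Y i : ℕ) : fld 2048 (X ||| Y) i = fld 2048 X i ||| fld 2048 Y i := by
  refine Nat.eq_of_testBit_eq fun t => ?_
  rw [testBit_fld', Nat.testBit_or, Nat.testBit_or, testBit_fld', testBit_fld']
  cases X.testBit (2048 * i + t) <;> cases Y.testBit (2048 * i + t) <;> cases decide (t < 2048) <;>
    rfl

/-- the lanes below `r` -/
def low (r X : ℕ) : ℕ := Nat.land X (Nat.sub (Nat.pow 2 (Nat.mul 2048 r)) 1)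

theorem fld_low {r i : ℕ} (hi : r ≤ i) (X : ℕ) : fld 2048 (low r X) i = 0 := by
  refine Nat.eq_of_testBit_eq fun t => ?_
  have e : low r X = X &&& (2 ^ (2048 * r) - 1) := rfl
  have h1 : 2048 * r ≤ 2048 * i := Nat.mul_le_mul_left _ hi
  rw [testBit_fld', Nat.zero_testBit, e, Nat.testBit_and, Nat.testBit_two_pow_sub_one,
    decide_eq_false (by omega : ¬ 2048 * i + t < 2048 * r), Bool.and_false, Bool.false_and]

/-- the lanes below `r` replaced by junk -/
def jnkLo (J r X : ℕ) : ℕ := Nat.lor (clrLo r X) (low r J)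

theorem fld_jnkLo {r i : ℕ} (hi : r ≤ i) (J X : ℕ) : fld 2048 (jnkLo J r X) i = fld 2048 X i := by
  have e : jnkLo J r X = clrLo r X ||| low r J := rfl
  rw [e, fld_lor2, fld_clrLo hi, fld_low hi, Nat.or_zero]

/-- junk is added to the lanes from `q` on -/
def jnkHi (J q X : ℕ) : ℕ := Nat.lor X (clrLo q J)

theorem fld_jnkHi {q i : ℕ} (hi : i < q) (J X : ℕ) : fld 2048 (jnkHi J q X) i = fld 2048 X i := by
  have e : jnkHi J q X = X ||| clrLo q J := rfl
  rw [e, fld_lor2, fld_clrLo_lt hi, Nat.or_zero]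

/-- change of the first element -/
def onHead (f : ℕ → ℕ) (l : List ℕ) : List ℕ :=
  @List.rec ℕ (fun _ => List ℕ) [] (fun a l _ => f a :: l) l

/-- change of the last element -/
def onLast (f : ℕ → ℕ) (l : List ℕ) : List ℕ :=
  @List.rec ℕ (fun _ => List ℕ) []
    (fun a l ih => @List.rec ℕ (fun _ => List ℕ) [f a] (fun _ _ _ => a :: ih) l) l

theorem length_onHead (f : ℕ → ℕ) (l : List ℕ) : (onHead f l).length = l.length := by
  cases l <;> rfl

theorem getElem_onHead {f : ℕ → ℕ} {l : List ℕ} {k : ℕ} (h : k < (onHead f l).length)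
    (h' : k < l.length) : (onHead f l)[k] = if k = 0 then f l[k] else l[k] := by
  cases l with
  | nil => exact absurd h' (Nat.not_lt_zero k)
  | cons a l =>
    cases k with
    | zero => rfl
    | succ k => rfl

theorem length_onLast (f : ℕ → ℕ) (l : List ℕ) : (onLast f l).length = l.length := by
  induction l with
  | nil => rfl
  | cons a l ih =>
    cases l with
    | nil => rfl
    | cons b l =>
      show (a :: onLast f (b :: l)).length = _
      rw [List.length_cons, ih, List.length_cons, List.length_cons, List.length_cons]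

theorem getElem_onLast {f : ℕ → ℕ} : ∀ {l : List ℕ} {k : ℕ} (h : k < (onLast f l).length)
    (h' : k < l.length), (onLast f l)[k] = if k + 1 = l.length then f l[k] else l[k]
  | [], k, _, h' => absurd h' (Nat.not_lt_zero k)
  | [a], 0, _, _ => rfl
  | [a], k + 1, _, h' => absurd (Nat.lt_of_succ_lt_succ h') (Nat.not_lt_zero k)
  | a :: b :: l, 0, _, _ => by
    show a = if 0 + 1 = (a :: b :: l).length then f a else a
    rw [if_neg]
    rw [List.length_cons, List.length_cons]
    omega
  | a :: b :: l, k + 1, h, h' => by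
    have h1 := getElem_onLast (f := f) (l := b :: l) (k := k)
      (by rw [length_onLast]; exact Nat.lt_of_succ_lt_succ h') (Nat.lt_of_succ_lt_succ h')
    have e : onLast f (a :: b :: l) = a :: onLast f (b :: l) := rfl
    simp only [e, List.getElem_cons_succ]
    rw [h1]
    by_cases h2 : k + 1 = (b :: l).length
    · rw [if_pos h2, if_pos]
      rw [List.length_cons, h2]
    · rw [if_neg h2, if_neg]
      rw [List.length_cons]
      omega

/-- the row chunks of the entries `s, .., N - 1` -/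
def selRow (J n s N : ℕ) (ch : List ℕ) : List ℕ :=
  onLast (jnkHi J (Nat.succ (Nat.mod (Nat.sub N 1) n)))
    (onHead (jnkLo J (Nat.mod s n)) (ch.drop (Nat.div s n)))

/-- the column chunks of the entries `s, .., N - 1` -/
def selCol (n s : ℕ) (ch : List ℕ) : List ℕ :=
  onHead (clrLo (Nat.mod s n)) (ch.drop (Nat.div s n))

theorem sel_row {J n s N : ℕ} (hn : 0 < n) {ch : List ℕ} (hch : ch.length = (N - 1) / n + 1)
    {i : ℕ} (hs : s ≤ i) (hi : i < N) :
    fld 2048 (ch.getD (i / n) 0) (i % n) ∈ Lanes n (selRow J n s N ch) := by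
  have hdn : i / n ≤ (N - 1) / n := Nat.div_le_div_right (by omega)
  have hdl : s / n ≤ i / n := Nat.div_le_div_right hs
  have hk : i / n - s / n < (ch.drop (s / n)).length := by
    rw [List.length_drop, hch]
    omega
  have e : selRow J n s N ch = onLast (jnkHi J ((N - 1) % n + 1))
    (onHead (jnkLo J (s % n)) (ch.drop (s / n))) := rfl
  have hk1 : i / n - s / n < (onHead (jnkLo J (s % n)) (ch.drop (s / n))).length := by
    rw [length_onHead]
    exact hk
  have hk2 : i / n - s / n < (selRow J n s N ch).length := by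
    rw [e, length_onLast]
    exact hk1
  have hci : i / n < ch.length := by
    rw [hch]
    omega
  refine ⟨(selRow J n s N ch)[i / n - s / n], List.getElem_mem hk2, i % n, Nat.mod_lt _ hn, ?_⟩
  have h1 : (ch.drop (s / n))[i / n - s / n] = ch.getD (i / n) 0 := by
    rw [List.getElem_drop, List.getD_eq_getElem _ _ hci]
    congr 1
    omega
  have h2 : fld 2048 ((onHead (jnkLo J (s % n)) (ch.drop (s / n)))[i / n - s / n]) (i % n) =
      fld 2048 (ch.getD (i / n) 0) (i % n) := by
    rw [getElem_onHead hk1 hk, h1]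
    split_ifs with h3
    · refine fld_jnkLo ?_ _ _
      have h4 : s / n = i / n := by omega
      have h5 := Nat.div_add_mod s n
      have h6 := Nat.div_add_mod i n
      rw [h4] at h5
      omega
    · rfl
  rw [← h2]
  simp only [e]
  rw [getElem_onLast (by rw [length_onLast]; exact hk1) hk1]
  split_ifs with h3
  · symm
    refine fld_jnkHi ?_ _ _
    rw [length_onHead, List.length_drop, hch] at h3
    have h4 : i / n = (N - 1) / n := by omega
    have h5 := Nat.div_add_mod (N - 1) n
    have h6 := Nat.div_add_mod i n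
    rw [← h4] at h5
    omega
  · rfl

theorem sel_col {n s N : ℕ} (hn : 0 < n) {ch : List ℕ} (hch : ch.length = (N - 1) / n + 1)
    {i : ℕ} (hs : s ≤ i) (hi : i < N) :
    fld 2048 (ch.getD (i / n) 0) (i % n) ∈ Lanes n (selCol n s ch) := by
  have hdn : i / n ≤ (N - 1) / n := Nat.div_le_div_right (by omega)
  have hdl : s / n ≤ i / n := Nat.div_le_div_right hs
  have hk : i / n - s / n < (ch.drop (s / n)).length := by
    rw [List.length_drop, hch]
    omega
  have e : selCol n s ch = onHead (clrLo (s % n)) (ch.drop (s / n)) := rfl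
  have hk1 : i / n - s / n < (onHead (clrLo (s % n)) (ch.drop (s / n))).length := by
    rw [length_onHead]
    exact hk
  have hci : i / n < ch.length := by
    rw [hch]
    omega
  refine ⟨(selCol n s ch)[i / n - s / n]'(by rw [e]; exact hk1), List.getElem_mem _, i % n,
    Nat.mod_lt _ hn, ?_⟩
  have h1 : (ch.drop (s / n))[i / n - s / n] = ch.getD (i / n) 0 := by
    rw [List.getElem_drop, List.getD_eq_getElem _ _ hci]
    congr 1
    omega
  simp only [e]
  rw [getElem_onHead hk1 hk, h1]
  split_ifs with h3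
  · symm
    refine fld_clrLo ?_ _
    have h4 : s / n = i / n := by omega
    have h5 := Nat.div_add_mod s n
    have h6 := Nat.div_add_mod i n
    rw [h4] at h5
    omega
  · rfl

/-! ### words -/

/-- every chunk relabelled by every word (word, length) -/
noncomputable def relab (K : ℕ) (ws : List (ℕ × ℕ)) (cs : List ℕ) : List ℕ :=
  ws.flatMap fun w => cs.map fun X => runC K w.2 w.1 X

theorem lanes_relab {n K : ℕ} (hK : K = 2 ^ 11 * n) {ws : List (ℕ × ℕ)} {cs : List ℕ}
    {w : ℕ × ℕ} (hw : w ∈ ws) (hok : okW 11 w.1 w.2 = true) {D : Fam}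
    (h : cub 11 D ∈ Lanes n cs) :
    cub 11 (mapF (wpc (prs w.1 w.2)) D) ∈ Lanes n (relab K ws cs) := by
  obtain ⟨X, hX, i, hi, h1⟩ := h
  refine ⟨runC K w.2 w.1 X, ?_, i, hi, ?_⟩
  · unfold relab
    rw [List.mem_flatMap]
    exact ⟨w, hw, List.mem_map.2 ⟨X, hX, rfl⟩⟩
  · subst hK
    have h2 := fld_runC (n := 11) (N := n) (by norm_num) hok hi (X := X) (D := D) h1.symm
    exact h2.symm

/-- the forced form for one word, in front of the list `acc` -/
noncomputable def bldC (K w len : ℕ) (cs acc : List ℕ) : (List ℕ → Bool) → Bool :=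
  @List.rec ℕ (fun _ => (List ℕ → Bool) → Bool) (fun k => k acc)
    (fun X _ ih k => ih fun l => frc (runC K len w X) fun v => k (v :: l)) cs

theorem bldC_eq (K w len : ℕ) (cs acc : List ℕ) (k : List ℕ → Bool) :
    bldC K w len cs acc k = k (cs.map (fun X => runC K len w X) ++ acc) := by
  induction cs generalizing k with
  | nil => rfl
  | cons X cs ih =>
    show bldC K w len cs acc (fun l => frc (runC K len w X) fun v => k (v :: l)) = _
    rw [ih, frc_eq]
    rfl

/-- the forced form of `relab` -/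
noncomputable def bldW (K : ℕ) (ws : List (ℕ × ℕ)) (cs : List ℕ) : (List ℕ → Bool) → Bool :=
  @List.rec (ℕ × ℕ) (fun _ => (List ℕ → Bool) → Bool) (fun k => k [])
    (fun w _ ih k => ih fun l => bldC K w.1 w.2 cs l k) ws

theorem bldW_eq (K : ℕ) (ws : List (ℕ × ℕ)) (cs : List ℕ) (k : List ℕ → Bool) :
    bldW K ws cs k = k (relab K ws cs) := by
  induction ws generalizing k with
  | nil => rfl
  | cons w ws ih =>
    show bldW K ws cs (fun l => bldC K w.1 w.2 cs l k) = _
    rw [ih, bldC_eq]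
    unfold relab
    rw [List.flatMap_cons]

/-- evaluation of the elements of a list -/
def frcL (cs : List ℕ) : (List ℕ → Bool) → Bool :=
  @List.rec ℕ (fun _ => (List ℕ → Bool) → Bool) (fun k => k [])
    (fun X _ ih k => frc X fun v => ih fun l => k (v :: l)) cs

theorem frcL_eq (cs : List ℕ) (k : List ℕ → Bool) : frcL cs k = k cs := by
  induction cs generalizing k with
  | nil => rfl
  | cons X cs ih =>
    show (frc X fun v => frcL cs fun l => k (v :: l)) = _
    rw [frc_eq, ih]

/-- the words `ws` are the word `(w, len)` after the permutations with the numbers `as` -/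
noncomputable def auWords (w len : ℕ) : List (ℕ × ℕ) → List ℕ → Bool
  | _, [] => true
  | [], _ :: _ => false
  | x :: ws, a :: as => okW 11 x.1 x.2 && (Nat.beq (runP x.1 idP x.2) (runP w a len) &&
      auWords w len ws as)

theorem auWords_spec {w len : ℕ} (hw : okW 11 w len = true) : ∀ {ws : List (ℕ × ℕ)}
    {as : List ℕ}, auWords w len ws as = true → ∀ a ∈ as, ∀ α : Equiv.Perm (Fin 13), IsP a α →
      ∃ x ∈ ws, okW 11 x.1 x.2 = true ∧ wpc (prs x.1 x.2) = wpc (prs w len) * α
  | _, [], _, a, ha, _, _ => absurd ha List.not_mem_nil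
  | [], _ :: _, h, _, _, _, _ => by
    unfold auWords at h
    exact absurd h Bool.false_ne_true
  | x :: ws, b :: as, h, a, ha, α, hα => by
    have h' : (okW 11 x.1 x.2 && (Nat.beq (runP x.1 idP x.2) (runP w b len) &&
      auWords w len ws as)) = true := h
    rw [Bool.and_eq_true, Bool.and_eq_true, Nat.beq_eq] at h'
    rcases List.mem_cons.1 ha with rfl | ha
    · exact ⟨x, List.mem_cons_self, h'.1, wpc_eq_mul hα hw h'.1 h'.2.1⟩
    · obtain ⟨y, hy, h1⟩ := auWords_spec hw h'.2.2 a ha α hα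
      exact ⟨y, List.mem_cons_of_mem _ hy, h1⟩

/-- the numbers of a list of automorphisms -/
theorem auWords_autSet {w len : ℕ} (hw : okW 11 w len = true) {ws : List (ℕ × ℕ)}
    {L : List (List ℕ)} {as : List ℕ} (hL : L.map (fun g => numL g 0) = as)
    (h : auWords w len ws as = true) {α : Equiv.Perm (Fin 13)} (hα : valL α ∈ L) :
    ∃ x ∈ ws, okW 11 x.1 x.2 = true ∧ wpc (prs x.1 x.2) = wpc (prs w len) * α := by
  refine auWords_spec hw h (numL (valL α) 0) ?_ α (isP_numL rfl)
  rw [← hL]
  exact List.mem_map.2 ⟨_, hα, rfl⟩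

/-! ### groups of equal size -/

/-- all classes of the group are in `[lo, hi)` -/
def rangeOK (lo hi : ℕ) (g : List (ℕ × ℕ)) : Bool :=
  g.all fun p => Nat.ble lo p.1 && Nat.blt p.1 hi

theorem rangeOK_spec {lo hi : ℕ} {g : List (ℕ × ℕ)} (h : rangeOK lo hi g = true) :
    ∀ p ∈ g, lo ≤ p.1 ∧ p.1 < hi := by
  intro p hp
  unfold rangeOK at h
  rw [List.all_eq_true] at h
  have h1 := h p hp
  rw [Bool.and_eq_true, Nat.ble_eq, Nat.blt_eq] at h1
  exact h1

/-- the entries before number `s` have classes below `j` -/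
def sufOK (j s : ℕ) (g : List (ℕ × ℕ)) : Bool := (g.take s).all fun p => Nat.blt p.1 j

theorem sufOK_spec {j s : ℕ} {g : List (ℕ × ℕ)} (h : sufOK j s g = true) {i : ℕ}
    (hi : i < g.length) (hj : j ≤ (g[i]).1) : s ≤ i := by
  by_contra hs
  unfold sufOK at h
  rw [List.all_eq_true] at h
  have hi' : i < (g.take s).length := by
    rw [List.length_take]
    omega
  have h1 := h (g[i]) (by
    have h2 : (g.take s)[i] = g[i] := List.getElem_take
    rw [← h2]
    exact List.getElem_mem hi')
  rw [Nat.blt_eq] at h1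
  omega

/-- the cubes of a group, without the bounds of the classes -/
theorem cubesA_group {T j lo hi : ℕ} {ρ : Equiv.Perm (Fin 13)} {A : Set (Equiv.Perm (Fin 13))}
    {l g : List (ℕ × ℕ)} (hg : ∀ p ∈ l, lo ≤ p.1 → p.1 < hi → p ∈ g) {u : ℕ}
    (hu : u ∈ cubesA T j lo hi ρ A l) : ∃ i, ∃ h : i < g.length, j ≤ (g[i]).1 ∧
      ∃ α ∈ A, u = cub 11 (mapF (ρ * α) (laneF (ent T (g[i]).2))) := by
  obtain ⟨k, e, h1, h2, ⟨h3, h4⟩, α, hα, h5⟩ := hu
  obtain ⟨i, hi, h6⟩ := List.getElem_of_mem (hg _ h1 h3 h4)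
  refine ⟨i, hi, ?_, α, hα, ?_⟩
  · rw [h6]
    exact h2
  · rw [h6]
    exact h5

/-- three groups -/
theorem mem_three {lo hi : ℕ → ℕ} {g0 g2 g4 : List (ℕ × ℕ)}
    (h0 : rangeOK (lo 0) (hi 0) g0 = true) (h2 : rangeOK (lo 2) (hi 2) g2 = true)
    (h4 : rangeOK (lo 4) (hi 4) g4 = true) (h02 : hi 0 ≤ lo 2) (h24 : hi 2 ≤ lo 4)
    (h04 : hi 0 ≤ lo 4) {p : ℕ × ℕ} (hp : p ∈ g0 ++ g2 ++ g4) :
    (lo 0 ≤ p.1 → p.1 < hi 0 → p ∈ g0) ∧ (lo 2 ≤ p.1 → p.1 < hi 2 → p ∈ g2) ∧
      (lo 4 ≤ p.1 → p.1 < hi 4 → p ∈ g4) := by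
  rw [List.mem_append, List.mem_append] at hp
  rcases hp with (hp | hp) | hp
  · have h := rangeOK_spec h0 p hp
    exact ⟨fun _ _ => hp, fun _ _ => absurd h.2 (by omega), fun _ _ => absurd h.2 (by omega)⟩
  · have h := rangeOK_spec h2 p hp
    exact ⟨fun _ _ => absurd h.1 (by omega), fun _ _ => hp, fun _ _ => absurd h.2 (by omega)⟩
  · have h := rangeOK_spec h4 p hp
    exact ⟨fun _ _ => absurd h.1 (by omega), fun _ _ => absurd h.1 (by omega), fun _ _ => hp⟩

/-! ### the result -/

/-- the cubes of a group are lanes of the relabelled row chunks -/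
theorem cubesA_row {T n K J j lo hi s N : ℕ} (hn : 0 < n) (hK : K = 2 ^ 11 * n)
    {ρ : Equiv.Perm (Fin 13)} {A : Set (Equiv.Perm (Fin 13))} {l g : List (ℕ × ℕ)}
    (hg : ∀ p ∈ l, lo ≤ p.1 → p.1 < hi → p ∈ g) {ch : List ℕ} (hch : TabChunks T n g ch)
    (hlen : ch.length = (N - 1) / n + 1) (hN : g.length = N) (hs : sufOK j s g = true)
    {ws : List (ℕ × ℕ)} (hw : ∀ α ∈ A, ∃ x ∈ ws, okW 11 x.1 x.2 = true ∧
      wpc (prs x.1 x.2) = ρ * α) :
    cubesA T j lo hi ρ A l ⊆ Lanes n (relab K ws (selRow J n s N ch)) := by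
  intro u hu
  obtain ⟨i, hi, h1, α, hα, h2⟩ := cubesA_group hg hu
  obtain ⟨x, hx, hok, h3⟩ := hw α hα
  rw [h2, ← h3]
  refine lanes_relab hK hx hok ?_
  rw [← hch i hi]
  exact sel_row hn hlen (sufOK_spec hs hi h1) (by omega)

/-- the cubes of a group are lanes of the relabelled column chunks -/
theorem cubesA_col {T n K j lo hi s N : ℕ} (hn : 0 < n) (hK : K = 2 ^ 11 * n)
    {ρ : Equiv.Perm (Fin 13)} {A : Set (Equiv.Perm (Fin 13))} {l g : List (ℕ × ℕ)}
    (hg : ∀ p ∈ l, lo ≤ p.1 → p.1 < hi → p ∈ g) {ch : List ℕ} (hch : TabChunks T n g ch)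
    (hlen : ch.length = (N - 1) / n + 1) (hN : g.length = N) (hs : sufOK j s g = true)
    {ws : List (ℕ × ℕ)} (hw : ∀ α ∈ A, ∃ x ∈ ws, okW 11 x.1 x.2 = true ∧
      wpc (prs x.1 x.2) = ρ * α) :
    cubesA T j lo hi ρ A l ⊆ Lanes n (relab K ws (selCol n s ch)) := by
  intro u hu
  obtain ⟨i, hi, h1, α, hα, h2⟩ := cubesA_group hg hu
  obtain ⟨x, hx, hok, h3⟩ := hw α hα
  rw [h2, ← h3]
  refine lanes_relab hK hx hok ?_
  rw [← hch i hi]
  exact sel_col hn hlen (sufOK_spec hs hi h1) (by omega)

end Pool.Agent.Helper20.TY
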