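import Pool.Agent.Helper20.TY.ChunkA
import Pool.Agent.Helper39.TY.Layers
import Pool.Agent.Helper79.CV.FastCub

/-!
MP_8ee768_co, project TH-Y', star engine: the kernel check of chunk literals against the codes of the
entries (`TabChunks`).

`okCh` packs the cubes of the codes (helper79's `cub4`), computes all layers (helper39's `layers`),
compares with the literal and checks the parity of the triples (so every entry is an odd family).
-/

set_option autoImplicit false

namespace Pool.Agent.Helper20.TY

open Finset
open Pool.Agent.Helper63.SIMD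
open Pool.Agent.Helper89.CV (OddCover ofMask)
open Pool.Agent.Helper97.CV
open Pool.Agent.Helper79.CV
open Pool.Agent.Helper33.CV
open Pool.Agent.Helper39.TY (yp cA cA_eq cnt_ent cnt_same cnt_above layers fld_layers testBit_lane
  mem_ent_iff notMem_T disj_ent cnt_union cnt_cone testBit_yp_fam)
open Pool.Agent.Helper82.TY (below)
open Pool.Agent.Helper74.TY (frc frc_eq)

/-! ### codes below `2 ^ 330` -/

theorem fam_small {e : ℕ} (he : e < 2 ^ 330) : fam 12 4 e = fam 11 4 e := by
  have h11 : (L 11 4).length = 330 := by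
    rw [length_L]
    decide
  ext s
  rw [mem_fam, mem_fam]
  constructor
  · rintro ⟨i, h, h1, h2⟩
    have hi : i < (L 11 4).length := by
      rw [h11]
      by_contra h3
      rw [Nat.testBit_lt_two_pow (lt_of_lt_of_le he (Nat.pow_le_pow_right (by norm_num)
        (not_lt.1 h3)))] at h1
      exact Bool.false_ne_true h1
    refine ⟨i, hi, h1, ?_⟩
    rw [← h2]
    exact congrArg ofMask (getElem_L_lt hi).symm
  · rintro ⟨i, h, h1, h2⟩
    have h' : i < (L 11 (3 + 1)).length := h
    refine ⟨i, ?_, h1, ?_⟩
    · rw [show (12 : ℕ) = 11 + 1 from rfl, L_succ, List.length_append]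
      omega
    · rw [← h2]
      exact congrArg ofMask (getElem_L_lt h)

theorem cub4_small {e : ℕ} (he : e < 2 ^ 330) : cub4 e = cub 11 (fam 11 4 e) := by
  rw [cub4_eq (lt_of_lt_of_le he (Nat.pow_le_pow_right (by norm_num) (by norm_num))),
    fam_small he]
  refine Nat.eq_of_testBit_eq fun m => ?_
  by_cases h1 : m < 2 ^ 11
  · rw [testBit_cub _ h1, testBit_cub _ (lt_of_lt_of_le h1 (by norm_num))]
  · rw [testBit_cub_ge (n := 11) _ (by omega)]
    by_cases h2 : m < 2 ^ 12
    · rw [testBit_cub _ h2, decide_eq_false_iff_not]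
      intro h3
      have h4 := (sub_of_mem_fam (by norm_num) h3).1
      rw [mk_ofMask (lt_of_lt_of_le h2 (by norm_num))] at h4
      exact h1 h4
    · rw [testBit_cub_ge _ (by omega)]

/-! ### packing -/

/-- the cubes of the codes as lanes of one number -/
noncomputable def packC : List ℕ → ℕ
  | [] => 0
  | e :: es => Nat.lor (cub4 e) (Nat.shiftLeft (packC es) 2048)

theorem fld_packC : ∀ {es : List ℕ}, (∀ e ∈ es, e < 2 ^ 330) → ∀ {i : ℕ} (h : i < es.length),
    fld 2048 (packC es) i = cub 11 (fam 11 4 es[i])
  | [], _, i, h => absurd h (Nat.not_lt_zero i)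
  | e :: es, he, i, h => by
    have h1 : cub4 e < 2 ^ 2048 := by
      rw [cub4_small (he e List.mem_cons_self)]
      exact cub_lt 11 _
    have ex : packC (e :: es) = cub4 e ||| (packC es <<< 2048) := rfl
    refine Nat.eq_of_testBit_eq fun t => ?_
    rw [testBit_fld', ex, Nat.testBit_or, Nat.testBit_shiftLeft]
    cases i with
    | zero =>
      rw [Nat.mul_zero, Nat.zero_add]
      have e2 : (e :: es)[0] = e := rfl
      rw [e2, ← cub4_small (he e List.mem_cons_self)]
      by_cases ht : t < 2048
      · rw [decide_eq_true ht, decide_eq_false (by omega : ¬ t ≥ 2048)]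
        simp
      · rw [decide_eq_false ht, Bool.and_false]
        symm
        exact Nat.testBit_lt_two_pow (lt_of_lt_of_le h1 (Nat.pow_le_pow_right (by norm_num)
          (not_lt.1 ht)))
    | succ i =>
      have h2 := fld_packC (es := es) (fun x hx => he x (List.mem_cons_of_mem _ hx))
        (i := i) (Nat.lt_of_succ_lt_succ h)
      have e2 : (e :: es)[i + 1] = es[i]'(Nat.lt_of_succ_lt_succ h) := rfl
      rw [e2, ← h2, testBit_fld']
      have h3 : 2048 ≤ 2048 * (i + 1) + t := by omega
      have h4 : 2048 * (i + 1) + t - 2048 = 2048 * i + t := by omega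
      rw [Nat.testBit_lt_two_pow (lt_of_lt_of_le h1 (Nat.pow_le_pow_right (by norm_num) h3)),
        decide_eq_true h3, h4, Bool.false_or, Bool.true_and]

theorem packC_lt : ∀ {es : List ℕ}, (∀ e ∈ es, e < 2 ^ 330) →
    packC es < 2 ^ (2048 * es.length)
  | [], _ => by
    show (0 : ℕ) < _
    exact Nat.two_pow_pos _
  | e :: es, he => by
    have h1 : cub4 e < 2 ^ 2048 := by
      rw [cub4_small (he e List.mem_cons_self)]
      exact cub_lt 11 _
    have h2 := packC_lt (es := es) fun x hx => he x (List.mem_cons_of_mem _ hx)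
    have ex : packC (e :: es) = cub4 e ||| (packC es <<< 2048) := rfl
    rw [ex, List.length_cons, show 2048 * (es.length + 1) = 2048 * es.length + 2048 by ring]
    refine Nat.or_lt_two_pow (lt_of_lt_of_le h1 (Nat.pow_le_pow_right (by norm_num) (by omega))) ?_
    rw [Nat.shiftLeft_eq, pow_add]
    exact Nat.mul_lt_mul_of_pos_right h2 (Nat.two_pow_pos _)

/-! ### parity -/

/-- parity plane -/
def xA (K R X : ℕ) : ℕ → ℕ
  | 0 => R
  | k + 1 => Nat.xor (xA K R X k) (yp K k X)

theorem testBit_xA (K R X g : ℕ) : ∀ k, (xA K R X k).testBit g = decide (Odd (cA K R X k g))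
  | 0 => by
    have e : cA K R X 0 g = (R.testBit g).toNat := by
      unfold cA
      rw [range_zero, sum_empty, add_zero]
    rw [e]
    show R.testBit g = _
    cases R.testBit g <;> decide
  | k + 1 => by
    have e : cA K R X (k + 1) g = cA K R X k g + ((yp K k X).testBit g).toNat := by
      unfold cA
      rw [sum_range_succ, ← add_assoc]
    have e2 : xA K R X (k + 1) = xA K R X k ^^^ yp K k X := rfl
    rw [e, e2, Nat.testBit_xor, testBit_xA K R X g k, Bool.eq_iff_iff, decide_eq_true_eq,
      Nat.odd_add]
    cases (yp K k X).testBit g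
    · simp
    · simp

/-- the triples of `{0, .., 10}` -/
def w3 : ℕ := cubL (L 11 3)

theorem testBit_w3 {m : ℕ} : w3.testBit m = decide (m < 2 ^ 11 ∧ (ofMask m).card = 3) := by
  unfold w3
  rw [Bool.eq_iff_iff, testBit_cubL, decide_eq_true_eq, mem_L (by norm_num)]

/-- every entry of the chunk is an odd family if the type is -/
theorem oddFam_of_plane {N R X T e i : ℕ} (hi : i < N)
    (hR : fld 2048 R i = cub 11 (fam 11 3 T)) (hX : fld 2048 X i = cub 11 (fam 11 4 e))
    (hT : OddFam 2 (below 11) (fam 11 3 T))
    (h : ∀ m < 2 ^ 11, (ofMask m).card = 3 →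
      (xA (2048 * N) R X 11).testBit (2048 * i + m) = true) :
    OddFam 3 (below 12) (ent T e) := by
  have e12 : below 12 = insert 11 (below 11) := by decide
  refine ⟨?_, ?_⟩
  · intro b hb
    unfold ent at hb
    rw [mem_union, mem_cone (notMem_T T)] at hb
    rcases hb with ⟨h1, h2⟩ | h1
    · have h3 := hT.1 _ h2
      rw [card_erase_of_mem h1] at h3
      refine ⟨?_, by omega⟩
      rw [e12]
      intro x hx
      by_cases hx11 : x = 11
      · rw [hx11]
        exact mem_insert_self _ _
      · exact mem_insert_of_mem (h3.1 (mem_erase.2 ⟨hx11, hx⟩))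
    · have h3 := sub_of_mem_fam (by norm_num) h1
      refine ⟨?_, h3.2⟩
      intro x hx
      have h4 := mk_lt_iff.1 h3.1 x hx
      exact Pool.Agent.Helper79.CV.below_mono (by norm_num) (Pool.Agent.Helper79.CV.mem_below.2 h4)
  · intro s hs hc
    by_cases h11 : (11 : Fin 13) ∈ s
    · -- a triple through the apex
      have h1 : cnt (ent T e) s = cnt (fam 11 3 T) (s.erase 11) := by
        unfold ent
        rw [cnt_union (disj_ent T e)]
        have h2 : cnt (fam 11 4 e) s = 0 := by
          unfold cnt
          rw [card_eq_zero, filter_eq_empty_iff]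
          intro b hb hsb
          exact notMem_fam (k := 4) 11 hb (hsb h11)
        rw [h2, add_zero]
        unfold cnt
        refine card_bij' (fun b _ => b.erase 11) (fun b _ => insert 11 b) ?_ ?_ ?_ ?_
        · intro b hb
          rw [mem_filter, mem_cone (notMem_T T)] at hb
          rw [mem_filter]
          exact ⟨hb.1.2, erase_subset_erase _ hb.2⟩
        · intro b hb
          rw [mem_filter] at hb
          rw [mem_filter, mem_cone (notMem_T T)]
          refine ⟨⟨mem_insert_self _ _, by rw [erase_insert (notMem_T T b hb.1)]; exact hb.1⟩, ?_⟩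
          intro x hx
          by_cases hx11 : x = 11
          · rw [hx11]
            exact mem_insert_self _ _
          · exact mem_insert_of_mem (hb.2 (mem_erase.2 ⟨hx11, hx⟩))
        · intro b hb
          rw [mem_filter, mem_cone (notMem_T T)] at hb
          exact insert_erase hb.1.1
        · intro b hb
          rw [mem_filter] at hb
          exact erase_insert (notMem_T T b hb.1)
      rw [h1]
      refine hT.2 _ ?_ ?_
      · intro x hx
        rw [mem_erase] at hx
        have h2 := hs hx.2
        rw [e12, mem_insert] at h2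
        exact h2.resolve_left hx.1
      · rw [card_erase_of_mem h11, hc]
    · have hs11 : ∀ x ∈ s, x.val < 11 := by
        intro x hx
        have h2 := hs hx
        rw [e12, mem_insert] at h2
        rcases h2 with h2 | h2
        · exact absurd (h2 ▸ hx) h11
        · exact Pool.Agent.Helper79.CV.mem_below.1 h2
      have hm : mk s < 2 ^ 11 := mk_lt_iff.2 hs11
      have h2 := h (mk s) hm (by rw [ofMask_mk]; exact hc)
      rw [testBit_xA, decide_eq_true_eq, cA_eq hi hm hR hX, ofMask_mk, if_pos hc] at h2
      exact h2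

/-! ### one chunk -/

/-- the check of the chunk `X` with the codes `es`; `c` = the cube of the type -/
noncomputable def okCh (c : ℕ) (es : List ℕ) (X : ℕ) : Bool :=
  (es.all fun e => Nat.blt e (2 ^ 330)) &&
    frc (packC es) fun Q => frc es.length fun N => frc (Nat.mul c (rep 2048 N)) fun R =>
      frc (Nat.mul w3 (rep 2048 N)) fun W =>
        Nat.beq (layers N R Q) X && Nat.beq (Nat.land (xA (Nat.mul 2048 N) R Q 11) W) W

theorem fld_mul_rep {c N i : ℕ} (hc : c < 2 ^ 2048) (hi : i < N) :
    fld 2048 (c * rep 2048 N) i = c := by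
  rw [mul_rep (by norm_num), fld_pk (fun _ _ => hc) hi]

theorem mul_rep_lt {c N : ℕ} (hc : c < 2 ^ 2048) : c * rep 2048 N < 2 ^ (2048 * N) := by
  rw [mul_rep (by norm_num)]
  exact pk_lt fun _ _ => hc

theorem okCh_spec {T c : ℕ} (hc : c = cub 11 (fam 11 3 T)) (hT : OddFam 2 (below 11) (fam 11 3 T))
    {es : List ℕ} {X : ℕ} (h : okCh c es X = true) {i : ℕ} (hi : i < es.length) :
    fld 2048 X i = cub 11 (laneF (ent T es[i])) := by
  unfold okCh at h
  rw [frc_eq, frc_eq, frc_eq, frc_eq, Bool.and_eq_true, Bool.and_eq_true, List.all_eq_true, Nat.beq_eq,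
    Nat.beq_eq] at h
  obtain ⟨h1, h2, h3⟩ := h
  have he : ∀ e ∈ es, e < 2 ^ 330 := fun e h4 => by
    have h5 := h1 e h4
    rwa [Nat.blt_eq] at h5
  have hcl : c < 2 ^ 2048 := by
    rw [hc]
    exact cub_lt 11 _
  have hwl : w3 < 2 ^ 2048 := by
    refine Nat.lt_pow_two_of_testBit _ fun m hm => ?_
    rw [testBit_w3, decide_eq_false_iff_not]
    rintro ⟨h4, -⟩
    norm_num at h4
    omega
  have eR : Nat.mul c (rep 2048 es.length) = c * rep 2048 es.length := rfl
  have eW : Nat.mul w3 (rep 2048 es.length) = w3 * rep 2048 es.length := rfl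
  rw [eR] at h2 h3
  rw [eW] at h3
  have hR : ∀ i < es.length, fld 2048 (c * rep 2048 es.length) i = cub 11 (fam 11 3 T) :=
    fun i hi => by rw [fld_mul_rep hcl hi, hc]
  have hX : ∀ i, ∀ h : i < es.length, fld 2048 (packC es) i = cub 11 (fam 11 4 es[i]) :=
    fun i hi => fld_packC he hi
  rw [← h2]
  refine fld_layers (mul_rep_lt hcl) (packC_lt he)
    (fun i hi => ⟨T, es[i], hR i hi, hX i hi⟩) hi (hR i hi) (hX i hi) ?_
  refine oddFam_of_plane hi (hR i hi) (hX i hi) hT fun m hm hm3 => ?_
  have h4 : (w3 * rep 2048 es.length).testBit (2048 * i + m) = true := by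
    rw [← testBit_lane (by norm_num at hm; omega), fld_mul_rep hwl hi, testBit_w3,
      decide_eq_true_eq]
    exact ⟨hm, hm3⟩
  have h5 : ((xA (2048 * es.length) (c * rep 2048 es.length) (packC es) 11) &&&
      (w3 * rep 2048 es.length)).testBit (2048 * i + m) = true := by
    have h6 : (xA (2048 * es.length) (c * rep 2048 es.length) (packC es) 11) &&&
      (w3 * rep 2048 es.length) = w3 * rep 2048 es.length := h3
    rw [h6]
    exact h4
  rw [Nat.testBit_and, Bool.and_eq_true] at h5
  exact h5.1

/-! ### a list of chunks -/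

/-- the check of the chunks `ch` with the entries `g`, `n` lanes per chunk -/
noncomputable def okG (c n : ℕ) (ch : List ℕ) : List (ℕ × ℕ) → Bool :=
  @List.rec ℕ (fun _ => List (ℕ × ℕ) → Bool) (fun g => g.isEmpty)
    (fun X _ ih g => (okCh c ((g.take n).map Prod.snd) X) && ih (g.drop n)) ch

theorem tabChunks_of_okG {T c n : ℕ} (hn : 0 < n) (hc : c = cub 11 (fam 11 3 T))
    (hT : OddFam 2 (below 11) (fam 11 3 T)) : ∀ {ch : List ℕ} {g : List (ℕ × ℕ)},
    okG c n ch g = true → TabChunks T n g ch
  | [], g, h => by
    have h1 : g.isEmpty = true := h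
    rw [List.isEmpty_iff] at h1
    subst h1
    exact fun i hi => absurd hi (Nat.not_lt_zero i)
  | X :: ch, g, h => by
    have h1 : (okCh c ((g.take n).map Prod.snd) X && okG c n ch (g.drop n)) = true := h
    rw [Bool.and_eq_true] at h1
    have ih := tabChunks_of_okG hn hc hT h1.2
    intro i hi
    by_cases hin : i < n
    · rw [Nat.div_eq_of_lt hin, Nat.mod_eq_of_lt hin]
      have hi' : i < ((g.take n).map Prod.snd).length := by
        rw [List.length_map, List.length_take]
        omega
      have h2 := okCh_spec hc hT h1.1 hi'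
      have h3 : ((g.take n).map Prod.snd)[i] = (g[i]).2 := by
        rw [List.getElem_map, List.getElem_take]
      rw [h3] at h2
      exact h2
    · have hi' : i - n < (g.drop n).length := by
        rw [List.length_drop]
        omega
      have h2 := ih (i - n) hi'
      have h3 : (g.drop n)[i - n] = g[i] := by
        rw [List.getElem_drop]
        congr 1
        omega
      have h4 : i / n = (i - n) / n + 1 := by
        rw [← Nat.add_div_right _ hn, Nat.sub_add_cancel (not_lt.1 hin)]
      have h5 : i % n = (i - n) % n := by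
        rw [← Nat.add_mod_right (i - n) n, Nat.sub_add_cancel (not_lt.1 hin)]
      rw [h3] at h2
      rw [h4, h5, List.getD_cons_succ]
      exact h2

/-- the number of chunks -/
def lenOK (n N : ℕ) (ch : List ℕ) : Bool := Nat.beq ch.length (Nat.succ (Nat.div (Nat.sub N 1) n))

theorem lenOK_spec {n N : ℕ} {ch : List ℕ} (h : lenOK n N ch = true) :
    ch.length = (N - 1) / n + 1 := by
  unfold lenOK at h
  rw [Nat.beq_eq] at h
  exact h

/-! ### the type -/

/-- every pair is covered oddly; `C` = the cube of the type -/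
def okT (C : ℕ) : Bool :=
  (L 11 2).all fun m => Nat.beq
    ((∑ p ∈ range 11, (!m.testBit p && C.testBit (m + 2 ^ p)).toNat) % 2) 1

theorem okT_spec {T : ℕ} (h : okT (cub 11 (fam 11 3 T)) = true) :
    OddFam 2 (below 11) (fam 11 3 T) := by
  unfold okT at h
  rw [List.all_eq_true] at h
  refine ⟨?_, ?_⟩
  · intro b hb
    have h3 := sub_of_mem_fam (by norm_num) hb
    exact ⟨fun x hx => Pool.Agent.Helper79.CV.mem_below.2 (mk_lt_iff.1 h3.1 x hx), h3.2⟩
  · intro s hs hc
    have hm : mk s < 2 ^ 11 := mk_lt_iff.2 fun x hx => Pool.Agent.Helper79.CV.mem_below.1 (hs hx)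
    have h1 := h (mk s) ((mem_L (by norm_num)).2 ⟨hm, by rw [ofMask_mk]; exact hc⟩)
    rw [Nat.beq_eq] at h1
    rw [cnt_above hc, Nat.odd_iff]
    refine Eq.trans (congrArg (fun x => x % 2) (sum_congr rfl fun p hp => ?_)) h1
    have hp' := mem_range.1 hp
    rw [dif_pos (by omega)]
    congr 1
    cases hb : (mk s).testBit p
    · have h2 : mk s + 2 ^ p < 2 ^ 11 := add_two_pow_lt (n := 11) hp' hm hb
      have h3 : ofMask (mk s + 2 ^ p) = insert (⟨p, by omega⟩ : Fin 13) s := by
        have h4 := ofMask_add_of_not (⟨p, by omega⟩ : Fin 13) hb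
        rw [ofMask_mk] at h4
        exact h4
      have h4 : (⟨p, by omega⟩ : Fin 13) ∉ s := by
        intro h5
        have h6 := testBit_mk s (⟨p, by omega⟩ : Fin 13)
        rw [decide_eq_true h5] at h6
        have h7 : (mk s).testBit p = true := h6
        rw [hb] at h7
        exact Bool.false_ne_true h7
      rw [testBit_cub _ h2, h3]
      simp [h4]
    · have h4 : (⟨p, by omega⟩ : Fin 13) ∈ s := by
        have h6 := testBit_mk s (⟨p, by omega⟩ : Fin 13)
        have h7 : (mk s).testBit p = decide ((⟨p, by omega⟩ : Fin 13) ∈ s) := h6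
        rw [hb] at h7
        exact of_decide_eq_true h7.symm
      simp [h4]

end Pool.Agent.Helper20.TY
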