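import Pool.Agent.Helper20.TY.ChunkChk

/-!
MP_8ee768_co, project TH-Y', stage F: groups of chunks padded in front (helper44's format).

A group is a list `g` of (class, code), sorted by class, in chunks of `n` lanes with `p` zero lanes at
the beginning of the first chunk: entry `i` is lane `(i + p) % n` of chunk `(i + p) / n`. The entries from
number `s` on are the lanes from number `s + p` on.
-/

set_option autoImplicit false

namespace Pool.Agent.Helper20.TY

open Finset
open Pool.Agent.Helper63.SIMD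
open Pool.Agent.Helper79.CV
open Pool.Agent.Helper33.CV (cub valL)
open Pool.Agent.Helper91.TY (runC okW prs wpc fld_runC)
open Pool.Agent.Helper82.TY (below)

/-- entry `i` is lane `(i + p) % n` of chunk `(i + p) / n` -/
def TabF (T n p : ℕ) (g : List (ℕ × ℕ)) (ch : List ℕ) : Prop :=
  ∀ i (h : i < g.length), (i + p) / n < ch.length ∧
    fld 2048 (ch.getD ((i + p) / n) 0) ((i + p) % n) = cub 11 (laneF (ent T (g[i]).2))

/-- the row chunks from lane `s` on -/
def selRowF (J n s : ℕ) (ch : List ℕ) : List ℕ :=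
  onHead (jnkLo J (Nat.mod s n)) (ch.drop (Nat.div s n))

theorem sel_head {n s : ℕ} {f : ℕ → ℕ} (hf : ∀ X i, s % n ≤ i → fld 2048 (f X) i = fld 2048 X i)
    (hn : 0 < n) {ch : List ℕ} {i : ℕ} (hs : s ≤ i) (hi : i / n < ch.length) :
    fld 2048 (ch.getD (i / n) 0) (i % n) ∈ Lanes n (onHead f (ch.drop (s / n))) := by
  have hdl : s / n ≤ i / n := Nat.div_le_div_right hs
  have hk : i / n - s / n < (ch.drop (s / n)).length := by
    rw [List.length_drop]
    omega
  have hk1 : i / n - s / n < (onHead f (ch.drop (s / n))).length := by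
    rw [length_onHead]
    exact hk
  refine ⟨(onHead f (ch.drop (s / n)))[i / n - s / n], List.getElem_mem _, i % n,
    Nat.mod_lt _ hn, ?_⟩
  have h1 : (ch.drop (s / n))[i / n - s / n] = ch.getD (i / n) 0 := by
    rw [List.getElem_drop, List.getD_eq_getElem _ _ hi]
    congr 1
    omega
  rw [getElem_onHead hk1 hk, h1]
  split_ifs with h3
  · symm
    refine hf _ _ ?_
    have h4 : s / n = i / n := by omega
    have h5 := Nat.div_add_mod s n
    have h6 := Nat.div_add_mod i n
    rw [h4] at h5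
    omega
  · rfl

theorem sel_rowF {J n s : ℕ} (hn : 0 < n) {ch : List ℕ} {i : ℕ} (hs : s ≤ i)
    (hi : i / n < ch.length) :
    fld 2048 (ch.getD (i / n) 0) (i % n) ∈ Lanes n (selRowF J n s ch) :=
  sel_head (fun X _ h => fld_jnkLo h J X) hn hs hi

theorem sel_colF {n s : ℕ} (hn : 0 < n) {ch : List ℕ} {i : ℕ} (hs : s ≤ i)
    (hi : i / n < ch.length) :
    fld 2048 (ch.getD (i / n) 0) (i % n) ∈ Lanes n (selCol n s ch) :=
  sel_head (fun X _ h => fld_clrLo h X) hn hs hi

/-- the words contain `ρ * α` for every `α` -/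
def WordsOK (ws : List (ℕ × ℕ)) (ρ : Equiv.Perm (Fin 13)) (A : Set (Equiv.Perm (Fin 13))) : Prop :=
  ∀ α ∈ A, ∃ x ∈ ws, okW 11 x.1 x.2 = true ∧ wpc (prs x.1 x.2) = ρ * α

/-- the cubes of a group are lanes of the relabelled row chunks -/
theorem cubesA_rowF {T n K J j lo hi s p : ℕ} (hn : 0 < n) (hK : K = 2 ^ 11 * n)
    {ρ : Equiv.Perm (Fin 13)} {A : Set (Equiv.Perm (Fin 13))} {l g : List (ℕ × ℕ)}
    (hg : ∀ q ∈ l, lo ≤ q.1 → q.1 < hi → q ∈ g) {ch : List ℕ} (hch : TabF T n p g ch)
    (hs : sufOK j s g = true) {ws : List (ℕ × ℕ)} (hw : WordsOK ws ρ A) :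
    cubesA T j lo hi ρ A l ⊆ Lanes n (relab K ws (selRowF J n (s + p) ch)) := by
  intro u hu
  obtain ⟨i, hi, h1, α, hα, h2⟩ := cubesA_group hg hu
  obtain ⟨x, hx, hok, h3⟩ := hw α hα
  rw [h2, ← h3]
  refine lanes_relab hK hx hok ?_
  obtain ⟨h4, h5⟩ := hch i hi
  rw [← h5]
  have h6 := sufOK_spec hs hi h1
  exact sel_rowF hn (by omega) h4

/-- the cubes of a group are lanes of the relabelled column chunks -/
theorem cubesA_colF {T n K j lo hi s p : ℕ} (hn : 0 < n) (hK : K = 2 ^ 11 * n)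
    {ρ : Equiv.Perm (Fin 13)} {A : Set (Equiv.Perm (Fin 13))} {l g : List (ℕ × ℕ)}
    (hg : ∀ q ∈ l, lo ≤ q.1 → q.1 < hi → q ∈ g) {ch : List ℕ} (hch : TabF T n p g ch)
    (hs : sufOK j s g = true) {ws : List (ℕ × ℕ)} (hw : WordsOK ws ρ A) :
    cubesA T j lo hi ρ A l ⊆ Lanes n (relab K ws (selCol n (s + p) ch)) := by
  intro u hu
  obtain ⟨i, hi, h1, α, hα, h2⟩ := cubesA_group hg hu
  obtain ⟨x, hx, hok, h3⟩ := hw α hα
  rw [h2, ← h3]
  refine lanes_relab hK hx hok ?_
  obtain ⟨h4, h5⟩ := hch i hi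
  rw [← h5]
  have h6 := sufOK_spec hs hi h1
  exact sel_colF hn (by omega) h4

theorem lanes_append {n : ℕ} {cs cs' : List ℕ} :
    Lanes n (cs ++ cs') = Lanes n cs ∪ Lanes n cs' := by
  ext u
  constructor
  · rintro ⟨X, hX, i, hi, h⟩
    rcases List.mem_append.1 hX with h1 | h1
    · exact Or.inl ⟨X, h1, i, hi, h⟩
    · exact Or.inr ⟨X, h1, i, hi, h⟩
  · rintro (⟨X, hX, i, hi, h⟩ | ⟨X, hX, i, hi, h⟩)
    · exact ⟨X, List.mem_append.2 (Or.inl hX), i, hi, h⟩
    · exact ⟨X, List.mem_append.2 (Or.inr hX), i, hi, h⟩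

theorem lanes_mono {n : ℕ} {cs cs' : List ℕ} (h : ∀ X ∈ cs, X ∈ cs') :
    Lanes n cs ⊆ Lanes n cs' := by
  rintro u ⟨X, hX, i, hi, h1⟩
  exact ⟨X, h X hX, i, hi, h1⟩

theorem relab_append {K : ℕ} {ws : List (ℕ × ℕ)} {cs cs' : List ℕ} {X : ℕ}
    (h : X ∈ relab K ws cs ∨ X ∈ relab K ws cs') : X ∈ relab K ws (cs ++ cs') := by
  unfold relab at h ⊢
  rw [List.mem_flatMap]
  rcases h with h | h
  · rw [List.mem_flatMap] at h
    obtain ⟨w, hw, h1⟩ := h
    exact ⟨w, hw, by rw [List.map_append, List.mem_append]; exact Or.inl h1⟩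
  · rw [List.mem_flatMap] at h
    obtain ⟨w, hw, h1⟩ := h
    exact ⟨w, hw, by rw [List.map_append, List.mem_append]; exact Or.inr h1⟩

/-- splitting the entries of a range into two groups -/
theorem cubesA_split {T j lo hi : ℕ} {ρ : Equiv.Perm (Fin 13)} {A : Set (Equiv.Perm (Fin 13))}
    {l g g' : List (ℕ × ℕ)} (hg : ∀ q ∈ l, lo ≤ q.1 → q.1 < hi → q ∈ g ∨ q ∈ g') :
    cubesA T j lo hi ρ A l ⊆ cubesA T j lo hi ρ A g ∪ cubesA T j lo hi ρ A g' := by
  rintro u ⟨k, e, h1, h2, h3, h4⟩
  rcases hg _ h1 h3.1 h3.2 with h | h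
  · exact Or.inl ⟨k, e, h, h2, h3, h4⟩
  · exact Or.inr ⟨k, e, h, h2, h3, h4⟩

/-- rows of two groups, one list: for every word the chunks of the first, then of the second -/
theorem cubesA_rowF2 {T n K J j lo hi s p s' p' : ℕ} (hn : 0 < n) (hK : K = 2 ^ 11 * n)
    {ρ : Equiv.Perm (Fin 13)} {A : Set (Equiv.Perm (Fin 13))} {l g g' : List (ℕ × ℕ)}
    (hg : ∀ q ∈ l, lo ≤ q.1 → q.1 < hi → q ∈ g ∨ q ∈ g') {ch ch' : List ℕ}
    (hch : TabF T n p g ch) (hch' : TabF T n p' g' ch') (hs : sufOK j s g = true)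
    (hs' : sufOK j s' g' = true) {ws : List (ℕ × ℕ)} (hw : WordsOK ws ρ A) :
    cubesA T j lo hi ρ A l ⊆
      Lanes n (relab K ws (selRowF J n (s + p) ch ++ selRowF J n (s' + p') ch')) := by
  intro u hu
  rcases cubesA_split hg hu with h | h
  · exact lanes_mono (fun X hX => relab_append (Or.inl hX))
      (cubesA_rowF hn hK (fun q hq _ _ => hq) hch hs hw h)
  · exact lanes_mono (fun X hX => relab_append (Or.inr hX))
      (cubesA_rowF hn hK (fun q hq _ _ => hq) hch' hs' hw h)

/-- columns of two groups -/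
theorem cubesA_colF2 {T n K j lo hi s p s' p' : ℕ} (hn : 0 < n) (hK : K = 2 ^ 11 * n)
    {ρ : Equiv.Perm (Fin 13)} {A : Set (Equiv.Perm (Fin 13))} {l g g' : List (ℕ × ℕ)}
    (hg : ∀ q ∈ l, lo ≤ q.1 → q.1 < hi → q ∈ g ∨ q ∈ g') {ch ch' : List ℕ}
    (hch : TabF T n p g ch) (hch' : TabF T n p' g' ch') (hs : sufOK j s g = true)
    (hs' : sufOK j s' g' = true) {ws : List (ℕ × ℕ)} (hw : WordsOK ws ρ A) :
    cubesA T j lo hi ρ A l ⊆
      Lanes n (relab K ws (selCol n (s + p) ch ++ selCol n (s' + p') ch')) := by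
  intro u hu
  rcases cubesA_split hg hu with h | h
  · exact lanes_mono (fun X hX => relab_append (Or.inl hX))
      (cubesA_colF hn hK (fun q hq _ _ => hq) hch hs hw h)
  · exact lanes_mono (fun X hX => relab_append (Or.inr hX))
      (cubesA_colF hn hK (fun q hq _ _ => hq) hch' hs' hw h)

/-! ### the check of a group -/

/-- the check of a group padded in front -/
noncomputable def okGF (c n p : ℕ) (ch : List ℕ) (g : List (ℕ × ℕ)) : Bool :=
  @List.rec ℕ (fun _ => Bool) g.isEmpty
    (fun X ch' _ => (okCh c ((g.take (Nat.sub n p)).map Prod.snd)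
      (Nat.shiftRight X (Nat.mul 2048 p))) && okG c n ch' (g.drop (Nat.sub n p))) ch

theorem fld_shift (p X i : ℕ) : fld 2048 (X >>> (2048 * p)) i = fld 2048 X (i + p) := by
  refine Nat.eq_of_testBit_eq fun t => ?_
  rw [testBit_fld', testBit_fld', Nat.testBit_shiftRight]
  congr 2
  ring

theorem okG_len {c n : ℕ} (hn : 0 < n) : ∀ {ch : List ℕ} {g : List (ℕ × ℕ)},
    okG c n ch g = true → ∀ i < g.length, i / n < ch.length
  | [], g, h, i, hi => by
    have h1 : g.isEmpty = true := h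
    rw [List.isEmpty_iff] at h1
    subst h1
    exact absurd hi (Nat.not_lt_zero i)
  | X :: ch, g, h, i, hi => by
    have h1 : (okCh c ((g.take n).map Prod.snd) X && okG c n ch (g.drop n)) = true := h
    rw [Bool.and_eq_true] at h1
    rw [List.length_cons]
    by_cases hin : i < n
    · rw [Nat.div_eq_of_lt hin]
      omega
    · have h2 := okG_len hn h1.2 (i - n) (by
        rw [List.length_drop]
        omega)
      have h4 : i / n = (i - n) / n + 1 := by
        rw [← Nat.add_div_right _ hn, Nat.sub_add_cancel (not_lt.1 hin)]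
      omega

theorem tabF_of_okGF {T c n p : ℕ} (hp : p < n) (hc : c = cub 11 (fam 11 3 T))
    (hT : OddFam 2 (below 11) (fam 11 3 T)) {ch : List ℕ} {g : List (ℕ × ℕ)}
    (h : okGF c n p ch g = true) : TabF T n p g ch := by
  have hn : 0 < n := by omega
  cases ch with
  | nil =>
    have h1 : g.isEmpty = true := h
    rw [List.isEmpty_iff] at h1
    subst h1
    exact fun i hi => absurd hi (Nat.not_lt_zero i)
  | cons X ch =>
    have h1 : (okCh c ((g.take (n - p)).map Prod.snd) (X >>> (2048 * p)) &&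
      okG c n ch (g.drop (n - p))) = true := h
    rw [Bool.and_eq_true] at h1
    have ih := tabChunks_of_okG hn hc hT h1.2
    have hl := okG_len hn h1.2
    intro i hi
    by_cases hin : i < n - p
    · rw [Nat.div_eq_of_lt (by omega : i + p < n), Nat.mod_eq_of_lt (by omega : i + p < n)]
      have hi' : i < ((g.take (n - p)).map Prod.snd).length := by
        rw [List.length_map, List.length_take]
        omega
      have h2 := okCh_spec hc hT h1.1 hi'
      have h3 : ((g.take (n - p)).map Prod.snd)[i] = (g[i]).2 := by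
        rw [List.getElem_map, List.getElem_take]
      rw [h3, fld_shift] at h2
      exact ⟨Nat.succ_pos _, h2⟩
    · have hi' : i - (n - p) < (g.drop (n - p)).length := by
        rw [List.length_drop]
        omega
      have h2 := ih (i - (n - p)) hi'
      have h6 := hl (i - (n - p)) hi'
      have h3 : (g.drop (n - p))[i - (n - p)] = g[i] := by
        rw [List.getElem_drop]
        congr 1
        omega
      have e : i + p = (i - (n - p)) + n := by omega
      have h4 : (i + p) / n = (i - (n - p)) / n + 1 := by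
        rw [e, Nat.add_div_right _ hn]
      have h5 : (i + p) % n = (i - (n - p)) % n := by
        rw [e, Nat.add_mod_right]
      rw [h3] at h2
      rw [h4, h5, List.getD_cons_succ, List.length_cons]
      exact ⟨Nat.succ_lt_succ h6, h2⟩

end Pool.Agent.Helper20.TY
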