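import Pool.Agent.Helper79.CV.FRoot2
import Pool.Agent.Helper79.CV.LaneMean

/-!
MP_8ee768_co, project TH-Y', stage F: the root cube with the flags of the points.

`rootF f` = cube of the quads of the code `f` (weight 4) and the bits `2 ^ z` (weight 1), `z < 10`,
of the points of degree at least `21`.
-/

set_option autoImplicit false

namespace Pool.Agent.Helper20.TY

open Finset
open Pool.Agent.Helper89.CV (OddCover ofMask)
open Pool.Agent.Helper97.CV
open Pool.Agent.Helper79.CV
open Pool.Agent.Helper33.CV (cub testBit_cub testBit_cub_ge)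

/-- the flags of the points below `n` -/
def flgN (f : ℕ) (n : ℕ) : ℕ :=
  @Nat.rec (fun _ => ℕ) 0 (fun z ih =>
    Nat.lor (bif Nat.blt 20 (dgF f z) then Nat.shiftLeft 1 (Nat.shiftLeft 1 z) else 0) ih) n

/-- the root cube with the flags of the points below `10` -/
noncomputable def rootF (f : ℕ) : ℕ := Nat.lor (cub4 f) (flgN f 10)

theorem testBit_flgN (f m : ℕ) : ∀ n, (flgN f n).testBit m = true ↔
    ∃ z < n, m = 2 ^ z ∧ 20 < dgF f z
  | 0 => by
    show (0 : ℕ).testBit m = true ↔ _
    rw [Nat.zero_testBit]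
    constructor
    · intro h
      exact absurd h Bool.false_ne_true
    · rintro ⟨z, hz, -⟩
      omega
  | n + 1 => by
    have e : flgN f (n + 1) =
        (bif Nat.blt 20 (dgF f n) then 1 <<< (1 <<< n) else 0) ||| flgN f n := rfl
    rw [e, Nat.testBit_or, Bool.or_eq_true, testBit_flgN f m n]
    constructor
    · rintro (h | ⟨z, hz, h1, h2⟩)
      · by_cases h1 : Nat.blt 20 (dgF f n) = true
        · rw [h1, cond_true, Nat.one_shiftLeft, Nat.one_shiftLeft, Nat.testBit_two_pow,
            decide_eq_true_eq] at h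
          rw [Nat.blt_eq] at h1
          exact ⟨n, by omega, h.symm, h1⟩
        · rw [Bool.not_eq_true] at h1
          rw [h1, cond_false, Nat.zero_testBit] at h
          exact absurd h Bool.false_ne_true
      · exact ⟨z, by omega, h1, h2⟩
    · rintro ⟨z, hz, h1, h2⟩
      rcases Nat.lt_succ_iff_lt_or_eq.1 hz with h3 | h3
      · exact Or.inr ⟨z, h3, h1, h2⟩
      · left
        subst h3
        have h4 : Nat.blt 20 (dgF f z) = true := by
          rw [Nat.blt_eq]
          exact h2
        rw [h4, cond_true, Nat.one_shiftLeft, Nat.one_shiftLeft, Nat.testBit_two_pow,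
          decide_eq_true_eq, h1]

theorem ofMask_two_pow' {z : Fin 13} : ofMask (2 ^ z.val) = {z} := by
  ext a
  rw [Pool.Agent.Helper79.CV.mem_ofMask, Nat.testBit_two_pow, decide_eq_true_eq, mem_singleton]
  exact ⟨fun h => Fin.ext h.symm, fun h => by rw [h]⟩

/-- the quads of the root -/
theorem rootF_quad {f m : ℕ} (hf : f < 2 ^ 495) (hm : m < 4096) (h4 : (ofMask m).card = 4) :
    (rootF f).testBit m = decide (ofMask m ∈ fam 12 4 f) := by
  have e : rootF f = cub4 f ||| flgN f 10 := rfl
  have h1 : (flgN f 10).testBit m = false := by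
    rw [← Bool.not_eq_true, testBit_flgN]
    rintro ⟨z, hz, h2, -⟩
    rw [h2, show (2 : ℕ) ^ z = 2 ^ ((⟨z, by omega⟩ : Fin 13)).val from rfl, ofMask_two_pow',
      card_singleton] at h4
    omega
  rw [e, Nat.testBit_or, h1, Bool.or_false, cub4_eq hf, testBit_cub _ (by omega : m < 2 ^ 12)]

/-- the flags of the root -/
theorem rootF_flag {f : ℕ} (hf : f < 2 ^ 495) {B : Fam} (hB : OddCover B)
    (hl : link B 12 = fam 12 4 f) {z : Fin 13} (hz : z.val < 10) :
    (rootF f).testBit (2 ^ z.val) = true ↔ 1 ≤ mm B 12 z := by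
  have e : rootF f = cub4 f ||| flgN f 10 := rfl
  have hlt : (2 : ℕ) ^ z.val < 2 ^ 12 := Nat.pow_lt_pow_right (by norm_num) (by omega)
  have h1 : (cub4 f).testBit (2 ^ z.val) = false := by
    rw [cub4_eq hf, testBit_cub _ hlt, decide_eq_false_iff_not, ofMask_two_pow']
    intro h
    have h2 := (sub_of_mem_fam (by norm_num) h).2
    rw [card_singleton] at h2
    omega
  have hdeg : dgF f z.val = 19 + 2 * mm B 12 z := by
    rw [← dgF_eq hf (p := z) (by
      have e12 : (12 : Fin 13).val = 12 := rfl
      exact Fin.lt_def.2 (by omega)), ← hl]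
    exact mm_twelve hB hz
  rw [e, Nat.testBit_or, h1, Bool.false_or, testBit_flgN]
  constructor
  · rintro ⟨y, hy, h2, h3⟩
    have h4 : z.val = y := Nat.pow_right_injective (le_refl 2) h2
    rw [← h4, hdeg] at h3
    omega
  · intro h2
    exact ⟨z.val, hz, rfl, by rw [hdeg]; omega⟩

end Pool.Agent.Helper20.TY
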