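import Pool.Agent.Helper20.TY.FrameX
import Pool.Agent.Helper20.TY.RootF
import Pool.Agent.Helper52.TY.WordLawA
import Pool.Agent.Helper28.TY.CtR
import Pool.Agent.Helper63.TY.Star2

/-!
MP_8ee768_co, project TH-Y', stage F: the engine with the callback.

The words of a match are helper52's (`Bits`, `par_word`, `pair_word`, `off_word`), the kill test is
helper97's `kilR` with `l = 8` on the points with an excess to one of `12, 11, 10` and `l = c` on the
others, threshold `89 - t`. `engOK : EngOK rootF engF2`.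
-/

set_option autoImplicit false
set_option exponentiation.threshold 2000000

namespace Pool.Agent.Helper20.TY.EngF

open Finset
open Pool.Agent.Helper89.CV (OddCover ofMask)
open Pool.Agent.Helper97.CV
open Pool.Agent.Helper97.CV.Kill10 (P1 P2 onS P1_lt P2_lt P1_le P2_le)
open Pool.Agent.Helper63.SIMD
open Pool.Agent.Helper33.CV
open Pool.Agent.Helper79.CV
open Pool.Agent.Helper82.TY (below sub_iff_below)
open Pool.Agent.Helper59.TY (spd spd_eq p2 p3)
open Pool.Agent.Helper55.TY
open Pool.Agent.Helper55.TY.M10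
open Pool.Agent.Helper38.TY (frS frS_eq ite0 ite0_false ite0_true)
open Pool.Agent.Helper97.CV.KilR (kilR kilR_ok)
open Pool.Agent.Helper63.TY (Cb Acc Agree Join star2 join_of_star2)
open Pool.Agent.Helper52.TY (ofMask_10 ofMask_11 notMem_of_lt Fam' eqU eqU_of_agree
  subset_below_ofMask fld_one)
open Pool.Agent.Helper52.TY.CbA
open Pool.Agent.Helper81.TY (bw bw_congr bw_add bw_mul bw_shr_lay lay lay_apply k1_1 k1_1_eq
  k128_1 k128_1_eq ofMask_subset_R10)

/-! ### the bits of the lanes and of the root -/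

theorem bit_LY (B : Fam) {m : ℕ} (hm : m < 2048) :
    (cub 11 (LY B)).testBit m = decide (ofMask m ∈ LY B) :=
  testBit_cub _ (by simpa using hm : m < 2 ^ 11)

theorem bit_LZ (B : Fam) {m : ℕ} (hm : m < 2048) :
    (cub 11 (LZ B)).testBit m = decide (ofMask m ∈ LZ B) :=
  testBit_cub _ (by simpa using hm : m < 2 ^ 11)

theorem sub_below10 {m : ℕ} (hm : m < 1024) : ofMask m ⊆ below 10 :=
  subset_below_ofMask (n := 10) (by simpa using hm)

theorem pow_lt' {z : Fin 13} (hz : z.val < 10) : 2 ^ z.val < 1024 :=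
  lt_of_lt_of_le (Nat.pow_lt_pow_right (by norm_num) hz) (by norm_num)

/-- the bits of a frame -/
theorem bitsF {B : Fam} {f u v : ℕ} (hf : f < 2 ^ 495) (hB : OddCover B)
    (hl : link B 12 = fam 12 4 f) (hu : cub 11 (LY B) = u) (hv : cub 11 (LZ B) = v) :
    Bits B (rootF f) u v := by
  subst hu
  subst hv
  have hroot : ∀ m, m < 4096 → (ofMask m).card = 4 → (12 : Fin 13) ∉ ofMask m →
      ((rootF f).testBit m = true ↔ insert 12 (ofMask m) ∈ B) := by
    intro m hm h4 h12
    rw [rootF_quad hf hm h4, decide_eq_true_eq, ← hl, mem_link]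
    exact ⟨fun h => h.2, fun h => ⟨h12, h⟩⟩
  refine ⟨fun r hr => ?_, fun r hr => ?_, fun r hr => ?_, fun r hr => ?_, fun r hr => ?_,
    fun r hr => ?_, fun r hr => ?_, fun z hz => ?_, fun z hz => ?_, fun z hz => ?_⟩
  · rw [mem_Rk hr]
    obtain ⟨h1, h2⟩ := mem_Q4'.1 hr
    exact hroot r (by omega) h2 (notMem_of_lt h1 (by decide))
  · rw [mem_Rk hr]
    obtain ⟨h1, h2⟩ := mem_Q4'.1 hr
    rw [bit_LY B (by omega), decide_eq_true_eq, four_LY (sub_below10 h1) h2]
  · rw [mem_Rk hr]
    obtain ⟨h1, h2⟩ := mem_Q4'.1 hr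
    rw [bit_LZ B (by omega), decide_eq_true_eq, four_LZ (sub_below10 h1) h2]
  · obtain ⟨h1, h2⟩ := mem_T3.1 hr
    have h10 := notMem_of_lt h1 (k := 10) (by decide)
    have hs : insert 10 (ofMask r) ⊆ below 11 := by
      rw [insert_subset_iff]
      exact ⟨mem_below.2 (by decide), (sub_below10 h1).trans (below_mono (by norm_num))⟩
    have hc : (insert 10 (ofMask r)).card = 4 := by rw [card_insert_of_notMem h10, h2]
    rw [bit_LY B (by omega), decide_eq_true_eq, ofMask_10 h1, mem_LY hs, hc]
    constructor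
    · rintro (h | ⟨h, -⟩ | ⟨h, -⟩)
      · exact h
      · omega
      · omega
    · exact Or.inl
  · obtain ⟨h1, h2⟩ := mem_T3.1 hr
    have h10 := notMem_of_lt h1 (k := 10) (by decide)
    have h12 := notMem_of_lt h1 (k := 12) (by decide)
    have h3 := hroot (1024 + r) (by omega) (by
      rw [ofMask_10 h1, card_insert_of_notMem h10, h2]) (by
      rw [ofMask_10 h1, mem_insert, not_or]
      exact ⟨by decide, h12⟩)
    rwa [ofMask_10 h1] at h3
  · obtain ⟨h1, h2⟩ := mem_T3.1 hr
    have h11 := notMem_of_lt h1 (k := 11) (by decide)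
    have h12 := notMem_of_lt h1 (k := 12) (by decide)
    have h3 := hroot (2048 + r) (by omega) (by
      rw [ofMask_11 (by omega), card_insert_of_notMem h11, h2]) (by
      rw [ofMask_11 (by omega), mem_insert, not_or]
      exact ⟨by decide, h12⟩)
    rwa [ofMask_11 (by omega)] at h3
  · obtain ⟨h1, h2⟩ := mem_P2'.1 hr
    have h10 := notMem_of_lt h1 (k := 10) (by decide)
    have h11 := notMem_of_lt h1 (k := 11) (by decide)
    have h12 := notMem_of_lt h1 (k := 12) (by decide)
    have h11' : (11 : Fin 13) ∉ insert 10 (ofMask r) := by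
      rw [mem_insert, not_or]
      exact ⟨by decide, h11⟩
    have e : ofMask (3072 + r) = insert 11 (insert 10 (ofMask r)) := by
      rw [show 3072 + r = 2048 + (1024 + r) by ring, ofMask_11 (by omega), ofMask_10 h1]
    have h3 := hroot (3072 + r) (by omega) (by
      rw [e, card_insert_of_notMem h11', card_insert_of_notMem h10, h2]) (by
      rw [e, mem_insert, mem_insert, not_or, not_or]
      exact ⟨by decide, by decide, h12⟩)
    rwa [e] at h3
  · exact rootF_flag hf hB hl hz
  · have h1 := pow_lt' hz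
    rw [bit_LY B (by omega), decide_eq_true_eq, ofMask_two_pow', single_LY hB hz]
  · have h1 := pow_lt' hz
    rw [bit_LZ B (by omega), decide_eq_true_eq, ofMask_two_pow', single_LZ hB hz]

/-! ### the words of the kill test -/

/-- `c` on the points where the offset is one, `8` on the others, as a word: `k6 = 6` on the points,
`cw = c` on the points, `e = 8 - c` -/
def lowF (k6 cw e A : ℕ) : ℕ :=
  Nat.add cw (Nat.mul e (Nat.land (Nat.shiftRight (Nat.add A k6) 3) k1_1))

/-- the callback of a frame -/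
def matchF (x F a b k6 cw e T u v : ℕ) : Cb := fun s c =>
  frS s u fun u => frS u v fun v =>
  frS u (maj x u v) fun J =>
  frS J (spd (lowW J u v)) fun SA =>
  frS J (spd (highW J v)) fun SB =>
  frS J (nT (Nat.land SA cT)) fun N =>
  frS J (fW F b SA SB N) fun f =>
  frS J (Nat.add a (Nat.land (Nat.add SA SB) c13)) fun A =>
  frS J (lowF k6 cw e A) fun L =>
  frS J (Nat.sub T (Nat.mod L 255)) fun T =>
  frS J (Nat.add A (Nat.sub k128_1 L)) fun AL =>
  ite0 (kilR T AL f)
    (ite0 (eqU u v) (c s)
      (mcb (kilR T AL) (spd (Nat.land (Nat.xor (Nat.xor x u) v) w4)) f s c))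
    (c s)

/-! ### the same test without forced numbers

Most matches are killed by the first test. It is evaluated here by small definitions on closed terms
(the kernel evaluates a closed term once), `matchF` runs only when a match survives. `matchP = matchF`. -/

/-- the kill test, last step: `A` = offsets, `L` = lower bounds, `f` = pair word -/
def kF5 (T A L f : ℕ) : Bool :=
  kilR (Nat.sub T (Nat.mod L 255)) (Nat.add A (Nat.sub k128_1 L)) f

/-- the kill test from the offsets and the pair word -/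
def kF4 (T A k6 cw e f : ℕ) : Bool := kF5 T A (lowF k6 cw e A) f

/-- the kill test from the two spread words -/
def kF3 (F b a k6 cw e T SA SB : ℕ) : Bool :=
  kF4 T (Nat.add a (Nat.land (Nat.add SA SB) c13)) k6 cw e (fW F b SA SB (nT (Nat.land SA cT)))

/-- the kill test from the majority word -/
def kF2 (F b a k6 cw e T J u v : ℕ) : Bool :=
  kF3 F b a k6 cw e T (spd (lowW J u v)) (spd (highW J v))

/-- the kill test of a match -/
def kF1 (F b a k6 cw e T x u v : ℕ) : Bool := kF2 F b a k6 cw e T (maj x u v) u v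

/-- the callback of a frame, killed matches first -/
def matchP (x F a b k6 cw e T u v : ℕ) : Cb := fun s c =>
  frS s u fun u => frS s v fun v =>
  ite0 (kF1 F b a k6 cw e T x u v) (matchF x F a b k6 cw e T u v s c) (c s)

/-- THE ENGINE of stage F: `R` = root cube with flags -/
def engF2 (R c t : ℕ) (ys zs : List ℕ) : Cb := fun s k =>
  rootA R fun x F a b => frS R (Nat.mul 6 k1_1) fun k6 =>
  frS R (Nat.mul (Nat.land c 6) k1_1) fun cw => frS R (Nat.sub 8 (Nat.land c 6)) fun e =>
  frS R (Nat.sub 89 t) fun T => star2 (matchP x F a b k6 cw e T) ys zs s k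

/-- the offsets as a function on sets -/
def offS (R u v : ℕ) (s : Finset (Fin 13)) : ℕ := offA R u v (mk s)

/-- the lower bounds as a function on sets -/
def lowS (c : ℕ) (a : Finset (Fin 13) → ℕ) (s : Finset (Fin 13)) : ℕ :=
  (if s.card = 1 then c &&& 6 else 0) +
    (8 - (c &&& 6)) * (if s.card = 1 then ((a s + (if s.card = 1 then 6 else 0)) / 2 ^ 3) &&& 1
      else 0)

theorem land6 : ∀ c : ℕ, (c &&& 6) % 2 = 0 ∧ c &&& 6 ≤ 6 ∧ c &&& 6 ≤ c := by
  intro c
  refine ⟨?_, Nat.and_le_right, Nat.and_le_left⟩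
  have h := Nat.testBit_and c 6 0
  rw [show Nat.testBit 6 0 = false by decide, Bool.and_false, Nat.testBit_zero] at h
  have h1 := decide_eq_false_iff_not.1 h
  omega

section
variable {B : Fam} {f R u v : ℕ}

theorem off_eq : roota R + offw (R &&& w4) u v = pk 8 1024 (offA R u v) := by
  unfold roota
  rw [offw_eq, spd_eq (lt_of_land w1_lt), ← pk_one_P1, pk_add, pk_add]
  refine pk_congr fun r _ => ?_
  unfold offA
  rw [fld_one]

theorem off_bw : roota R + offw (R &&& w4) u v = bw (offS R u v) := by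
  rw [off_eq]
  unfold bw
  refine pk_congr fun r hr => ?_
  unfold offS
  rw [mk_ofMask (lt_of_lt_of_le hr (by norm_num))]

theorem offA_zero {r : ℕ} (hr : r ∉ P1) : offA R u v r = 0 := by
  have h1 : (R &&& w1).testBit r = false := by
    rw [Nat.testBit_and, bit_w1, decide_eq_false hr, Bool.and_false]
  unfold offA onS
  rw [if_neg hr, if_neg hr, h1]
  rfl

theorem offA_le (r : ℕ) : offA R u v r ≤ 4 := by
  have := Bool.toNat_le ((R &&& w1).testBit r)
  have := Bool.toNat_le (u.testBit r)
  have := Bool.toNat_le (v.testBit r)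
  unfold offA onS
  split_ifs <;> omega

/-- the offset of a point -/
theorem offA_point (h : Bits B R u v) {z : Fin 13} (hz : z.val < 10) :
    offA R u v (2 ^ z.val) = 1 + (if 1 ≤ mm B 12 z then 1 else 0) +
      ((if 1 ≤ mm B 11 z then 1 else 0) + (if 1 ≤ mm B 10 z then 1 else 0)) := by
  have hP := two_pow_mem_P1 hz
  have key : ∀ {b : Bool} {p : Prop} [Decidable p], (b = true ↔ p) →
      b.toNat = if p then 1 else 0 := by
    intro b p _ hbp
    by_cases hp : p
    · rw [if_pos hp, hbp.2 hp]
      rfl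
    · rw [if_neg hp, Bool.eq_false_iff.2 fun h1 => hp (hbp.1 h1)]
      rfl
  have h1 : (R &&& w1).testBit (2 ^ z.val) = R.testBit (2 ^ z.val) := by
    rw [Nat.testBit_and, bit_w1, decide_eq_true hP, Bool.and_true]
  unfold offA onS
  rw [if_pos hP, if_pos hP, h1, key (h.x1 z hz), key (h.u1 z hz), key (h.v1 z hz)]

end

section
variable {B : Fam} {f c t u v : ℕ}

theorem mk_single (z : Fin 13) : Pool.Agent.Helper79.CV.mk {z} = 2 ^ z.val := by
  rw [← Pool.Agent.Helper20.TY.ofMask_two_pow', mk_ofMask (Nat.pow_lt_pow_right (by norm_num) z.isLt)]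

/-- the kill test of a match is sound -/
theorem kill_ok (hf : f < 2 ^ 495) (hS : StarCtx f c t 0 B) (h : Bits B (rootF f) u v) :
    KillOK (kilR (Nat.sub (Nat.sub 89 t) (Nat.mod (bw (lowS c (offS (rootF f) u v))) 255))
      (Nat.add (bw (offS (rootF f) u v)) (Nat.sub k128_1 (bw (lowS c (offS (rootF f) u v)))))) B := by
  obtain ⟨hc2, hc6, hcc⟩ := land6 c
  obtain ⟨s0, hlow⟩ := hS.low
  have hoff : ∀ z : Fin 13, z.val < 10 → offS (rootF f) u v {z} =
      1 + (if 1 ≤ mm B 12 z then 1 else 0) +
      ((if 1 ≤ mm B 11 z then 1 else 0) + (if 1 ≤ mm B 10 z then 1 else 0)) := by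
    intro z hz
    unfold offS
    rw [mk_single]
    exact offA_point h hz
  have hle4 : ∀ s, offS (rootF f) u v s ≤ 4 := fun s => offA_le _
  refine Pool.Agent.Helper28.TY.kilR_words hS.odd hS.le157 ?_ ?_ ?_ ?_ ?_ ?_ ?_
  · have := hS.tot
    show 88 < 89 - t + _
    omega
  · intro s _
    have := hle4 s
    omega
  · intro z hz
    rw [hoff z hz]
    have a1 : (if 1 ≤ mm B 12 z then 1 else 0) ≤ mm B 12 z := by split_ifs <;> omega
    have a2 : (if 1 ≤ mm B 11 z then 1 else 0) ≤ mm B 11 z := by split_ifs <;> omega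
    have a3 : (if 1 ≤ mm B 10 z then 1 else 0) ≤ mm B 10 z := by split_ifs <;> omega
    omega
  · intro s _
    unfold lowS
    have h1 : ((offS (rootF f) u v s + (if s.card = 1 then 6 else 0)) / 2 ^ 3) &&& 1 ≤ 1 :=
      Nat.and_le_right
    split_ifs
    · have h2 := Nat.mul_le_mul_left (8 - (c &&& 6)) h1
      split_ifs at h2
      omega
    · omega
  · intro s _ hs
    unfold lowS
    rw [if_neg hs, if_neg hs]
    rfl
  · intro z hz
    obtain ⟨hl1, hl2⟩ := hlow z hz
    have e0 : (if z = s0 then 0 else 0) = 0 := by split_ifs <;> rfl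
    rw [e0, Nat.add_zero] at hl1
    unfold lowS
    rw [card_singleton, if_pos rfl, if_pos rfl, if_pos rfl, hoff z hz]
    by_cases hn : Nbr B z
    · have h8 := hl2 hn
      rw [e0, Nat.add_zero] at h8
      have h1 : ((1 + (if 1 ≤ mm B 12 z then 1 else 0) + ((if 1 ≤ mm B 11 z then 1 else 0) +
          (if 1 ≤ mm B 10 z then 1 else 0)) + 6) / 2 ^ 3) &&& 1 ≤ 1 := Nat.and_le_right
      have h2 := Nat.mul_le_mul_left (8 - (c &&& 6)) h1
      omega
    · have n1 : ¬ 1 ≤ mm B 12 z := fun h => hn (Or.inl h)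
      have n2 : ¬ 1 ≤ mm B 11 z := fun h => hn (Or.inr (Or.inl h))
      have n3 : ¬ 1 ≤ mm B 10 z := fun h => hn (Or.inr (Or.inr h))
      rw [if_neg n1, if_neg n2, if_neg n3]
      have e1 : ((1 + 0 + (0 + 0) + 6) / 2 ^ 3) &&& 1 = 0 := by decide
      rw [e1]
      omega
  · intro z hz
    unfold lowS
    rw [card_singleton, if_pos rfl, if_pos rfl, if_pos rfl]
    generalize ((offS (rootF f) u v {z} + 6) / 2 ^ 3) &&& 1 = y
    have h1 : (8 - (c &&& 6)) % 2 = 0 := by omega
    rw [Nat.add_mod, Nat.mul_mod, hc2, h1]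
    simp

/-- the word of the lower bounds -/
theorem lowF_eq {a : Finset (Fin 13) → ℕ} (ha : ∀ s, a s ≤ 4) :
    lowF (Nat.mul 6 k1_1) (Nat.mul (Nat.land c 6) k1_1) (Nat.sub 8 (Nat.land c 6)) (bw a) =
      bw (lowS c a) := by
  have e0 : Nat.land c 6 = c &&& 6 := rfl
  have e1 : ∀ k, Nat.mul k k1_1 = bw fun s => if s.card = 1 then k else 0 := by
    intro k
    show k * k1_1 = _
    rw [k1_1_eq, lay_apply, bw_mul]
    refine bw_congr fun s _ => ?_
    split_ifs <;> simp
  have e2 : Nat.land (Nat.shiftRight (Nat.add (bw a) (Nat.mul 6 k1_1)) 3) k1_1 =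
      bw fun s => if s.card = 1 then
        ((a s + (if s.card = 1 then 6 else 0)) / 2 ^ 3) &&& 1 else 0 := by
    rw [e1]
    show (bw a + bw _) >>> 3 &&& k1_1 = _
    rw [bw_add, k1_1_eq]
    exact bw_shr_lay (fun s _ => by
      have := ha s
      show a s + (if s.card = 1 then 6 else 0) < 256
      split_ifs <;> omega) (by norm_num) (by norm_num) 1
  unfold lowF
  rw [e2, e1, e0]
  show bw _ + (8 - (c &&& 6)) * bw _ = _
  rw [bw_mul, bw_add]
  rfl

/-- the values of a match -/
theorem matchF_eq (x F a b k6 cw e T u v s : ℕ) (c : ℕ → Bool) :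
    matchF x F a b k6 cw e T u v s c =
      ite0 (kilR (T - lowF k6 cw e (a + offw x u v) % 255)
          (a + offw x u v + (k128_1 - lowF k6 cw e (a + offw x u v)))
          (fW F b (SA x u v) (SB x u v) (nT (SA x u v &&& cT))))
        (ite0 (eqU u v) (c s)
          (mcb (kilR (T - lowF k6 cw e (a + offw x u v) % 255)
              (a + offw x u v + (k128_1 - lowF k6 cw e (a + offw x u v)))) (parw x u v)
            (fW F b (SA x u v) (SB x u v) (nT (SA x u v &&& cT))) s c))
        (c s) := by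
  unfold matchF
  simp only [frS_eq]
  rfl

/-- the callback with the first test is the same function -/
theorem matchP_eq : matchP = matchF := by
  funext x F a b k6 cw e T u v s c
  unfold matchP
  rw [frS_eq, frS_eq]
  cases h : kF1 F b a k6 cw e T x u v with
  | false => rw [ite0_false]
  | true =>
    have h1 : kilR (T - lowF k6 cw e (a + offw x u v) % 255)
        (a + offw x u v + (k128_1 - lowF k6 cw e (a + offw x u v)))
        (fW F b (SA x u v) (SB x u v) (nT (SA x u v &&& cT))) = true := h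
    rw [matchF_eq, h1, ite0_true, ite0_true]

/-- the law of the callback -/
theorem acc_matchF (hf : f < 2 ^ 495) (c t u v : ℕ) :
    Acc (Agree u v → LaneDead (StarCtx f c t 0) u v)
      (matchF (rootF f &&& w4) (rootf (rootF f)) (roota (rootF f)) (rootb (rootF f))
        (Nat.mul 6 k1_1) (Nat.mul (Nat.land c 6) k1_1) (Nat.sub 8 (Nat.land c 6)) (Nat.sub 89 t)
        u v) := by
  intro s k hs
  have key : ∀ B, StarCtx f c t 0 B → cub 11 (LY B) = u → cub 11 (LZ B) = v →
      Start (kilR (Nat.sub (Nat.sub 89 t) (Nat.mod (bw (lowS c (offS (rootF f) u v))) 255))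
        (Nat.add (bw (offS (rootF f) u v)) (Nat.sub k128_1 (bw (lowS c (offS (rootF f) u v))))))
        (parw (rootF f &&& w4) u v) (pairw (rootF f) u v) B := by
    intro B hB hu hv
    have hb := bitsF hf hB.odd hB.root hu hv
    exact ⟨hB.odd, kill_ok hf hB hb, par_word hb, pair_word hb hB.odd⟩
  rw [matchF_eq, off_bw, lowF_eq (a := offS (rootF f) u v) fun s => offA_le _] at hs
  have e1 : fW (rootf (rootF f)) (rootb (rootF f)) (SA (rootF f &&& w4) u v)
    (SB (rootF f &&& w4) u v) (nT (SA (rootF f &&& w4) u v &&& cT)) = pairw (rootF f) u v := rfl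
  rw [e1] at hs
  have e2 : Nat.sub 89 t - bw (lowS c (offS (rootF f) u v)) % 255 =
    Nat.sub (Nat.sub 89 t) (Nat.mod (bw (lowS c (offS (rootF f) u v))) 255) := rfl
  have e3 : bw (offS (rootF f) u v) + (k128_1 - bw (lowS c (offS (rootF f) u v))) =
    Nat.add (bw (offS (rootF f) u v)) (Nat.sub k128_1 (bw (lowS c (offS (rootF f) u v)))) := rfl
  rw [e2, e3] at hs
  generalize hK : kilR (Nat.sub (Nat.sub 89 t) (Nat.mod (bw (lowS c (offS (rootF f) u v))) 255))
      (Nat.add (bw (offS (rootF f) u v)) (Nat.sub k128_1 (bw (lowS c (offS (rootF f) u v))))) = K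
      at hs key
  cases hkl : K (pairw (rootF f) u v) with
  | true =>
    rw [hkl, ite0_true] at hs
    refine ⟨fun _ B hB hu hv => ?_, s, hs⟩
    rw [(key B hB hu hv).kill_eq] at hkl
    exact Bool.false_ne_true hkl
  | false =>
    rw [hkl, ite0_false] at hs
    cases hag : eqU u v with
    | false =>
      rw [hag, ite0_false] at hs
      refine ⟨fun h1 => ?_, s, hs⟩
      rw [eqU_of_agree h1] at hag
      exact absurd hag (by decide)
    | true =>
      rw [hag, ite0_true] at hs
      obtain ⟨h1, h2⟩ := acc_mcb (C := fun B => StarCtx f c t 0 B ∧ cub 11 (LY B) = u ∧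
        cub 11 (LZ B) = v) (fun B hB => key B hB.1 hB.2.1 hB.2.2) s k hs
      exact ⟨fun _ B hB hu hv => h1 B ⟨hB, hu, hv⟩, h2⟩

end

/-- **THE LAW OF THE ENGINE** -/
theorem engOK : EngOK rootF engF2 := by
  intro f hf c t ys zs s k hs
  unfold engF2 at hs
  rw [rootA_eq] at hs
  simp only [frS_eq, matchP_eq] at hs
  exact join_of_star2 (D := LaneDead (StarCtx f c t 0)) (fun u v => acc_matchF hf c t u v) ys zs
    s k hs

end Pool.Agent.Helper20.TY.EngF
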