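import Pool.Agent.Helper20.TY.FrameX
import Pool.Agent.Helper20.TY.RootF
import Pool.Agent.Gen.TY.FC.GrpAB

/-!
MP_8ee768_co, project TH-Y', stage F: the two types with their tables.

`tyA`, `tyB` build the records of the types from the completeness theorems of the tables modulo
automorphisms. The automorphisms are listed in an order in which consecutive ones differ by four
exchanges (`grayA`, `grayB`; `asA`, `asB` are their numbers).
-/

set_option autoImplicit false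

namespace Pool.Agent.Helper20.TY

open Finset
open Pool.Agent.Helper97.CV
open Pool.Agent.Helper79.CV
open Pool.Agent.Helper33.CV (cub valL)
open Pool.Agent.Helper67.TY (repA repB autA autB)
open Pool.Agent.Gen.TY.FC (cubA cubB cubA_eq cubB_eq GrpA GrpB)

/-- the permutations with value lists in `l` -/
def autSet (l : List (List ℕ)) : Set (Equiv.Perm (Fin 13)) := {α | Fix2 α ∧ valL α ∈ l}

def grayA : List (List ℕ) :=
  [[0, 1, 2, 3, 4, 5, 6, 7, 8, 9, 10, 11, 12],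
   [2, 1, 0, 5, 4, 3, 8, 7, 6, 10, 9, 11, 12],
   [2, 0, 1, 4, 5, 3, 7, 8, 6, 9, 10, 11, 12],
   [1, 0, 2, 3, 5, 4, 6, 8, 7, 10, 9, 11, 12],
   [1, 2, 0, 5, 3, 4, 8, 6, 7, 9, 10, 11, 12],
   [0, 2, 1, 4, 3, 5, 7, 6, 8, 10, 9, 11, 12]]

def asA : List ℕ :=
  [0xcba9876543210, 0xcb9a678345012, 0xcba9768435021, 0xcb9a786453201, 0xcba9687354102,
   0xcb9a867534120]

def grayB : List (List ℕ) :=
  [[0, 1, 2, 3, 4, 5, 6, 7, 8, 9, 10, 11, 12],
   [2, 1, 0, 6, 8, 7, 3, 5, 4, 9, 10, 11, 12],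
   [2, 0, 1, 7, 8, 6, 3, 4, 5, 10, 9, 11, 12],
   [2, 0, 1, 5, 3, 4, 8, 6, 7, 9, 10, 11, 12],
   [2, 1, 0, 4, 3, 5, 8, 7, 6, 10, 9, 11, 12],
   [1, 2, 0, 6, 7, 8, 5, 3, 4, 10, 9, 11, 12],
   [1, 0, 2, 8, 7, 6, 5, 4, 3, 9, 10, 11, 12],
   [1, 0, 2, 3, 5, 4, 7, 6, 8, 10, 9, 11, 12],
   [1, 2, 0, 4, 5, 3, 7, 8, 6, 9, 10, 11, 12],
   [0, 2, 1, 7, 6, 8, 4, 3, 5, 9, 10, 11, 12],
   [0, 2, 1, 5, 4, 3, 6, 8, 7, 10, 9, 11, 12],
   [0, 1, 2, 8, 6, 7, 4, 5, 3, 10, 9, 11, 12]]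

def asB : List ℕ :=
  [0xcba9876543210, 0xcba9453786012, 0xcb9a435876021, 0xcba9687354021, 0xcb9a678534012,
   0xcb9a543687102, 0xcba9345678201, 0xcb9a867453201, 0xcba9768435102, 0xcba9534867120,
   0xcb9a786345120, 0xcb9a354768210]

theorem grayA_num : grayA.map (fun g => numL g 0) = asA := by decide +kernel

theorem grayB_num : grayB.map (fun g => numL g 0) = asB := by decide +kernel

theorem mem_grayA : ∀ l ∈ autA, l ∈ grayA := by decide +kernel

theorem mem_grayB : ∀ l ∈ autB, l ∈ grayB := by decide +kernel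

/-- the type A -/
def tA : Typ loF hiF where
  T := repA
  C := cubA
  hC := cubA_eq
  G := GrpA
  A := autSet autA
  as := asA
  L := grayA
  hL := grayA_num
  hA := fun _ hα => mem_grayA _ hα.2

/-- the type B -/
def tB : Typ loF hiF where
  T := repB
  C := cubB
  hC := cubB_eq
  G := GrpB
  A := autSet autB
  as := asB
  L := grayB
  hL := grayB_num
  hA := fun _ hα => mem_grayB _ hα.2

/-- both tables -/
def TabsF : Prop := tA.Tab repsF ∧ tB.Tab repsF

theorem tab_A (h : TabA repsF repA 4 (fun _ _ => True) (autSet autA) GrpA.l)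
    (hx : TabA repsF repA 4 RelX (autSet autA) GrpA.lx) : tA.Tab repsF := ⟨h, hx⟩

theorem tab_B (h : TabA repsF repB 4 (fun _ _ => True) (autSet autB) GrpB.l)
    (hx : TabA repsF repB 4 RelX (autSet autB) GrpB.lx) : tB.Tab repsF := ⟨h, hx⟩

/-- a frame of the class `j` from its runs -/
theorem frame_of {j : ℕ} {tY tZ : Typ loF hiF} {sY : SufG tY.G j} {sZ : SufG tZ.G j}
    {F : FrX} {mx : ℕ} (hmx : mxF j = mx) (hc : frmChk tY tZ F = true)
    {rs : List (ℕ × ℕ × ℕ)} (hr : Runs tY tZ sY sZ mx F rs) (hv : covAll rs = true)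
    (hY : tY.Tab repsF) (hZ : tZ.Tab repsF) : FrameF repsF j F.f := by
  subst hmx
  exact frameX_of_runs hY hZ sizeOK_F (mxOK_F j) hc hr hv

end Pool.Agent.Helper20.TY
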