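import Pool.Agent.Helper20.TY.FrameX

/-!
MP_8ee768_co, project TH-Y', stage F: runs on parts of the columns.

A part `(a, k, lo, hi)` of a list of column chunks: the chunks `a, .., a + k - 1` (`k = 0`: all from
`a` on); for `hi > 0` only the lanes `lo, .., hi - 1` of these chunks (the other lanes become `0`).
`chkC` runs the blocks of a mask on the row chunks `a, .., a + k - 1` and several parts of the
columns; `runs_cols` : parts which cover all columns (`covC`) give the run `(mask, a, k)`.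
-/

set_option autoImplicit false

namespace Pool.Agent.Helper20.TY

open Pool.Agent.Helper97.CV
open Pool.Agent.Helper63.SIMD
open Pool.Agent.Helper79.CV
open Pool.Agent.Helper33.CV
open Pool.Agent.Helper63.TY (Cb Acc acc_frc runBlk Blk acc_runBlk Join Agree Lanes loopL acc_loopL)
open Pool.Agent.Helper74.TY (frc frc_eq)

/-! ### parts of the columns -/

/-- the lanes `lo, .., hi - 1` of a chunk, the others become `0` -/
def cutL (lo hi X : ℕ) : ℕ :=
  Nat.land X (Nat.sub (Nat.pow 2 (Nat.mul 2048 hi)) (Nat.pow 2 (Nat.mul 2048 lo)))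

theorem testBit_sub_pow {a b i : ℕ} (h : a ≤ b) :
    (2 ^ b - 2 ^ a).testBit i = (decide (a ≤ i) && decide (i < b)) := by
  have e : 2 ^ b - 2 ^ a = (2 ^ (b - a) - 1) * 2 ^ a := by
    rw [Nat.sub_mul, one_mul, ← pow_add, Nat.sub_add_cancel h]
  rw [e, Nat.testBit_mul_two_pow]
  by_cases h1 : a ≤ i
  · rw [decide_eq_true h1, Bool.true_and, Bool.true_and, Nat.testBit_two_pow_sub_one]
    exact decide_eq_decide.2 ⟨fun h2 => by omega, fun h2 => by omega⟩
  · rw [decide_eq_false h1, Bool.false_and, Bool.false_and]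

theorem fld_cutL {lo hi i X : ℕ} (h1 : lo ≤ i) (h2 : i < hi) :
    fld 2048 (cutL lo hi X) i = fld 2048 X i := by
  refine Nat.eq_of_testBit_eq fun t => ?_
  rw [testBit_fld', testBit_fld']
  unfold cutL
  show ((X &&& (2 ^ (2048 * hi) - 2 ^ (2048 * lo))).testBit (2048 * i + t) && decide (t < 2048)) =
    _
  by_cases ht : t < 2048
  · rw [Nat.testBit_and, testBit_sub_pow (Nat.mul_le_mul_left 2048 (by omega : lo ≤ hi)),
      decide_eq_true (by nlinarith : 2048 * lo ≤ 2048 * i + t),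
      decide_eq_true (by nlinarith : 2048 * i + t < 2048 * hi)]
    simp
  · rw [decide_eq_false ht, Bool.and_false, Bool.and_false]

/-- map on a list -/
def mpL (f : ℕ → ℕ) : List ℕ → List ℕ :=
  @List.rec ℕ (fun _ => List ℕ) [] (fun x _ ih => f x :: ih)

theorem mem_mpL {f : ℕ → ℕ} {x : ℕ} : ∀ {l : List ℕ}, x ∈ l → f x ∈ mpL f l
  | [], h => absurd h List.not_mem_nil
  | y :: l, h => by
    show f x ∈ f y :: mpL f l
    rcases List.mem_cons.1 h with rfl | h
    · exact List.mem_cons_self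
    · exact List.mem_cons_of_mem _ (mem_mpL h)

/-- the part `r = (a, k, lo, hi)` of a list of chunks -/
def colP (r : ℕ × ℕ × ℕ × ℕ) (l : List ℕ) : List ℕ :=
  @Nat.rec (fun _ => List ℕ) (slc r.1 r.2.1 l)
    (fun _ _ => mpL (cutL r.2.2.1 r.2.2.2) (slc r.1 r.2.1 l)) r.2.2.2

theorem colP_zero {a k lo : ℕ} (l : List ℕ) : colP (a, k, lo, 0) l = slc a k l := rfl

theorem colP_pos {a k lo hi : ℕ} (h : 0 < hi) (l : List ℕ) :
    colP (a, k, lo, hi) l = mpL (cutL lo hi) (slc a k l) := by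
  obtain ⟨h', rfl⟩ := Nat.exists_eq_succ_of_ne_zero (by omega : hi ≠ 0)
  rfl

/-- the parts cover the columns from the chunk `p`, lane `q` on -/
def covC : List (ℕ × ℕ × ℕ × ℕ) → ℕ → ℕ → Bool
  | [], _, _ => false
  | r :: cs, p, q => bif Nat.beq r.1 p && Nat.beq r.2.2.1 q then
      (bif Nat.beq r.2.2.2 0 then (bif Nat.beq r.2.1 0 then true else covC cs (p + r.2.1) 0)
        else (Nat.beq r.2.1 1 && (bif Nat.ble 128 r.2.2.2 then covC cs (p + 1) 0
          else covC cs p r.2.2.2)))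
    else false

theorem mem_slc_zero {a p : ℕ} (hp : a ≤ p) {X : ℕ} {l : List ℕ} (h : X ∈ drp p l) :
    X ∈ drp a l := by
  obtain ⟨d, rfl⟩ := Nat.exists_eq_add_of_le hp
  rw [drp_add] at h
  rw [← tke_drp d (drp a l)]
  exact List.mem_append.2 (Or.inr h)

theorem covC_spec {D : ℕ → ℕ → Prop} {ys l : List ℕ} {u : ℕ} (hu : u ∈ Lanes 128 ys) :
    ∀ {cs : List (ℕ × ℕ × ℕ × ℕ)} {p q : ℕ}, (∀ r ∈ cs, Join 128 D ys (colP r l)) →
      covC cs p q = true → ∀ v, ((∃ X ∈ tke 1 (drp p l), ∃ i < 128, q ≤ i ∧ v = fld 2048 X i) ∨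
        v ∈ Lanes 128 (drp (p + 1) l)) → Agree u v → D u v
  | [], _, _, _, h => absurd h Bool.false_ne_true
  | (a, k, lo, hi) :: cs, p, q, hr, h => by
    have h' : (bif Nat.beq a p && Nat.beq lo q then
      (bif Nat.beq hi 0 then (bif Nat.beq k 0 then true else covC cs (p + k) 0)
        else (Nat.beq k 1 && (bif Nat.ble 128 hi then covC cs (p + 1) 0
          else covC cs p hi))) else false) = true := h
    by_cases h1 : (Nat.beq a p && Nat.beq lo q) = true
    swap
    · rw [Bool.not_eq_true] at h1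
      rw [h1, cond_false] at h'
      exact absurd h' Bool.false_ne_true
    rw [h1, cond_true] at h'
    rw [Bool.and_eq_true, Nat.beq_eq, Nat.beq_eq] at h1
    obtain ⟨rfl, rfl⟩ := h1
    have h0 := hr _ List.mem_cons_self
    have hr' : ∀ r ∈ cs, Join 128 D ys (colP r l) := fun r h => hr r (List.mem_cons_of_mem _ h)
    intro v hv ha
    by_cases h2 : hi = 0
    · subst h2
      have e0 : Nat.beq 0 0 = true := rfl
      rw [e0, cond_true] at h'
      rw [colP_zero] at h0
      by_cases h3 : k = 0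
      · subst h3
        refine h0 u hu v ?_ ha
        rw [slc_zero]
        rcases hv with ⟨X, hX, i, hi, _, rfl⟩ | ⟨X, hX, hi⟩
        · refine ⟨X, ?_, i, hi, rfl⟩
          rw [← tke_drp 1 (drp a l)]
          exact List.mem_append.2 (Or.inl hX)
        · exact ⟨X, mem_slc_zero (by omega) hX, hi⟩
      · have e1 : Nat.beq k 0 = false := by
          rw [Bool.eq_false_iff, Ne, Nat.beq_eq]
          exact h3
        rw [e1, cond_false] at h'
        -- `v` is in a chunk from `a` on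
        have hv' : ∃ X ∈ drp a l, ∃ i < 128, v = fld 2048 X i := by
          rcases hv with ⟨X, hX, i, hi, _, rfl⟩ | ⟨X, hX, hi⟩
          · refine ⟨X, ?_, i, hi, rfl⟩
            rw [← tke_drp 1 (drp a l)]
            exact List.mem_append.2 (Or.inl hX)
          · exact ⟨X, mem_slc_zero (by omega) hX, hi⟩
        obtain ⟨X, hX, i, hi, rfl⟩ := hv'
        rw [← tke_drp k (drp a l), List.mem_append] at hX
        rcases hX with hX | hX
        · refine h0 u hu _ ⟨X, ?_, i, hi, rfl⟩ ha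
          rw [slc_pos (Nat.pos_of_ne_zero h3)]
          exact hX
        · refine covC_spec hu hr' h' _ ?_ ha
          rw [← drp_add] at hX
          rw [← tke_drp 1 (drp (a + k) l), List.mem_append, ← drp_add] at hX
          rcases hX with hX | hX
          · exact Or.inl ⟨X, hX, i, hi, Nat.zero_le _, rfl⟩
          · exact Or.inr ⟨X, hX, i, hi, rfl⟩
    · have e1 : Nat.beq hi 0 = false := by
        rw [Bool.eq_false_iff, Ne, Nat.beq_eq]
        exact h2
      rw [e1, cond_false, Bool.and_eq_true, Nat.beq_eq] at h'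
      obtain ⟨rfl, h'⟩ := h'
      rw [colP_pos (Nat.pos_of_ne_zero h2), slc_pos Nat.one_pos] at h0
      have hin : ∀ X ∈ tke 1 (drp a l), ∀ i < 128, lo ≤ i → i < hi → Agree u (fld 2048 X i) →
          D u (fld 2048 X i) := by
        intro X hX i hi1 hi2 hi3 ha
        refine h0 u hu _ ⟨_, mem_mpL hX, i, hi1, ?_⟩ ha
        exact (fld_cutL hi2 hi3).symm
      by_cases h3 : 128 ≤ hi
      · have e2 : Nat.ble 128 hi = true := by
          rw [Nat.ble_eq]
          exact h3
        rw [e2, cond_true] at h'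
        rcases hv with ⟨X, hX, i, hi1, hi2, rfl⟩ | ⟨X, hX, i, hi1, rfl⟩
        · exact hin X hX i hi1 hi2 (by omega) ha
        · refine covC_spec hu hr' h' _ ?_ ha
          rw [← tke_drp 1 (drp (a + 1) l), List.mem_append, ← drp_add] at hX
          rcases hX with hX | hX
          · exact Or.inl ⟨X, hX, i, hi1, Nat.zero_le _, rfl⟩
          · exact Or.inr ⟨X, hX, i, hi1, rfl⟩
      · have e2 : Nat.ble 128 hi = false := by
          rw [Bool.eq_false_iff, Ne, Nat.ble_eq]
          exact h3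
        rw [e2, cond_false] at h'
        rcases hv with ⟨X, hX, i, hi1, hi2, rfl⟩ | hv
        · by_cases h4 : i < hi
          · exact hin X hX i hi1 hi2 h4 ha
          · exact covC_spec hu hr' h' _ (Or.inl ⟨X, hX, i, hi1, by omega, rfl⟩) ha
        · exact covC_spec hu hr' h' _ (Or.inr hv) ha

theorem join_of_cols {D : ℕ → ℕ → Prop} {ys l : List ℕ} {cs : List (ℕ × ℕ × ℕ × ℕ)}
    (h : ∀ r ∈ cs, Join 128 D ys (colP r l)) (hv : covC cs 0 0 = true) : Join 128 D ys l := by
  intro u hu v hv' ha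
  refine covC_spec hu h hv v ?_ ha
  obtain ⟨X, hX, i, hi, rfl⟩ := hv'
  rw [← tke_drp 1 l, List.mem_append] at hX
  rcases hX with hX | hX
  · exact Or.inl ⟨X, hX, i, hi, Nat.zero_le _, rfl⟩
  · exact Or.inr ⟨X, hX, i, hi, rfl⟩

theorem blk_of_cols {mx : ℕ} {X F X' F' : ℕ → List ℕ} {f b : ℕ}
    {cs : List (ℕ × ℕ × ℕ × ℕ)} (hv : covC cs 0 0 = true)
    (h : ∀ r ∈ cs, Blk mx X F (fun m => colP r (X' m)) (fun m => colP r (F' m)) 128 f b) :
    Blk mx X F X' F' 128 f b := by
  rcases b with _ | _ | _ | _ | _ | _ | _ | _ | _ | b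
  all_goals first
    | trivial
    | exact join_of_cols h hv

/-! ### the runs -/

section
variable {lo hi : ℕ → ℕ} {j : ℕ}

/-- the blocks of `mask` on the row chunks `a, .., a + k - 1` and the part `r` of the columns -/
noncomputable def runY (rc : ℕ → ℕ) (eng : ℕ → ℕ → ℕ → List ℕ → List ℕ → Cb)
    (tY tZ : Typ lo hi) (sY : SufG tY.G j) (sZ : SufG tZ.G j) (mx : ℕ) (F : FrX)
    (mask a k : ℕ) (r : ℕ × ℕ × ℕ × ℕ) : Cb := fun s c =>
  frc (rc F.f) fun C => runBlk (engF (eng C)) mx (fun m => slc a k (rX tY sY F m))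
    (fun m => slc a k (rF tY sY F m)) (fun m => colP r (cX tZ sZ F m))
    (fun m => colP r (cF tZ sZ F m)) mask s c

/-- the statement of a run on a part of the columns -/
def ColS (tY tZ : Typ lo hi) (sY : SufG tY.G j) (sZ : SufG tZ.G j) (mx : ℕ) (F : FrX)
    (mask a k : ℕ) (r : ℕ × ℕ × ℕ × ℕ) : Prop :=
  F.f < 2 ^ 495 → ∀ b < 9, mask.testBit b = true →
    Blk mx (fun m => slc a k (rX tY sY F m)) (fun m => slc a k (rF tY sY F m))
      (fun m => colP r (cX tZ sZ F m)) (fun m => colP r (cF tZ sZ F m)) 128 F.f b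

theorem acc_runY {rc : ℕ → ℕ} {eng : ℕ → ℕ → ℕ → List ℕ → List ℕ → Cb} (he : EngOK rc eng)
    (tY tZ : Typ lo hi) (sY : SufG tY.G j) (sZ : SufG tZ.G j) (mx : ℕ) (F : FrX)
    (mask a k : ℕ) (r : ℕ × ℕ × ℕ × ℕ) (hf : F.f < 2 ^ 495) :
    Acc (∀ b < 9, mask.testBit b = true →
      Blk mx (fun m => slc a k (rX tY sY F m)) (fun m => slc a k (rF tY sY F m))
        (fun m => colP r (cX tZ sZ F m)) (fun m => colP r (cF tZ sZ F m)) 128 F.f b)
      (runY rc eng tY tZ sY sZ mx F mask a k r) := by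
  unfold runY
  refine acc_frc (f := fun C => runBlk (engF (eng C)) mx (fun m => slc a k (rX tY sY F m))
    (fun m => slc a k (rF tY sY F m)) (fun m => colP r (cX tZ sZ F m))
    (fun m => colP r (cF tZ sZ F m)) mask) (rc F.f) ?_
  refine acc_runBlk (n := 128) (f := F.f) (engF (eng (rc F.f))) mx
    (fun m => slc a k (rX tY sY F m)) (fun m => slc a k (rF tY sY F m))
    (fun m => colP r (cX tZ sZ F m)) (fun m => colP r (cF tZ sZ F m)) ?_ mask
  intro c t ys zs
  exact acc_engF (he F.f hf c t ys zs)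

/-- several parts of the columns -/
def Cols (tY tZ : Typ lo hi) (sY : SufG tY.G j) (sZ : SufG tZ.G j) (mx : ℕ) (F : FrX)
    (mask a k : ℕ) : List (ℕ × ℕ × ℕ × ℕ) → Prop
  | [] => True
  | r :: rs => ColS tY tZ sY sZ mx F mask a k r ∧ Cols tY tZ sY sZ mx F mask a k rs

theorem Cols.append {tY tZ : Typ lo hi} {sY : SufG tY.G j} {sZ : SufG tZ.G j} {mx : ℕ}
    {F : FrX} {mask a k : ℕ} : ∀ {rs rs' : List (ℕ × ℕ × ℕ × ℕ)},
      Cols tY tZ sY sZ mx F mask a k rs → Cols tY tZ sY sZ mx F mask a k rs' →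
      Cols tY tZ sY sZ mx F mask a k (rs ++ rs')
  | [], _, _, h' => h'
  | _ :: _, _, h, h' => ⟨h.1, Cols.append h.2 h'⟩

theorem cols_iff {tY tZ : Typ lo hi} {sY : SufG tY.G j} {sZ : SufG tZ.G j} {mx : ℕ}
    {F : FrX} {mask a k : ℕ} {rs : List (ℕ × ℕ × ℕ × ℕ)} :
    Cols tY tZ sY sZ mx F mask a k rs ↔ ∀ r ∈ rs, ColS tY tZ sY sZ mx F mask a k r := by
  induction rs with
  | nil => exact ⟨fun _ r hr => absurd hr List.not_mem_nil, fun _ => trivial⟩
  | cons r rs ih =>
    refine ⟨fun h r' hr' => ?_, fun h => ⟨h r List.mem_cons_self,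
      ih.2 fun r' hr' => h r' (List.mem_cons_of_mem _ hr')⟩⟩
    rcases List.mem_cons.1 hr' with rfl | hr'
    · exact h.1
    · exact ih.1 h.2 r' hr'

/-- the check of several parts of the columns, stream `s` -/
noncomputable def chkC (rc : ℕ → ℕ) (eng : ℕ → ℕ → ℕ → List ℕ → List ℕ → Cb)
    (tY tZ : Typ lo hi) (sY : SufG tY.G j) (sZ : SufG tZ.G j) (mx : ℕ) (F : FrX)
    (mask a k : ℕ) (rs : List (ℕ × ℕ × ℕ × ℕ)) (s : ℕ) : Bool :=
  loopL (fun r => runY rc eng tY tZ sY sZ mx F mask a k r) rs s fun _ => true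

theorem cols_of {rc : ℕ → ℕ} {eng : ℕ → ℕ → ℕ → List ℕ → List ℕ → Cb} (he : EngOK rc eng)
    {tY tZ : Typ lo hi} {sY : SufG tY.G j} {sZ : SufG tZ.G j} {mx : ℕ} {F : FrX}
    {mask a k : ℕ} {rs : List (ℕ × ℕ × ℕ × ℕ)} {s : ℕ}
    (h : chkC rc eng tY tZ sY sZ mx F mask a k rs s = true) :
    Cols tY tZ sY sZ mx F mask a k rs := by
  refine cols_iff.2 fun r hr hf => ?_
  have h1 := acc_loopL (l := rs)
    (P := fun r : ℕ × ℕ × ℕ × ℕ => ∀ b < 9, mask.testBit b = true →
      Blk mx (fun m => slc a k (rX tY sY F m)) (fun m => slc a k (rF tY sY F m))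
        (fun m => colP r (cX tZ sZ F m)) (fun m => colP r (cF tZ sZ F m)) 128 F.f b)
    (f := fun r : ℕ × ℕ × ℕ × ℕ => runY rc eng tY tZ sY sZ mx F mask a k r) (fun r _ =>
      acc_runY he tY tZ sY sZ mx F mask a k r hf) s (fun _ => true) h
  exact h1.1 r hr

/-- **a run from its parts** -/
theorem runs_cols {tY tZ : Typ lo hi} {sY : SufG tY.G j} {sZ : SufG tZ.G j} {mx : ℕ} {F : FrX}
    {mask a k : ℕ} {cs : List (ℕ × ℕ × ℕ × ℕ)} (h : Cols tY tZ sY sZ mx F mask a k cs)
    (hv : covC cs 0 0 = true) : Runs tY tZ sY sZ mx F [(mask, a, k)] := by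
  refine ⟨fun hf b hb hm => ?_, trivial⟩
  exact blk_of_cols (X := fun m => slc a k (rX tY sY F m)) (F := fun m => slc a k (rF tY sY F m))
    hv fun r hr => cols_iff.1 h r hr hf b hb hm

end

end Pool.Agent.Helper20.TY
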