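import Pool.Agent.Helper97.CV.Kill10Sound

/-!
MP_8ee768_co, project TH-Y', star engine: the kill test in the frame `K = {10, 11, 12}` when the
lower bounds `l` of the outside points hold up to one exception `s` of size `d`.
-/

set_option autoImplicit false
set_option exponentiation.threshold 20000

namespace Pool.Agent.Helper20.TY

open Finset Pool.Agent.Helper63.SIMD Pool.Agent.Helper97.CV.KillW Pool.Agent.Helper97.CV.Cube
open Pool.Agent.Helper89.CV
open Pool.Agent.Helper97.CV Pool.Agent.Helper97.CV.Kill10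

/-- valid data up to the exception `s` of size `d` -/
structure SoundE (B : Finset (Finset (Fin 13))) (s : Fin 13) (d : ℕ) (u v p a l : ℕ → ℕ) :
    Prop where
  pair : ∀ z w : Fin 13, z.val < 10 → w.val < 10 → z ≠ w →
    (fF u v p (2 ^ z.val + 2 ^ w.val) + 1) / 3 ≤ mm B z w
  off : ∀ z : Fin 13, z.val < 10 → a (2 ^ z.val) ≤ mm B z 10 + mm B z 11 + mm B z 12 + 1
  low : ∀ z : Fin 13, z.val < 10 → l (2 ^ z.val) ≤ MM B z + (if z = s then d else 0)

theorem SoundE.zero {B : Finset (Finset (Fin 13))} {s : Fin 13} {d : ℕ} {u v p a l : ℕ → ℕ}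
    (h : SoundE B s d u v p a l) : Sound B u v p a (fun _ => 0) :=
  ⟨h.pair, h.off, fun _ _ => Nat.zero_le _⟩

theorem rF_le_exc {B : Finset (Finset (Fin 13))} (hB : OddCover B) {s : Fin 13} {d : ℕ}
    {u v p a l : ℕ → ℕ} (h : SoundE B s d u v p a l) (z : Fin 13) (hz : z.val < 10) :
    rF u v p a l (2 ^ z.val) ≤ MM B z + (if z = s then d else 0) :=
  max_le (h.low z hz) (le_trans (xF_le hB h.zero z hz) (Nat.le_add_right _ _))

/-- the total of a lane -/
theorem total_le_exc {B : Finset (Finset (Fin 13))} (hB : OddCover B) (h157 : B.card ≤ 157)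
    {s : Fin 13} {d : ℕ} {u v p a l : ℕ → ℕ} (h : SoundE B s d u v p a l) :
    ∑ z ∈ range 10, rF u v p a l (2 ^ z) + (MM B 10 + MM B 11 + MM B 12) ≤ 88 + d := by
  have h1 : ∑ z ∈ range 10, rF u v p a l (2 ^ z) ≤
      ∑ z ∈ range 10, ((if h : z < 10 then MM B ⟨z, by omega⟩ else 0) +
        (if z = s.val then d else 0)) := by
    refine sum_le_sum fun z hz => ?_
    have hz := mem_range.1 hz
    rw [dif_pos hz]
    have h2 := rF_le_exc hB h ⟨z, by omega⟩ hz
    have h3 : ((⟨z, by omega⟩ : Fin 13) = s) ↔ z = s.val := by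
      rw [Fin.ext_iff]
    simp only [h3] at h2
    exact h2
  rw [sum_add_distrib] at h1
  have h4 : ∑ z ∈ range 10, (if z = s.val then d else 0) ≤ d := by
    rw [Finset.sum_ite_eq']
    split_ifs
    · exact le_rfl
    · exact Nat.zero_le _
  have h5 := sum_MM_outside hB h157
  omega

/-- scalar soundness with one exception -/
theorem kill1_sound_exc {B : Finset (Finset (Fin 13))} (hB : OddCover B) (h157 : B.card ≤ 157)
    {s : Fin 13} {d : ℕ} {u v p a l : ℕ → ℕ} (hok : Ok u v p a l) (h : SoundE B s d u v p a l)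
    {T : ℕ} (hT : 88 + d < T + (MM B 10 + MM B 11 + MM B 12)) :
    kill1 kC2 (kM2 1) (kT 1 2) (kT 1 5) (kT 1 8) (kO2 1) kC1 (kM1 1) (kH 1) (kEv 1) T
      (pk 8 1024 u) (pk 8 1024 v) (pk 8 1024 p) (pk 8 1024 a)
      (pk 8 1024 (fun r => onS P1 128 r - l r)) (pk 8 1024 l) = false := by
  unfold kill1
  have h1 := resRun_eq (n := 1) (u := fun _ => u) (v := fun _ => v) (p := fun _ => p)
    (a := fun _ => a) (l := fun _ => l) (fun _ _ => hok)
  rw [cube_one, cube_one, cube_one, cube_one, cube_one, cube_one, cube_one] at h1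
  rw [h1]
  have h2 := pk_mod255 1024 (rF u v p a l)
  rw [sum_rF hok] at h2
  have h3 := total_le_exc hB h157 h
  by_contra hc
  rw [Bool.not_eq_false, Nat.ble_eq] at hc
  omega

/-- lane soundness with one exception -/
theorem killN_sound_exc {B : Finset (Finset (Fin 13))} (hB : OddCover B) (h157 : B.card ≤ 157)
    {s : Fin 13} {d n : ℕ} {u v p a l : ℕ → ℕ → ℕ}
    (h : ∀ i < n, Ok (u i) (v i) (p i) (a i) (l i)) {T : ℕ → ℕ} (hT : ∀ i, T i ≤ 256) {i : ℕ}
    (hi : i < n) (hs : SoundE B s d (u i) (v i) (p i) (a i) (l i))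
    (hTi : 88 + d < T i + (MM B 10 + MM B 11 + MM B 12)) :
    fld 16384 (killN kC2 (kM2 n) (kT n 2) (kT n 5) (kT n 8) (kO2 n) kC1 (kM1 n) (kH n) (kEv n)
      (kM0 n) (kO0 n) (pk 16384 n (fun i => 256 - T i))
      (cube n u) (cube n v) (cube n p) (cube n a) (cube n (fun i r => onS P1 128 r - l i r))
      (cube n l)) i = 0 := by
  rw [killN_eq h hT, fld_pk _ hi]
  · have h1 := total_le_exc hB h157 hs
    have h2 := Nat.mod_le (∑ z ∈ range 10, rF (u i) (v i) (p i) (a i) (l i) (2 ^ z)) 256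
    exact if_neg (by omega)
  · intro j _
    split_ifs
    · exact Nat.one_lt_two_pow (by norm_num)
    · exact Nat.two_pow_pos _

end Pool.Agent.Helper20.TY
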